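import Pool.Agent.GH.Trop.StmN

/-!
# GH-TROPN-Q1: the numbers for `(3, 4)`
-/

namespace GH.Trop

open GH.CombU

theorem n_b34_T (n m : ℕ) : TLN 1 n m = min (n - m) (3 * m - 1 - n) := by
  unfold TLN tLN cenLN
  rw [if_neg one_ne_zero, if_neg one_ne_zero, if_pos rfl]
  omega

theorem n_b34_step (n m : ℕ) :
    TLN 1 (n + 1) m + (if n + 2 ≤ 3 * m ∧ 2 * m ≤ n then 1 else 0) =
      TLN 1 n m + (if n + 2 ≤ 2 * m ∧ m ≤ n then 1 else 0) := by
  rw [n_b34_T, n_b34_T]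
  split_ifs <;> omega

theorem n_b34_c1 (n : ℕ) :
    ∑ m ∈ Finset.range (2 * n + 4), (if n + 2 ≤ 3 * m ∧ 2 * m ≤ n then 1 else 0) =
      n / 2 + 1 - (n + 4) / 3 := by
  rw [← Finset.card_filter, ← Nat.card_Ico ((n + 4) / 3) (n / 2 + 1)]
  congr 1
  ext m
  simp only [Finset.mem_filter, Finset.mem_range, Finset.mem_Ico]
  omega

theorem n_b34_c2 (n : ℕ) :
    ∑ m ∈ Finset.range (2 * n + 4), (if n + 2 ≤ 2 * m ∧ m ≤ n then 1 else 0) =
      n + 1 - (n + 3) / 2 := by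
  rw [← Finset.card_filter, ← Nat.card_Ico ((n + 3) / 2) (n + 1)]
  congr 1
  ext m
  simp only [Finset.mem_filter, Finset.mem_range, Finset.mem_Ico]
  omega

theorem spB34 : SpB34 := by
  intro n
  have h1 : BLN 1 (n + 1) = ∑ m ∈ Finset.range (2 * n + 4), TLN 1 (n + 1) m := by
    unfold BLN ZLN
    rw [show 2 * (n + 1) + 2 = 2 * n + 4 by ring]
  have h2 : BLN 1 n = ∑ m ∈ Finset.range (2 * n + 4), TLN 1 n m := by
    have e : 2 * n + 4 = 2 * n + 2 + 1 + 1 := by ring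
    rw [e, Finset.sum_range_succ, Finset.sum_range_succ]
    unfold BLN ZLN
    rw [n_b34_T n (2 * n + 2), n_b34_T n (2 * n + 2 + 1)]
    omega
  have h3 := Finset.sum_congr (rfl : Finset.range (2 * n + 4) = Finset.range (2 * n + 4))
    (fun m _ => n_b34_step n m)
  rw [Finset.sum_add_distrib, Finset.sum_add_distrib, ← h1, ← h2, n_b34_c1, n_b34_c2] at h3
  omega

end GH.Trop
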