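import Pool.Agent.GH.Trop.StmN

/-!
# GH-TROPN-F1: the choice of the block, `p = 5`
-/

noncomputable section

namespace GH.Trop

theorem c5_fact : Fact (Nat.Prime 5) := ⟨by norm_num⟩

attribute [local instance] c5_fact

theorem c5_fac (a m : ℕ) : padicValNat 5 (a + m).factorial =
    padicValNat 5 a.factorial + ∑ i ∈ Finset.range m, padicValNat 5 (a + i + 1) := by
  induction m with
  | zero => simp
  | succ m ih =>
    rw [← add_assoc, Nat.factorial_succ, padicValNat.mul (by omega) (Nat.factorial_ne_zero _),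
      ih, Finset.sum_range_succ]
    omega

theorem c5_fac0 (m : ℕ) : padicValNat 5 m.factorial =
    ∑ i ∈ Finset.range m, padicValNat 5 (i + 1) := by
  have h := c5_fac 0 m
  rw [zero_add, Nat.factorial_zero, padicValNat_one_right, zero_add] at h
  rw [h]
  exact Finset.sum_congr rfl fun i _ ↦ by rw [zero_add]

theorem c5_le (n : ℕ) : 4 * padicValNat 5 n.factorial ≤ n := by
  have h := sub_one_mul_padicValNat_factorial (p := 5) n
  norm_num at h
  omega

/-- The valuation of a difference. -/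
theorem c5_val {x y : ℕ} (hy : y ≠ 0) (h : padicValNat 5 x ≤ padicValNat 5 (x + y)) :
    padicValNat 5 x ≤ padicValNat 5 y := by
  rcases Nat.eq_zero_or_pos x with rfl | hx
  · simp
  · rw [← padicValNat_dvd_iff_le hy]
    have h1 : 5 ^ padicValNat 5 x ∣ x + y :=
      (pow_dvd_pow 5 h).trans pow_padicValNat_dvd
    exact (Nat.dvd_add_right pow_padicValNat_dvd).1 h1

theorem c5_val2 {x y : ℕ} (hy : y ≠ 0) (h : padicValNat 5 (x + y) ≤ padicValNat 5 x) :
    padicValNat 5 (x + y) ≤ padicValNat 5 y := by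
  rw [← padicValNat_dvd_iff_le hy]
  have h1 : 5 ^ padicValNat 5 (x + y) ∣ x := (pow_dvd_pow 5 h).trans pow_padicValNat_dvd
  exact (Nat.dvd_add_right h1).1 pow_padicValNat_dvd

theorem spChoice5 : SpChoice5 := by
  intro q0 q hq
  obtain ⟨m, rfl⟩ := Nat.exists_eq_add_of_lt hq
  obtain ⟨i0, hi0, hmax⟩ := Finset.exists_max_image (Finset.range (m + 1))
    (fun i ↦ padicValNat 5 (q0 + i + 1)) ⟨0, by simp⟩
  rw [Finset.mem_range] at hi0
  obtain ⟨j, hj⟩ := Nat.exists_eq_add_of_le (Nat.lt_succ_iff.1 hi0)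
  subst hj
  set W := padicValNat 5 (q0 + i0 + 1) with hW
  have hle : ∀ i, i < i0 + j + 1 → padicValNat 5 (q0 + i + 1) ≤ W := fun i hi ↦
    hmax i (Finset.mem_range.2 hi)
  have hfac := c5_fac q0 (i0 + 1 + j)
  rw [Finset.sum_range_add, Finset.sum_range_succ, ← hW] at hfac
  have hA : ∑ i ∈ Finset.range i0, padicValNat 5 (q0 + i + 1) ≤
      padicValNat 5 i0.factorial := by
    rw [c5_fac0, ← Finset.sum_range_reflect]
    refine Finset.sum_le_sum fun i hi ↦ ?_
    have hi' := Finset.mem_range.1 hi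
    refine c5_val (by omega) ?_
    have h2 : q0 + (i0 - 1 - i) + 1 + (i + 1) = q0 + i0 + 1 := by omega
    rw [h2]
    exact hle _ (by omega)
  have hB : ∑ i ∈ Finset.range j, padicValNat 5 (q0 + (i0 + 1 + i) + 1) ≤
      padicValNat 5 j.factorial := by
    rw [c5_fac0]
    refine Finset.sum_le_sum fun i hi ↦ ?_
    have hi' := Finset.mem_range.1 hi
    have h2 : q0 + (i0 + 1 + i) + 1 = q0 + i0 + 1 + (i + 1) := by omega
    have h3 := hle (i0 + 1 + i) (by omega)
    rw [h2] at h3 ⊢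
    exact c5_val2 (by omega) h3
  have hs := c5_le i0
  have hjl := c5_le j
  have hep : W - 1 - (i0 + (q0 + (i0 + j) + 1) % 5 ^ (W - 1)) ≤
      ep 5 (W - 1) i0 (q0 + (i0 + j) + 1) := by
    have hmem : W - 1 ∈ Finset.range (W - 1 + 1) := Finset.mem_range.2 (Nat.lt_succ_self _)
    exact Finset.le_sup (f := fun V ↦ V - (i0 + (q0 + (i0 + j) + 1) % 5 ^ V)) hmem
  have hmod : (q0 + (i0 + j) + 1) % 5 ^ (W - 1) ≤ j := by
    have h1 : 5 ^ (W - 1) ∣ q0 + i0 + 1 :=
      (pow_dvd_pow 5 (Nat.sub_le W 1)).trans pow_padicValNat_dvd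
    obtain ⟨c, hc⟩ := h1
    have h2 : q0 + (i0 + j) + 1 = 5 ^ (W - 1) * c + j := by omega
    rw [h2, Nat.mul_add_mod]
    exact Nat.mod_le _ _
  refine ⟨W - 1, i0, ?_, ?_⟩
  · rcases Nat.eq_zero_or_pos W with h | h
    · left
      omega
    · right
      rw [Nat.sub_add_cancel h]
      have h1 : q0 + 1 + i0 = q0 + i0 + 1 := by omega
      rw [h1]
      exact pow_padicValNat_dvd
  · have h1 : q0 + (i0 + 1 + j) = q0 + (i0 + j) + 1 := by omega
    rw [h1] at hfac
    omega

end GH.Trop
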