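import Pool.Agent.GH.Trop.StmN

/-!
# GH-TROPN-Q4: the potentials for `(3, 4)`
-/

namespace GH.Trop

open GH.CombU

theorem p34_vtx (h1 : SpB34) {n : ℕ} (hn : 1 ≤ n)
    (h : 2 * BLN 1 n < BLN 1 (n - 1) + BLN 1 (n + 1)) : n % 3 = 2 := by
  obtain ⟨k, rfl⟩ : ∃ k, n = k + 1 := ⟨n - 1, by omega⟩
  rw [Nat.add_sub_cancel] at h
  have e1 := h1 k
  have e2 := h1 (k + 1)
  omega

theorem p34_cv (h1 : SpB34) : CvN (BLN 1) := by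
  refine ⟨by decide, fun n => ?_⟩
  have e1 := h1 n
  have e2 := h1 (n + 1)
  have e3 : n + 1 + 1 = n + 2 := rfl
  rw [e3] at e2
  omega

theorem p34_L (h2 : SpThT) (h3 : SpS34) : PLh 3 4 4 (BLN 1) := by
  intro n k hn hk
  rcases Nat.even_or_odd n with ⟨a, ha⟩ | ⟨a, ha⟩
  · refine ⟨thT 4 (n / 6), (h2 4 _).1, (h3 n hn).2, ?_⟩
    have e1 := (h2 4 (n / 6)).2 (3 * (n : ℤ) - 4)
    have e2 := (h2 4 (n / 6)).2 (3 * ((n : ℤ) + k) - 4)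
    push_cast at e1 e2 ⊢
    omega
  · refine ⟨thT 1 ((n + 3) / 6), (h2 1 _).1, (h3 n hn).1, ?_⟩
    have e1 := (h2 1 ((n + 3) / 6)).2 (3 * (n : ℤ) - 4)
    have e2 := (h2 1 ((n + 3) / 6)).2 (3 * ((n : ℤ) + k) - 4)
    push_cast at e1 e2 ⊢
    omega

theorem p34_U (h2 : SpThT) (h3 : SpS34) : PUh 3 4 4 (BLN 1) := by
  intro n hn
  by_cases hr : n % 6 = 1 ∨ n % 6 = 2 ∨ n % 6 = 3
  · refine ⟨thT 4 (n / 6), (h2 4 _).1, (h3 n hn).2, fun m => ?_⟩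
    unfold thT
    split_ifs <;> omega
  · refine ⟨thT 1 ((n + 3) / 6), (h2 1 _).1, (h3 n hn).1, fun m => ?_⟩
    unfold thT
    split_ifs <;> omega

theorem p34_V (h1 : SpB34) (h2 : SpThT) (h3 : SpS34) : PVh 3 4 4 (BLN 1) := by
  intro n hn hv
  have h5 := p34_vtx h1 hn hv
  by_cases hr : n % 6 = 2
  · refine ⟨thT 4 (n / 6), (h2 4 _).1, (h3 n hn).2, fun m => ?_⟩
    unfold thT
    split_ifs <;> omega
  · refine ⟨thT 1 ((n + 3) / 6), (h2 1 _).1, (h3 n hn).1, fun m => ?_⟩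
    unfold thT
    split_ifs <;> omega

theorem p34_W (h2 : SpThT) (h3 : SpS34) : PW 3 4 4 (BLN 1) := by
  intro n hn
  by_cases hr : n % 6 = 2
  · refine ⟨thT 4 (n / 6), (h2 4 _).1, (h3 n hn).2, fun y x hy hyn hnx => ?_⟩
    have e1 := (h2 4 (n / 6)).2 (3 * (y : ℤ) - 4)
    have e2 := (h2 4 (n / 6)).2 (3 * (x : ℤ) - 4)
    have e3 := (h2 4 (n / 6)).2 (y : ℤ)
    have e4 := (h2 4 (n / 6)).2 (x : ℤ)
    push_cast at e1 e2 e3 e4 ⊢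
    omega
  · refine ⟨thT 1 ((n + 3) / 6), (h2 1 _).1, (h3 n hn).1, fun y x hy hyn hnx => ?_⟩
    have e1 := (h2 1 ((n + 3) / 6)).2 (3 * (y : ℤ) - 4)
    have e2 := (h2 1 ((n + 3) / 6)).2 (3 * (x : ℤ) - 4)
    have e3 := (h2 1 ((n + 3) / 6)).2 (y : ℤ)
    have e4 := (h2 1 ((n + 3) / 6)).2 (x : ℤ)
    push_cast at e1 e2 e3 e4 ⊢
    omega

theorem p34_X (h1 : SpB34) (h2 : SpThT) (h3 : SpS34) : PX 3 4 4 (BLN 1) := by
  intro n hn hv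
  have h5 := p34_vtx h1 hn hv
  by_cases hr : n % 6 = 2
  · refine ⟨thT 4 (n / 6), (h2 4 _).1, (h3 n hn).2, fun m => ?_, fun y x hy hyn hnx => ?_⟩
    · unfold thT
      split_ifs <;> omega
    · have e1 := (h2 4 (n / 6)).2 (3 * (y : ℤ) - 4)
      have e2 := (h2 4 (n / 6)).2 (3 * (x : ℤ) - 4)
      have e3 := (h2 4 (n / 6)).2 (y : ℤ)
      have e4 := (h2 4 (n / 6)).2 (x : ℤ)
      push_cast at e1 e2 e3 e4 ⊢
      omega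
  · refine ⟨thT 1 ((n + 3) / 6), (h2 1 _).1, (h3 n hn).1, fun m => ?_, fun y x hy hyn hnx => ?_⟩
    · unfold thT
      split_ifs <;> omega
    · have e1 := (h2 1 ((n + 3) / 6)).2 (3 * (y : ℤ) - 4)
      have e2 := (h2 1 ((n + 3) / 6)).2 (3 * (x : ℤ) - 4)
      have e3 := (h2 1 ((n + 3) / 6)).2 (y : ℤ)
      have e4 := (h2 1 ((n + 3) / 6)).2 (x : ℤ)
      push_cast at e1 e2 e3 e4 ⊢
      omega

theorem sp34 (h1 : SpB34) (h2 : SpThT) (h3 : SpS34) : Sp34 :=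
  ⟨p34_cv h1, p34_L h2 h3, p34_U h2 h3, p34_V h1 h2 h3, p34_W h2 h3, p34_X h1 h2 h3⟩

end GH.Trop
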