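import Pool.Agent.GH.Trop.Stm

/-!
# GH13-TROP, row A: potentials from thresholds
-/

open Polynomial

noncomputable section

namespace GH.Trop

theorem pot_Lam1 (p : ℕ) : Lam p 1 = 1 := by
  unfold Lam
  rw [Nat.factorial_one, padicValNat_one_right]

theorem pot_le_Lam (p m : ℕ) : m ≤ Lam p m := Nat.le_add_right _ _

theorem pot_step {p d : ℕ} {θ : ℕ → ℤ} (h : Thr p d θ) (m : ℕ) : θ m + d ≤ θ (m + 1) := by
  have h1 := h m 1
  rw [pot_Lam1, Nat.cast_one, mul_one] at h1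
  linarith

theorem pot_mono {p d : ℕ} {θ : ℕ → ℤ} (h : Thr p d θ) : Monotone θ := by
  apply monotone_nat_of_le_succ
  intro m
  have h1 := pot_step h m
  have h2 : (0 : ℤ) ≤ d := Nat.cast_nonneg _
  linarith

theorem pot_growth {p d : ℕ} {θ : ℕ → ℤ} (h : Thr p d θ) (m : ℕ) : θ 0 + (d : ℤ) * m ≤ θ m := by
  have h1 := h 0 m
  rw [zero_add] at h1
  have h2 : (d : ℤ) * m ≤ (d : ℤ) * Lam p m :=
    mul_le_mul_of_nonneg_left (by exact_mod_cast pot_le_Lam p m) (Nat.cast_nonneg _)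
  linarith

theorem spKK : SpKK := by
  intro p d θ _ hd hθ x m
  have hne : {m | x ≤ θ m}.Nonempty := by
    refine ⟨(x - θ 0).toNat, ?_⟩
    show x ≤ θ (x - θ 0).toNat
    have h1 := pot_growth hθ (x - θ 0).toNat
    have h2 : x - θ 0 ≤ ((x - θ 0).toNat : ℤ) := Int.self_le_toNat _
    have h3 : (1 : ℤ) ≤ d := by exact_mod_cast hd
    have h4 : ((x - θ 0).toNat : ℤ) ≤ (d : ℤ) * ((x - θ 0).toNat : ℤ) :=
      le_mul_of_one_le_left (Nat.cast_nonneg _) h3
    linarith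
  constructor
  · intro h
    have h1 : x ≤ θ (KK θ x) := Nat.sInf_mem hne
    exact h1.trans (pot_mono hθ h)
  · intro h
    exact Nat.sInf_le h

theorem pot_Lam_add {p : ℕ} (hp : p.Prime) (m a : ℕ) :
    Lam p (m + a) = Lam p m + Lam p a + padicValNat p ((m + a).choose m) := by
  haveI : Fact p.Prime := ⟨hp⟩
  have h1 := Nat.add_choose_mul_factorial_mul_factorial m a
  rw [← Nat.choose_symm_add] at h1
  have hc : (m + a).choose m ≠ 0 := (Nat.choose_pos (Nat.le_add_right m a)).ne'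
  have h2 : padicValNat p (m + a).factorial = padicValNat p ((m + a).choose m) +
      padicValNat p m.factorial + padicValNat p a.factorial := by
    rw [← h1, padicValNat.mul (mul_ne_zero hc m.factorial_ne_zero) a.factorial_ne_zero,
      padicValNat.mul hc m.factorial_ne_zero]
  unfold Lam
  rw [h2]
  ring

theorem spThr : SpThr := by
  intro p d T E hp hE m a
  unfold thE
  have h1 := pot_Lam_add hp m a
  have h2 := hE m a
  have h3 : (Lam p a : ℤ) ≤ Lam p (m + a) - Lam p m - (E (m + a) - E m) := by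
    have h4 : (Lam p (m + a) : ℤ) = Lam p m + Lam p a + padicValNat p ((m + a).choose m) := by
      exact_mod_cast h1
    have h5 : (E (m + a) : ℤ) ≤ E m + padicValNat p ((m + a).choose m) := by exact_mod_cast h2
    linarith
  have h6 := mul_le_mul_of_nonneg_left h3 (Nat.cast_nonneg d : (0 : ℤ) ≤ d)
  linarith

theorem pot_thrL {p : ℕ} (hp : p.Prime) (d : ℕ) : Thr p d fun m => (d : ℤ) * Lam p m := by
  intro m a
  have h1 := pot_Lam_add hp m a
  have h3 : (Lam p a : ℤ) ≤ Lam p (m + a) - Lam p m := by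
    have h4 : (Lam p (m + a) : ℤ) = Lam p m + Lam p a + padicValNat p ((m + a).choose m) := by
      exact_mod_cast h1
    rw [h4]
    have : (0 : ℤ) ≤ padicValNat p ((m + a).choose m) := Nat.cast_nonneg _
    linarith
  have h6 := mul_le_mul_of_nonneg_left h3 (Nat.cast_nonneg d : (0 : ℤ) ≤ d)
  show (d : ℤ) * Lam p a ≤ (d : ℤ) * Lam p (m + a) - (d : ℤ) * Lam p m
  linarith

theorem pot_KK_add (h : SpKK) {p d : ℕ} (hp : p.Prime) (hd : 0 < d) {θ : ℕ → ℤ}
    (hθ : Thr p d θ) (x y : ℤ) :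
    KK θ (x + y) ≤ KK θ x + KK (fun m => (d : ℤ) * Lam p m) y := by
  rw [h p d θ hp hd hθ]
  have h1 : x ≤ θ (KK θ x) := (h p d θ hp hd hθ x _).1 le_rfl
  have h2 : y ≤ (d : ℤ) * Lam p (KK (fun m => (d : ℤ) * Lam p m) y) :=
    (h p d _ hp hd (pot_thrL hp d) y _).1 le_rfl
  have h3 := hθ (KK θ x) (KK (fun m => (d : ℤ) * Lam p m) y)
  linarith

theorem spMin (h : SpKK) : SpMin := by
  intro p hp d I D N θ hd hθ hN n k a b ha hk
  have hpp : p.Prime := hp.out
  unfold Pot.minor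
  rw [Matrix.det_apply]
  refine Finset.dvd_sum fun σ _ => ?_
  rw [Units.smul_def, zsmul_eq_mul]
  refine Dvd.dvd.mul_left ?_ _
  set y : Fin n → ℤ := fun i => (p : ℤ) * ((a (σ i) : ℤ) + 1) - D - ((b i : ℤ) + 1) with hy
  set c : Fin n → ℕ := fun i => KK (fun m => (d : ℤ) * Lam p m) (y i) with hc
  have h1 : ∀ i, C ((p : ℤ_[p]) ^ c i) ∣ N (a (σ i)) (b i) := by
    intro i
    refine hN _ _ _ (ha _) fun m hm => ?_
    have h2 : ¬ (c i ≤ m) := not_le.2 hm
    rw [hc] at h2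
    beta_reduce at h2
    rw [h p d _ hpp hd (pot_thrL hpp d), not_le] at h2
    have h3 : (d : ℤ) * Lam p m < y i := h2
    rw [hy] at h3
    beta_reduce at h3
    linarith
  have h2 : C ((p : ℤ_[p]) ^ ∑ i, c i) ∣ ∏ i, N (a (σ i)) (b i) := by
    rw [← Finset.prod_pow_eq_pow_sum, map_prod]
    exact Finset.prod_dvd_prod_of_dvd _ _ fun i _ => h1 i
  have h3 : k ≤ ∑ i, c i := by
    have e1 : ∑ i, (KK θ (p * ((a i : ℤ) + 1) - D) : ℤ) =
        ∑ i, (KK θ (p * ((a (σ i) : ℤ) + 1) - D) : ℤ) :=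
      (Equiv.sum_comp σ fun i => (KK θ (p * ((a i : ℤ) + 1) - D) : ℤ)).symm
    have e2 : ∀ i, (KK θ (p * ((a (σ i) : ℤ) + 1) - D) : ℤ) ≤
        (KK θ ((b i : ℤ) + 1) : ℤ) + (c i : ℤ) := by
      intro i
      have e3 := pot_KK_add h hpp hd hθ ((b i : ℤ) + 1) (y i)
      have e4 : ((b i : ℤ) + 1) + y i = p * ((a (σ i) : ℤ) + 1) - D := by
        rw [hy]
        ring
      rw [e4] at e3
      exact_mod_cast e3
    have e5 := Finset.sum_le_sum fun i (_ : i ∈ Finset.univ) => e2 i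
    rw [Finset.sum_add_distrib] at e5
    rw [e1] at hk
    have e6 : (k : ℤ) ≤ ∑ i, (c i : ℤ) := by linarith
    exact_mod_cast e6
  refine Dvd.dvd.trans ?_ h2
  rw [C_dvd_iff_dvd_coeff]
  intro i
  rw [coeff_C]
  split_ifs
  · exact pow_dvd_pow _ h3
  · exact dvd_zero _

end GH.Trop
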