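import Pool.Agent.GH.Trop.StmN
import Pool.Agent.GH.Trop.Pot

/-!
# GH-TROPN, row B: the principal minors of `W N` from one potential
-/

open Polynomial

noncomputable section

namespace GH.Trop

open GH.CombU

/-- Expansion of a minor along a lower triangular Toeplitz factor. -/
theorem pdir_expand {R : Type*} [CommRing R] {n : ℕ} (N : ℕ → ℕ → R) (W : ℕ → R)
    (a b : Fin n → ℕ) :
    Pot.minor (fun i j ↦ ∑ l ∈ Finset.range (i + 1), W (i - l) * N l j) a b =
      ∑ k ∈ Fintype.piFinset (fun i : Fin n ↦ Finset.range (a i + 1)),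
        (∏ i, W (a i - k i)) * Pot.minor N k b := by
  have e1 : Pot.minor (fun i j ↦ ∑ l ∈ Finset.range (i + 1), W (i - l) * N l j) a b =
      Matrix.detRowAlternating (fun i : Fin n ↦ ∑ l ∈ Finset.range (a i + 1),
        (W (a i - l) • fun j : Fin n ↦ N l (b j))) := by
    have e0 : (Matrix.of fun i j : Fin n ↦
        ∑ l ∈ Finset.range (a i + 1), W (a i - l) * N l (b j)) =
        (fun i : Fin n ↦ ∑ l ∈ Finset.range (a i + 1),
          (W (a i - l) • fun j : Fin n ↦ N l (b j))) := by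
      funext i j
      rw [Matrix.of_apply, Finset.sum_apply]
      exact Finset.sum_congr rfl fun l _ ↦ rfl
    exact congrArg (fun A : Matrix (Fin n) (Fin n) R ↦ Matrix.detRowAlternating A) e0
  rw [e1]
  have := MultilinearMap.map_sum_finset
    (Matrix.detRowAlternating (R := R) (n := Fin n)).toMultilinearMap
    (fun (i : Fin n) (l : ℕ) ↦ (W (a i - l) • fun j : Fin n ↦ N l (b j)))
    (fun i : Fin n ↦ Finset.range (a i + 1))
  refine this.trans (Finset.sum_congr rfl fun k _ ↦ ?_)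
  exact MultilinearMap.map_smul_univ
    (Matrix.detRowAlternating (R := R) (n := Fin n)).toMultilinearMap
    (fun i ↦ W (a i - k i)) (fun (i : Fin n) (j : Fin n) ↦ N (k i) (b j))

/-- A minor with two equal rows vanishes. -/
theorem pdir_ninj {R : Type*} [CommRing R] {n : ℕ} (N : ℕ → ℕ → R) (k b : Fin n → ℕ)
    (hk : ¬ Function.Injective k) : Pot.minor N k b = 0 := by
  unfold Function.Injective at hk
  push Not at hk
  obtain ⟨i, j, hij, hne⟩ := hk
  refine Matrix.det_zero_of_row_eq hne ?_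
  funext l
  rw [Matrix.of_apply, Matrix.of_apply, hij]

/-- Sums over `n` distinct indices. -/
theorem pdir_sum {n : ℕ} {b : Fin n → ℕ} (hb : Function.Injective b) {c : ℕ → ℤ} {δ : ℤ}
    (hδ : 0 ≤ δ) (h : ∀ y x, y < n → n ≤ x → c y + δ ≤ c x) :
    ∑ l ∈ Finset.range n, c l ≤ ∑ j, c (b j) ∧
      ((∃ i, n ≤ b i) → ∑ l ∈ Finset.range n, c l + δ ≤ ∑ j, c (b j)) := by
  classical
  set F : Finset ℕ := Finset.univ.image b with hF
  have hcard : F.card = n := by
    rw [hF, Finset.card_image_of_injective _ hb, Finset.card_univ, Fintype.card_fin]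
  have hsum : ∑ j, c (b j) = ∑ l ∈ F, c l := by
    rw [hF, Finset.sum_image fun x _ y _ h => hb h]
  rw [hsum]
  have e1 := Finset.sum_inter_add_sum_sdiff F (Finset.range n) c
  have e2 := Finset.sum_inter_add_sum_sdiff (Finset.range n) F c
  have e3 := Finset.card_sdiff_add_card_inter F (Finset.range n)
  have e4 := Finset.card_sdiff_add_card_inter (Finset.range n) F
  rw [Finset.inter_comm (Finset.range n) F] at e2 e4
  rw [hcard] at e3
  rw [Finset.card_range] at e4
  have h6 : (F \ Finset.range n).card = (Finset.range n \ F).card := by omega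
  have key : ∑ l ∈ Finset.range n, c l + (F \ Finset.range n).card * δ ≤ ∑ l ∈ F, c l := by
    rcases Finset.eq_empty_or_nonempty (Finset.range n \ F) with h0 | h0
    · have h7 : F \ Finset.range n = ∅ := by
        rw [← Finset.card_eq_zero, h6, h0, Finset.card_empty]
      rw [h0, Finset.sum_empty] at e2
      rw [h7, Finset.sum_empty] at e1
      rw [h7, Finset.card_empty, Nat.cast_zero, zero_mul]
      linarith
    · obtain ⟨y0, hy0, hmax⟩ := Finset.exists_max_image _ c h0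
      have hy1 : y0 < n := Finset.mem_range.1 (Finset.mem_sdiff.1 hy0).1
      have h3 : (F \ Finset.range n).card * (c y0 + δ) ≤ ∑ l ∈ F \ Finset.range n, c l := by
        rw [← nsmul_eq_mul]
        refine Finset.card_nsmul_le_sum _ _ _ fun l hl => ?_
        rw [Finset.mem_sdiff, Finset.mem_range, not_lt] at hl
        exact h y0 l hy1 hl.2
      have h4 : ∑ l ∈ Finset.range n \ F, c l ≤ (Finset.range n \ F).card * c y0 := by
        rw [← nsmul_eq_mul]
        exact Finset.sum_le_card_nsmul _ _ _ fun l hl => hmax l hl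
      rw [← h6] at h4
      linarith
  refine ⟨?_, ?_⟩
  · have : (0 : ℤ) ≤ (F \ Finset.range n).card * δ := mul_nonneg (Nat.cast_nonneg _) hδ
    linarith
  · rintro ⟨i, hi⟩
    have h5 : 1 ≤ (F \ Finset.range n).card := by
      rw [Nat.one_le_iff_ne_zero, Finset.card_ne_zero]
      refine ⟨b i, ?_⟩
      rw [Finset.mem_sdiff, Finset.mem_range, not_lt]
      exact ⟨Finset.mem_image_of_mem _ (Finset.mem_univ i), hi⟩
    have h7 : (1 : ℤ) ≤ (F \ Finset.range n).card := by exact_mod_cast h5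
    have h8 : δ ≤ (F \ Finset.range n).card * δ := le_mul_of_one_le_left hδ h7
    linarith

/-- `K(x + l) ≤ K(x) + ⌈l/d⌉`. -/
theorem pdir_KK {p d : ℕ} (hp : p.Prime) (hd : 0 < d) {θ : ℕ → ℤ} (hθ : Thr p d θ) (x : ℤ)
    (l : ℕ) : KK θ (x + l) ≤ KK θ x + (l + d - 1) / d := by
  rw [spKK p d θ hp hd hθ]
  have h1 : x ≤ θ (KK θ x) := (spKK p d θ hp hd hθ x _).1 le_rfl
  have h2 := hθ (KK θ x) ((l + d - 1) / d)
  have h3 : (l : ℤ) ≤ (d : ℤ) * Lam p ((l + d - 1) / d) := by
    have h4 : l ≤ d * ((l + d - 1) / d) := by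
      have h5 := Nat.div_add_mod (l + d - 1) d
      have h6 := Nat.mod_lt (l + d - 1) hd
      omega
    have h7 : l ≤ d * Lam p ((l + d - 1) / d) :=
      h4.trans (Nat.mul_le_mul_left _ (pot_le_Lam p _))
    exact_mod_cast h7
  linarith

/-- The growth of the minors of `N`. -/
theorem pdir_min {p : ℕ} [Fact p.Prime] (P : LM.Par p) (hd : 0 < P.d) {N : ℕ → ℕ → ℤ_[p][X]}
    (hN : P.GrN N) {θ : ℕ → ℤ} (hθ : Thr p P.d θ) {n : ℕ} (k : ℤ) (a b : Fin n → ℕ)
    (h : k + ∑ j, (KK θ ((b j : ℤ) + 1) : ℤ) ≤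
      ∑ i, (KK θ (p * ((a i : ℤ) + 1) - P.D) : ℤ)) :
    C ((p : ℤ_[p]) ^ k.toNat) ∣ Pot.minor N a b := by
  rcases le_or_gt k 0 with hk | hk
  · rw [Int.toNat_of_nonpos hk, pow_zero, map_one]
    exact one_dvd _
  · refine spMin spKK p P.d (Finset.univ.sup a + 1) P.D N θ hd hθ (fun i j k _ hk => ?_) n
      k.toNat a b (fun i => Nat.lt_succ_of_le (Finset.le_sup (Finset.mem_univ i))) ?_
    · refine hN i j k fun m hm => ?_
      have h1 := hk m hm
      have h2 : (((P.d * Lam p m : ℕ) : ℤ)) + P.D < ((p * (i + 1) : ℕ) : ℤ) - (j + 1) := by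
        push_cast
        exact h1
      omega
    · rw [Int.toNat_of_nonneg hk.le]
      exact h

/-- The exponent of `W l`. -/
def pdirW (d l : ℕ) : ℕ := (l + d - 1) / d + if 2 ≤ l then 1 else 0

theorem pdir_W {p : ℕ} [Fact p.Prime] (P : LM.Par p) (hd : 0 < P.d) (hR : Rt2 p P.d)
    {W : ℕ → ℤ_[p][X]} (hW0 : W 0 = 1) (hW : P.GrW W) (l : ℕ) :
    C ((p : ℤ_[p]) ^ pdirW P.d l) ∣ W l := by
  unfold pdirW
  rcases Nat.eq_zero_or_pos l with h | h
  · subst h
    rw [if_neg (by norm_num), hW0, Nat.div_eq_of_lt (by omega), pow_zero, map_one]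
  · split_ifs with h2
    · exact hW l _ h fun j hj => hR.2 l j h2 hj
    · exact hW l _ h fun j hj => hR.1 l j h hj

theorem pdir_term {p : ℕ} [Fact p.Prime] (P : LM.Par p) (hd : 0 < P.d) (hR : Rt2 p P.d)
    {N : ℕ → ℕ → ℤ_[p][X]} {W : ℕ → ℤ_[p][X]} (hN : P.GrN N) (hW0 : W 0 = 1)
    (hW : P.GrW W) {θ : ℕ → ℤ} (hθ : Thr p P.d θ) {n : ℕ} (a k : Fin n → ℕ) (B : ℕ)
    (hB : (B : ℤ) ≤ ∑ i, ((pdirW P.d (a i - k i) : ℤ) +
      KK θ (p * ((k i : ℤ) + 1) - P.D) - KK θ ((a i : ℤ) + 1))) :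
    C ((p : ℤ_[p]) ^ B) ∣ (∏ i, W (a i - k i)) * Pot.minor N k a := by
  have h1 : C ((p : ℤ_[p]) ^ ∑ i, pdirW P.d (a i - k i)) ∣ ∏ i, W (a i - k i) := by
    rw [← Finset.prod_pow_eq_pow_sum, map_prod]
    exact Finset.prod_dvd_prod_of_dvd _ _ fun i _ => pdir_W P hd hR hW0 hW _
  have h2 := pdir_min P hd hN hθ (∑ i, (KK θ (p * ((k i : ℤ) + 1) - P.D) : ℤ) -
    ∑ i, (KK θ ((a i : ℤ) + 1) : ℤ)) k a (by linarith)
  have h3 := mul_dvd_mul h1 h2
  rw [← map_mul, ← pow_add] at h3
  refine Dvd.dvd.trans (_root_.map_dvd C (pow_dvd_pow _ ?_)) h3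
  rw [Finset.sum_sub_distrib, Finset.sum_add_distrib] at hB
  have h4 := Int.self_le_toNat (∑ i, (KK θ (p * ((k i : ℤ) + 1) - P.D) : ℤ) -
    ∑ i, (KK θ ((a i : ℤ) + 1) : ℤ))
  have h5 : (B : ℤ) ≤ ((∑ i, pdirW P.d (a i - k i) : ℕ) : ℤ) +
      ((∑ i, (KK θ (p * ((k i : ℤ) + 1) - P.D) : ℤ) -
    ∑ i, (KK θ ((a i : ℤ) + 1) : ℤ)).toNat : ℤ) := by
    push_cast
    linarith
  exact_mod_cast h5

/-- One index. -/
theorem pdir_one {p d : ℕ} (hp : p.Prime) (hd : 0 < d) {θ : ℕ → ℤ} (hθ : Thr p d θ)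
    {k a : ℕ} (h : k ≤ a) :
    (KK θ ((a : ℤ) + 1) : ℤ) + (if 2 ≤ a - k then 1 else 0) ≤
      (pdirW d (a - k) : ℤ) + KK θ ((k : ℤ) + 1) := by
  have h1 := pdir_KK hp hd hθ ((k : ℤ) + 1) (a - k)
  have h2 : ((k : ℤ) + 1) + ((a - k : ℕ) : ℤ) = (a : ℤ) + 1 := by omega
  rw [h2] at h1
  unfold pdirW
  have h3 : (KK θ ((a : ℤ) + 1) : ℤ) ≤ KK θ ((k : ℤ) + 1) + ((a - k + d - 1) / d : ℕ) := by
    exact_mod_cast h1
  rw [Nat.cast_add]
  split_ifs <;> push_cast at h3 ⊢ <;> linarith

/-- **GN-B.** -/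
theorem spPdir : SpPdir := by
  intro p hp P hd hR hPW hPX N W hN hLd hW0 hW n a ha
  have hpp : p.Prime := hp.out
  rcases Nat.eq_zero_or_pos n with h0 | hn
  · subst h0
    refine ⟨?_, ?_⟩
    · have hB : P.B 0 = 0 := by
        unfold LM.Par.B
        refine Finset.sum_eq_zero fun m _ => ?_
        unfold LM.Par.T
        rw [Nat.zero_sub, Nat.zero_min]
      rw [hB, pow_zero, map_one]
      exact one_dvd _
    · rintro - ⟨i, -⟩
      exact i.elim0
  · refine ⟨?_, ?_⟩
    · obtain ⟨θ, hθ, hS, hφ⟩ := hPW n hn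
      rw [pdir_expand]
      refine Finset.dvd_sum fun k hk => ?_
      by_cases hinj : Function.Injective k
      swap
      · rw [pdir_ninj N k a hinj, mul_zero]
        exact dvd_zero _
      have hka : ∀ i, k i ≤ a i := fun i =>
        Nat.lt_succ_iff.1 (Finset.mem_range.1 (Fintype.mem_piFinset.1 hk i))
      refine pdir_term P hd hR hN hW0 hW hθ a k _ ?_
      have h1 := (pdir_sum hinj (c := fun l => (KK θ (p * ((l : ℤ) + 1) - P.D) : ℤ) -
        KK θ ((l : ℤ) + 1)) (δ := 0) le_rfl (fun y x hy hx => by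
          have h2 := hφ (y + 1) (x + 1) (by omega) (by omega) (by omega)
          push_cast at h2
          show (KK θ (p * ((y : ℤ) + 1) - P.D) : ℤ) - KK θ ((y : ℤ) + 1) + 0 ≤
            (KK θ (p * ((x : ℤ) + 1) - P.D) : ℤ) - KK θ ((x : ℤ) + 1)
          omega)).1
      refine hS.trans (h1.trans (Finset.sum_le_sum fun i _ => ?_))
      have h3 := pdir_one hpp hd hθ (hka i)
      show (KK θ (p * ((k i : ℤ) + 1) - P.D) : ℤ) - KK θ ((k i : ℤ) + 1) ≤ _
      split_ifs at h3 <;> linarith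
    · intro hRt hai
      have hRt' : 2 * P.B n < P.B (n - 1) + P.B (n + 1) := by
        rcases hRt with h | h
        · omega
        · exact h
      obtain ⟨θ, hθ, hS, hne, hφ⟩ := hPX n hn hRt'
      rw [pdir_expand]
      refine Finset.dvd_sum fun k hk => ?_
      by_cases hinj : Function.Injective k
      swap
      · rw [pdir_ninj N k a hinj, mul_zero]
        exact dvd_zero _
      have hka : ∀ i, k i ≤ a i := fun i =>
        Nat.lt_succ_iff.1 (Finset.mem_range.1 (Fintype.mem_piFinset.1 hk i))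
      refine pdir_term P hd hR hN hW0 hW hθ a k _ ?_
      have h1 := pdir_sum hinj (c := fun l => (KK θ (p * ((l : ℤ) + 1) - P.D) : ℤ) -
        KK θ ((l : ℤ) + 1)) (δ := 1) zero_le_one (fun y x hy hx => by
          have h2 := hφ (y + 1) (x + 1) (by omega) (by omega) (by omega)
          push_cast at h2
          show (KK θ (p * ((y : ℤ) + 1) - P.D) : ℤ) - KK θ ((y : ℤ) + 1) + 1 ≤
            (KK θ (p * ((x : ℤ) + 1) - P.D) : ℤ) - KK θ ((x : ℤ) + 1)
          omega)
      have h4 : ∀ i, (KK θ (p * ((k i : ℤ) + 1) - P.D) : ℤ) - KK θ ((k i : ℤ) + 1) ≤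
          (pdirW P.d (a i - k i) : ℤ) + KK θ (p * ((k i : ℤ) + 1) - P.D) -
            KK θ ((a i : ℤ) + 1) := fun i => by
        have h3 := pdir_one hpp hd hθ (hka i)
        split_ifs at h3 <;> linarith
      rw [Nat.cast_add, Nat.cast_one]
      by_cases hki : ∃ i, n ≤ k i
      · exact (add_le_add hS le_rfl).trans ((h1.2 hki).trans
          (Finset.sum_le_sum fun i _ => h4 i))
      · push Not at hki
        obtain ⟨i0, hi0⟩ := hai
        have h5 : (KK θ (p * ((k i0 : ℤ) + 1) - P.D) : ℤ) - KK θ ((k i0 : ℤ) + 1) <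
            (pdirW P.d (a i0 - k i0) : ℤ) + KK θ (p * ((k i0 : ℤ) + 1) - P.D) -
              KK θ ((a i0 : ℤ) + 1) := by
          have h3 := pdir_one hpp hd hθ (hka i0)
          by_cases h6 : 2 ≤ a i0 - k i0
          · rw [if_pos h6] at h3
            linarith
          · have h7 := hki i0
            have h8 : a i0 = n := by omega
            have h9 : k i0 + 1 = n := by omega
            have h10 : KK θ ((a i0 : ℤ) + 1) ≤ KK θ ((k i0 : ℤ) + 1) := by
              rw [spKK p P.d θ hpp hd hθ]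
              have h11 := (spKK p P.d θ hpp hd hθ ((k i0 : ℤ) + 1) _).1 le_rfl
              have h12 := hne (KK θ ((k i0 : ℤ) + 1))
              omega
            have h13 : 1 ≤ pdirW P.d (a i0 - k i0) := by
              have h14 : a i0 - k i0 = 1 := by omega
              rw [h14]
              unfold pdirW
              rw [if_neg (by norm_num), add_zero, Nat.add_comm 1 P.d, Nat.add_sub_cancel,
                Nat.div_self hd]
            omega
        have h15 := Finset.sum_lt_sum (fun i (_ : i ∈ Finset.univ) => h4 i)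
          ⟨i0, Finset.mem_univ i0, h5⟩
        have h16 := hS.trans h1.1
        exact Int.add_one_le_of_lt (lt_of_le_of_lt h16 h15)

end GH.Trop
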