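import Pool.Agent.GH.Trop.StmN

/-!
# GH-TROPN-A: principal minors of `W N` from the scaled dominance
-/

set_option autoImplicit false

open Polynomial

noncomputable section

namespace GH.Trop

/-- The expansion of a minor of `W N`, `W` unipotent Toeplitz, by the rows. -/
theorem ph_expand {S : Type*} [CommRing S] (N : ℕ → ℕ → S) (W : ℕ → S) {n : ℕ}
    (a b : Fin n → ℕ) :
    Pot.minor (fun i j => ∑ l ∈ Finset.range (i + 1), W (i - l) * N l j) a b =
      ∑ κ ∈ Fintype.piFinset fun i => Finset.range (a i + 1),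
        (∏ i, W (a i - κ i)) * Pot.minor N κ b := by
  classical
  have h1 : Pot.minor (fun i j => ∑ l ∈ Finset.range (i + 1), W (i - l) * N l j) a b =
      (Matrix.detRowAlternating (n := Fin n) (R := S)).toMultilinearMap
        (fun i => ∑ l ∈ Finset.range (a i + 1), W (a i - l) • fun j => N l (b j)) := by
    show Matrix.det _ = Matrix.det _
    congr 1
    ext i j
    show ∑ l ∈ Finset.range (a i + 1), W (a i - l) * N l (b j) =
      (∑ l ∈ Finset.range (a i + 1), W (a i - l) • fun j => N l (b j)) j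
    rw [Finset.sum_apply]
    rfl
  rw [h1, MultilinearMap.map_sum_finset]
  refine Finset.sum_congr rfl fun κ _ => ?_
  rw [MultilinearMap.map_smul_univ (Matrix.detRowAlternating (n := Fin n) (R := S)).toMultilinearMap
    (fun i => W (a i - κ i)) (fun i j => N (κ i) (b j)), smul_eq_mul]
  rfl

theorem ph_le {p : ℕ} [Fact p.Prime] {k l : ℕ} {P : ℤ_[p][X]} (hkl : k ≤ l)
    (h : C ((p : ℤ_[p]) ^ l) ∣ P) : C ((p : ℤ_[p]) ^ k) ∣ P :=
  (_root_.map_dvd C (pow_dvd_pow _ hkl)).trans h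

theorem ph_ne {p : ℕ} [Fact p.Prime] (k : ℕ) : (C ((p : ℤ_[p]) ^ k) : ℤ_[p][X]) ≠ 0 := by
  rw [Ne, C_eq_zero]
  exact pow_ne_zero _ (by exact_mod_cast (Fact.out : p.Prime).ne_zero)

/-- One term. -/
theorem ph_term {p : ℕ} [Fact p.Prime] {n B : ℕ} {g : ℕ → ℕ} (W : ℕ → ℤ_[p][X])
    (N : ℕ → ℕ → ℤ_[p][X]) (κ a : Fin n → ℕ)
    (hg : ∀ i, g (κ i) ≤ g (a i))
    (hW : ∀ i, C ((p : ℤ_[p]) ^ (g (a i) - g (κ i))) ∣ W (a i - κ i))
    (hN : C ((p : ℤ_[p]) ^ (B + ∑ i, g (κ i))) ∣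
      C ((p : ℤ_[p]) ^ ∑ i, g (a i)) * Pot.minor N κ a) :
    C ((p : ℤ_[p]) ^ B) ∣ (∏ i, W (a i - κ i)) * Pot.minor N κ a := by
  have h1 : C ((p : ℤ_[p]) ^ ∑ i, (g (a i) - g (κ i))) ∣ ∏ i, W (a i - κ i) := by
    rw [← Finset.prod_pow_eq_pow_sum, map_prod]
    exact Finset.prod_dvd_prod_of_dvd _ _ fun i _ => hW i
  have h2 : ∑ i, g (a i) = ∑ i, g (κ i) + ∑ i, (g (a i) - g (κ i)) := by
    rw [← Finset.sum_add_distrib]
    refine Finset.sum_congr rfl fun i _ => ?_
    have := hg i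
    omega
  rw [h2, add_comm B, pow_add, pow_add, map_mul, map_mul, mul_assoc] at hN
  have h3 := (mul_dvd_mul_iff_left (ph_ne _)).1 hN
  exact h3.trans (mul_dvd_mul_right h1 _)

/-- The growth of `W`, slope `1/2`. -/
theorem ph_grow (l j : ℕ) (hl : 1 ≤ l) (hj : 1 ≤ j) :
    (l + 1) / 2 + padicValNat 5 j.factorial ≤ max j (MatU.phD 6 (5 * l)) := by
  have h5 : Fact (Nat.Prime 5) := ⟨by norm_num⟩
  have h1 := sub_one_mul_padicValNat_factorial_lt_of_ne_zero 5 (n := j) (by omega)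
  generalize padicValNat 5 j.factorial = v at h1 ⊢
  unfold MatU.phD
  rcases le_total j ((5 * l + 6 - 1) / 6) with h | h
  · rw [max_eq_right h]
    omega
  · rw [max_eq_left h]
    omega

/-- GN-A. -/
theorem spPhalf : SpPhalf := by
  intro p _ P hp hd he hWk hSt N W hN hL hW0 hW
  subst hp
  have hgm : ∀ ε i, P.gm ε i = (i + 1 + ε) / 2 := by
    intro ε i
    unfold LM.Par.gm
    rw [he, one_mul]
  have hW1 : ∀ l, C (((5 : ℕ) : ℤ_[5]) ^ ((l + 1) / 2)) ∣ W l := by
    intro l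
    rcases Nat.eq_zero_or_pos l with rfl | hl
    · simp
    · refine hW l _ hl fun j hj => ?_
      rw [hd]
      exact ph_grow l j hl hj
  intro n a ha
  constructor
  · rw [ph_expand]
    refine Finset.dvd_sum fun κ hκ => ?_
    rw [Fintype.mem_piFinset] at hκ
    refine ph_term (g := P.gm 0) W N κ a (fun i => ?_) (fun i => ?_) ?_
    · have := Finset.mem_range.1 (hκ i)
      rw [hgm, hgm]
      omega
    · have := Finset.mem_range.1 (hκ i)
      refine ph_le ?_ (hW1 _)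
      rw [hgm, hgm]
      omega
    · exact hWk N hN hL 0 (by norm_num) n κ a
  · intro hr hi
    rw [ph_expand]
    refine Finset.dvd_sum fun κ hκ => ?_
    rw [Fintype.mem_piFinset] at hκ
    refine ph_term (g := P.gm ((n + 1) % 2)) W N κ a (fun i => ?_) (fun i => ?_) ?_
    · have := Finset.mem_range.1 (hκ i)
      rw [hgm, hgm]
      omega
    · have := Finset.mem_range.1 (hκ i)
      refine ph_le ?_ (hW1 _)
      rw [hgm, hgm]
      omega
    · exact hSt N hN hL n κ a hr hi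

end GH.Trop
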