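import Pool.Agent.GH.Trop.StmN

/-!
# GH-TROPN: the function `PP5`, the closed form of `BLN` for `(5, 2)`
-/

noncomputable section

namespace GH.Trop

open GH.CombU

/-! ### The function `PP5` -/

theorem n_pp5_nonneg (x : ℤ) : 0 ≤ PP5 x := by
  unfold PP5
  exact Finset.sum_nonneg fun r _ ↦ le_max_left _ _

theorem n_pp5_mono {x y : ℤ} (h : x ≤ y) : PP5 x ≤ PP5 y := by
  unfold PP5
  refine Finset.sum_le_sum fun r _ ↦ ?_
  have h1 : (x - 6 * (r : ℤ) + 4) / 5 ≤ (y - 6 * (r : ℤ) + 4) / 5 := by omega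
  exact max_le_max le_rfl h1

theorem n_pp5_nonpos {x : ℤ} (h : x ≤ 0) : PP5 x = 0 := by
  unfold PP5
  refine Finset.sum_eq_zero fun r _ ↦ ?_
  have h1 : (x - 6 * (r : ℤ) + 4) / 5 ≤ 0 := by
    have h2 : (0 : ℤ) ≤ r := Int.natCast_nonneg r
    omega
  exact max_eq_left h1

theorem n_pp5_lin {x : ℤ} (h : 20 ≤ x) : PP5 x = x - 10 := by
  unfold PP5
  simp only [Finset.sum_range_succ, Finset.sum_range_zero]
  push_cast
  omega

theorem spPP5 : SpPP5 := ⟨fun _ h ↦ n_pp5_lin h, n_pp5_nonneg, fun _ _ h ↦ n_pp5_mono h⟩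

/-! ### The numbers `q0` and `e` -/

theorem spE5 : SpE5 := by
  intro i n hi hn
  refine ⟨((4 * (n : ℤ) - D5 i + 4) / 30).toNat,
    4 * (n : ℤ) - D5 i - 30 * ((4 * (n : ℤ) - D5 i + 4) / 30).toNat, ?_⟩
  have h : D5 i = 6 ∨ D5 i = 4 := by
    rcases hi with rfl | rfl
    · exact Or.inl rfl
    · exact Or.inr rfl
  rcases h with h | h <;> rw [h] <;>
  · refine ⟨by ring, ?_, ?_, ?_⟩ <;> omega

/-! ### The closed form of `BLN` -/

/-- The layers of `TLN`. -/
theorem n_pp5_layer (i : ℕ) (hi : i = 2 ∨ i = 3) (n k : ℕ) :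
    (((Finset.range (ZLN n)).filter fun m ↦ k < TLN i n m).card : ℤ) =
      max 0 ((4 * (n : ℤ) - D5 i - 6 * (k : ℤ) + 4) / 5) := by
  rcases hi with rfl | rfl
  · have h1 : ((Finset.range (ZLN n)).filter fun m ↦ k < TLN 2 n m) =
        Finset.Ico ((n + k + 6) / 5) (n - k) := by
      ext m
      rw [Finset.mem_filter, Finset.mem_range, Finset.mem_Ico]
      simp only [TLN, ZLN, tLN, cenLN]
      norm_num only [if_true, if_false]
      omega
    rw [h1, Nat.card_Ico]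
    have h2 : D5 2 = 6 := rfl
    rw [h2]
    omega
  · have h1 : ((Finset.range (ZLN n)).filter fun m ↦ k < TLN 3 n m) =
        Finset.Ico ((n + k + 4) / 5) (n - k) := by
      ext m
      rw [Finset.mem_filter, Finset.mem_range, Finset.mem_Ico]
      simp only [TLN, ZLN, tLN, cenLN]
      norm_num only [if_true, if_false]
      omega
    rw [h1, Nat.card_Ico]
    have h2 : D5 3 = 4 := rfl
    rw [h2]
    omega

theorem n_pp5_T_le (i n m : ℕ) : TLN i n m ≤ n := by
  unfold TLN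
  exact (Nat.min_le_left _ _).trans (Nat.sub_le _ _)

theorem n_pp5_B (i : ℕ) (hi : i = 2 ∨ i = 3) (n N : ℕ) (hN : n ≤ N) : (BLN i n : ℤ) =
    ∑ k ∈ Finset.range N, max 0 ((4 * (n : ℤ) - D5 i - 6 * (k : ℤ) + 4) / 5) := by
  have h1 : ∀ m, (TLN i n m : ℤ) = ∑ k ∈ Finset.range N, if k < TLN i n m then (1 : ℤ) else 0 := by
    intro m
    rw [← Finset.sum_filter, Finset.sum_const, nsmul_eq_mul, mul_one]
    have h2 : ((Finset.range N).filter fun k ↦ k < TLN i n m) = Finset.range (TLN i n m) := by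
      ext k
      rw [Finset.mem_filter, Finset.mem_range, Finset.mem_range]
      have := n_pp5_T_le i n m
      omega
    rw [h2, Finset.card_range]
  unfold BLN
  push_cast
  rw [Finset.sum_congr rfl fun m _ ↦ h1 m, Finset.sum_comm]
  refine Finset.sum_congr rfl fun k _ ↦ ?_
  rw [← n_pp5_layer i hi n k, ← Finset.sum_filter, Finset.sum_const, nsmul_eq_mul, mul_one]

/-- Blocks of length 5. -/
theorem n_pp5_blocks (X : ℤ) (Q : ℕ) :
    ∑ i ∈ Finset.range (5 * Q), max 0 ((X - 6 * (i : ℤ) + 4) / 5) =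
      ∑ q ∈ Finset.range Q, PP5 (X - 30 * (q : ℤ)) := by
  induction Q with
  | zero => simp
  | succ Q ih =>
      rw [Finset.sum_range_succ, ← ih, show 5 * (Q + 1) = 5 * Q + 5 by ring,
        Finset.sum_range_add]
      congr 1
      unfold PP5
      refine Finset.sum_congr rfl fun r _ ↦ ?_
      have e : X - 6 * ((5 * Q + r : ℕ) : ℤ) + 4 = X - 30 * (Q : ℤ) - 6 * (r : ℤ) + 4 := by
        push_cast
        ring
      rw [e]

theorem spB5 : SpB5 := by
  intro i n q0 e hi he h1 h2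
  have h3 := n_pp5_B i hi n (5 * (q0 + 1 + n)) (by omega)
  rw [h3, n_pp5_blocks, Finset.sum_range_add, Finset.sum_range_succ, he]
  have h4 : ∑ x ∈ Finset.range n, PP5 (30 * (q0 : ℤ) + e - 30 * ((q0 + 1 + x : ℕ) : ℤ)) = 0 := by
    refine Finset.sum_eq_zero fun x _ ↦ n_pp5_nonpos ?_
    push_cast
    omega
  have h5 : ∑ x ∈ Finset.range q0, PP5 (30 * (q0 : ℤ) + e - 30 * (x : ℤ)) =
      ∑ q ∈ Finset.range q0, (e + 30 * ((q0 : ℤ) - q) - 10) := by
    refine Finset.sum_congr rfl fun q hq ↦ ?_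
    have h6 : q < q0 := Finset.mem_range.1 hq
    rw [n_pp5_lin (by omega)]
    ring
  rw [h4, h5, add_zero]
  congr 2
  ring

end GH.Trop
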