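import Mathlib

/-!
# Root dominance by potentials: the digits lemma

Paper: note 5306 (3a), note 5316 on MP_370013_nt. `eps p w s q = max_(V ≤ w) (V - s - (q mod p^V))`
(truncated at zero). The number of carries of `q + a` is at least `eps (q + a) - eps q`.
-/

namespace GH.Trop

/-- `max_(V ≤ w) (V - s - (q mod p^V))`, truncated at zero. -/
def eps (p w s q : ℕ) : ℕ := (Finset.range (w + 1)).sup fun V ↦ V - s - q % p ^ V

theorem le_eps {p w s q V : ℕ} (hV : V ≤ w) : V - s - q % p ^ V ≤ eps p w s q :=
  Finset.le_sup (f := fun V ↦ V - s - q % p ^ V) (Finset.mem_range.2 (by omega))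

/-- The carries of `q + a` in the positions `1, …, V`. -/
def carr (p q a V : ℕ) : ℕ :=
  ((Finset.range V).filter fun i ↦ (q + a) % p ^ (i + 1) < q % p ^ (i + 1)).card

theorem carr_succ (p q a V : ℕ) : carr p q a (V + 1) =
    carr p q a V + if (q + a) % p ^ (V + 1) < q % p ^ (V + 1) then 1 else 0 := by
  unfold carr
  rw [Finset.range_add_one, Finset.filter_insert]
  split_ifs with h
  · rw [Finset.card_insert_of_notMem (by simp)]
  · rfl

theorem carry_iff {p q a i : ℕ} (hp : 0 < p) :
    (q + a) % p ^ i < q % p ^ i ↔ p ^ i ≤ q % p ^ i + a % p ^ i := by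
  have h1 := Nat.mod_lt q (pow_pos hp i)
  have h2 := Nat.mod_lt a (pow_pos hp i)
  rw [Nat.add_mod]
  generalize q % p ^ i = x at *
  generalize a % p ^ i = y at *
  rcases lt_or_ge (x + y) (p ^ i) with h | h
  · rw [Nat.mod_eq_of_lt h]
    omega
  · have h3 : (x + y) % p ^ i = x + y - p ^ i := by
      rw [Nat.mod_eq_sub_mod h, Nat.mod_eq_of_lt (by omega)]
    rw [h3]
    omega

theorem carr_le_val {p : ℕ} [hp : Fact p.Prime] (q a V : ℕ) :
    carr p q a V ≤ padicValNat p ((q + a).choose q) := by
  obtain ⟨b, hb1, hb2⟩ : ∃ b, Nat.log p (a + q) < b ∧ V < b :=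
    ⟨max (Nat.log p (a + q)) V + 1, by omega, by omega⟩
  have h := padicValNat_choose' (p := p) (n := a) (k := q) hb1
  have e1 : (q + a).choose q = (a + q).choose q := by rw [add_comm]
  rw [e1, h]
  unfold carr
  apply Finset.card_le_card_of_injOn (fun i ↦ i + 1)
  · intro i hi
    simp only [Finset.coe_filter, Finset.mem_range, Set.mem_ofPred_eq, Finset.mem_Ico] at hi ⊢
    refine ⟨by omega, ?_⟩
    rw [← carry_iff hp.out.pos]
    exact hi.2
  · intro i _ j _ hij
    simpa using hij

theorem eps_step {p w s q a : ℕ} (V : ℕ) (hV : V ≤ w) :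
    V - s - (q + a) % p ^ V ≤ eps p w s q + carr p q a V := by
  induction V with
  | zero => simp
  | succ V ih =>
    have h1 := ih (by omega)
    rw [carr_succ]
    split_ifs with h
    · have h2 : (q + a) % p ^ V ≤ (q + a) % p ^ (V + 1) := by
        have h3 : (q + a) % p ^ V = (q + a) % p ^ (V + 1) % p ^ V := by
          rw [Nat.mod_mod_of_dvd _ (pow_dvd_pow p (Nat.le_succ V))]
        rw [h3]
        exact Nat.mod_le _ _
      omega
    · have h2 := le_eps (p := p) (s := s) (q := q) hV
      omega

/-- The digits lemma. -/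
theorem eps_le {p : ℕ} [hp : Fact p.Prime] (w s q a : ℕ) :
    eps p w s (q + a) ≤ eps p w s q + padicValNat p ((q + a).choose q) := by
  unfold eps
  rw [Finset.sup_le_iff]
  intro V hV
  have h1 := eps_step (p := p) (w := w) (s := s) (q := q) (a := a) V
    (by have := Finset.mem_range.1 hV; omega)
  have h2 := carr_le_val (p := p) q a V
  unfold eps at h1
  omega

/-- The valuation of a binomial coefficient and of the coefficient of the quotients by `p`. -/
theorem choose_div_le {p : ℕ} [hp : Fact p.Prime] (m a : ℕ) :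
    padicValNat p (((m + a) / p).choose (m / p)) ≤ padicValNat p ((m + a).choose m) := by
  have hp0 := hp.out.pos
  obtain ⟨c, hc⟩ : ∃ c, (m + a) / p = m / p + c :=
    ⟨(m + a) / p - m / p, by have := Nat.div_le_div_right (c := p) (Nat.le_add_right m a); omega⟩
  rw [hc]
  obtain ⟨b, hb1, hb2⟩ : ∃ b, Nat.log p (c + m / p) < b ∧ Nat.log p (a + m) < b + 1 :=
    ⟨max (Nat.log p (c + m / p)) (Nat.log p (a + m)) + 1, by omega, by omega⟩
  have h := padicValNat_choose' (p := p) (n := c) (k := m / p) hb1
  have h' := padicValNat_choose' (p := p) (n := a) (k := m) hb2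
  have e1 : (m / p + c).choose (m / p) = (c + m / p).choose (m / p) := by rw [add_comm]
  have e2 : (m + a).choose m = (a + m).choose m := by rw [add_comm]
  rw [e1, e2, h, h']
  apply Finset.card_le_card_of_injOn (fun i ↦ i + 1)
  · intro i hi
    simp only [Finset.coe_filter, Finset.mem_Ico, Set.mem_ofPred_eq] at hi ⊢
    refine ⟨by omega, ?_⟩
    rw [← carry_iff hp0] at hi ⊢
    rw [← hc] at hi
    have h1 : ∀ x : ℕ, x % p ^ (i + 1) = p * (x / p % p ^ i) + x % p := by
      intro x
      rw [pow_succ', Nat.mod_mul]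
      ring
    rw [h1, h1]
    have h2 := Nat.mod_lt (m + a) hp0
    have h3 : p * ((m + a) / p % p ^ i) + p ≤ p * (m / p % p ^ i) := by
      have := Nat.mul_le_mul_left p (show (m + a) / p % p ^ i + 1 ≤ m / p % p ^ i from hi.2)
      rw [Nat.mul_add, Nat.mul_one] at this
      exact this
    omega
  · intro i _ j _ hij
    simpa using hij

/-- Validity of the block potentials. -/
theorem eps_div_le {p : ℕ} [hp : Fact p.Prime] (w s m a : ℕ) :
    eps p w s ((m + a) / p) ≤ eps p w s (m / p) + padicValNat p ((m + a).choose m) := by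
  obtain ⟨c, hc⟩ : ∃ c, (m + a) / p = m / p + c :=
    ⟨(m + a) / p - m / p, by have := Nat.div_le_div_right (c := p) (Nat.le_add_right m a); omega⟩
  have h1 := eps_le (p := p) w s (m / p) c
  have h2 := choose_div_le (p := p) m a
  rw [hc] at h2 ⊢
  omega

/-- Validity of `min (v m) W`, `v 0 = ∞`. -/
theorem val_le {p : ℕ} [hp : Fact p.Prime] (W m a : ℕ) (hm : 0 < m) :
    min (padicValNat p (m + a)) W ≤
      min (padicValNat p m) W + padicValNat p ((m + a).choose m) := by
  obtain ⟨k, rfl⟩ : ∃ k, m = k + 1 := ⟨m - 1, by omega⟩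
  have h1 : (k + 1 + a) * (k + a).choose k = (k + 1 + a).choose (k + 1) * (k + 1) := by
    have := Nat.add_one_mul_choose_eq (k + a) k
    have e1 : k + 1 + a = k + a + 1 := by ring
    rw [e1]
    exact this
  have h2 := congrArg (padicValNat p) h1
  have hc1 : (k + a).choose k ≠ 0 := (Nat.choose_pos (by omega)).ne'
  have hc2 : (k + 1 + a).choose (k + 1) ≠ 0 := (Nat.choose_pos (by omega)).ne'
  rw [padicValNat.mul (by omega) hc1, padicValNat.mul hc2 (by omega)] at h2
  omega

end GH.Trop
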