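import Pool.Agent.GH.Trop.Stm
import Pool.Agent.GH.Trop.Digits

/-!
# GH13-TROP-B1: carries
-/

noncomputable section

namespace GH.Trop

theorem dg_eq (p w s q : ℕ) : ep p w s q = eps p w s q := by
  unfold ep eps
  refine Finset.sup_congr rfl fun V _ => ?_
  rw [Nat.sub_sub]

theorem spEp' : SpEp := by
  intro p w s m a hp
  have : Fact p.Prime := ⟨hp⟩
  rw [dg_eq, dg_eq]
  exact eps_div_le w s m a

theorem spEm' : SpEm := by
  intro p J m a hp
  have : Fact p.Prime := ⟨hp⟩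
  refine le_trans ?_ (Nat.add_le_add_left (carr_le_val m a J) _)
  unfold em carr
  refine le_trans (Finset.card_le_card ?_) (Finset.card_union_le _ _)
  intro j hj
  rw [Finset.mem_filter] at hj
  rw [Finset.mem_union, Finset.mem_filter, Finset.mem_filter]
  by_cases h : p ^ (j + 1) ∣ m
  · exact Or.inl ⟨hj.1, h⟩
  · refine Or.inr ⟨hj.1, ?_⟩
    rw [Nat.mod_eq_zero_of_dvd hj.2]
    exact Nat.pos_of_ne_zero fun h0 => h (Nat.dvd_of_mod_eq_zero h0)

theorem spEp0' : SpEp0 := by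
  intro p w s q Q hp hQ hq hQs
  unfold ep
  refine Nat.le_zero.1 (Finset.sup_le fun V hV => ?_)
  rw [Finset.mem_range] at hV
  refine Nat.le_zero.2 (Nat.sub_eq_zero_of_le ?_)
  by_contra hlt
  push Not at hlt
  obtain ⟨c, hc⟩ : p ^ V ∣ Q := (pow_dvd_pow p (by omega)).trans hQ
  have h1 : V < p ^ V := Nat.lt_pow_self hp.one_lt
  obtain ⟨x, rfl⟩ : ∃ x, Q = q + x := ⟨Q - q, by omega⟩
  have h2 : (q + x) % p ^ V = 0 := by
    rw [hc]
    exact Nat.mul_mod_right _ _
  have h3 := Nat.mod_lt q (pow_pos hp.pos V)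
  rw [Nat.add_mod] at h2
  generalize q % p ^ V = e at h2 h3 hlt
  have h4 : x % p ^ V = x := Nat.mod_eq_of_lt (by omega)
  rw [h4] at h2
  have h6 := Nat.le_of_dvd (by omega) (Nat.dvd_of_mod_eq_zero h2)
  omega

end GH.Trop
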