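import Pool.Agent.GH.Trop.StmN

namespace GH.Trop

theorem spRt2 : SpRt2 := by
  have : Fact (Nat.Prime 3) := ⟨by norm_num⟩
  have hv : ∀ j : ℕ, 1 ≤ j → 2 * padicValNat 3 j.factorial + 1 ≤ j := by
    intro j hj
    have h := sub_one_mul_padicValNat_factorial_lt_of_ne_zero 3 (n := j) (by omega)
    omega
  refine ⟨⟨fun l j hl hj => ?_, fun l j hl hj => ?_⟩, ⟨fun l j hl hj => ?_, fun l j hl hj => ?_⟩⟩ <;>
  · have h := hv j hj
    unfold MatU.phD
    omega

end GH.Trop
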