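import Pool.Agent.GH.Trop.StmN

/-!
# GH-TROPN, row Q3: values of the potentials for `(3, 4)`
-/

noncomputable section

namespace GH.Trop

open GH.CombU

/-- one step of the sum -/
theorem s34_step (h1 : SpB34) (θ : ℕ → ℤ) (n : ℕ) :
    SS 3 4 θ (n + 1) - (BLN 1 (n + 1) : ℤ) = SS 3 4 θ n - (BLN 1 n : ℤ) +
      ((KK θ (3 * ((n : ℤ) + 1) - 4) : ℤ) - KK θ ((n : ℤ) + 1)) - ((n : ℤ) + 1) / 3 := by
  unfold SS
  rw [Finset.sum_range_succ, h1 n]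
  push_cast
  ring

theorem s34_zero (θ : ℕ → ℤ) : SS 3 4 θ 0 - (BLN 1 0 : ℤ) = 0 := by
  have h : BLN 1 0 = 0 := rfl
  rw [h]
  simp [SS]

/-- residues modulo six -/
theorem s34_mod (n : ℤ) : ∃ q : ℤ, n = 6 * q ∨ n = 6 * q + 1 ∨ n = 6 * q + 2 ∨ n = 6 * q + 3 ∨
    n = 6 * q + 4 ∨ n = 6 * q + 5 := ⟨n / 6, by omega⟩

/-- the values of the first potential, `x ≤ 2 a` -/
theorem s34_ka (h2 : SpThT) (a : ℕ) (x : ℤ) (h0 : 1 ≤ x) (hx : x ≤ 2 * a) :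
    (KK (thT 1 a) (3 * x - 4) : ℤ) = (3 * x - 2) / 6 ∧ (KK (thT 1 a) x : ℤ) = (x + 2) / 6 := by
  rw [(h2 1 a).2, (h2 1 a).2]
  have e1 : 3 * x - 4 - 1 + 3 = 3 * x - 2 := by ring
  have e2 : 3 * x - 4 - 1 + 5 = 3 * x := by ring
  have e3 : x - 1 + 3 = x + 2 := by ring
  have e4 : x - 1 + 5 = x + 4 := by ring
  rw [e1, e2, e3, e4]
  constructor <;> omega

/-- the values of the first potential, `x > 2 a` -/
theorem s34_kb (h2 : SpThT) (a : ℕ) (x : ℤ) (h0 : 1 ≤ x) (hx : 2 * (a : ℤ) < x) :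
    (KK (thT 1 a) (3 * x - 4) : ℤ) = x / 2 ∧
      (x ≤ 6 * a + 1 → (KK (thT 1 a) x : ℤ) = (x + 2) / 6) ∧
      (x = 6 * a + 2 → (KK (thT 1 a) x : ℤ) = a + 1) := by
  rw [(h2 1 a).2, (h2 1 a).2]
  have e1 : 3 * x - 4 - 1 + 3 = 3 * x - 2 := by ring
  have e2 : 3 * x - 4 - 1 + 5 = 3 * x := by ring
  have e3 : x - 1 + 3 = x + 2 := by ring
  have e4 : x - 1 + 5 = x + 4 := by ring
  rw [e1, e2, e3, e4]
  refine ⟨?_, fun h => ?_, fun h => ?_⟩ <;> omega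

/-- the values of the second potential, `x ≤ 2 a + 1` -/
theorem s34_kc (h2 : SpThT) (a : ℕ) (x : ℤ) (h0 : 2 ≤ x) (hx : x ≤ 2 * a + 1) :
    (KK (thT 4 a) (3 * x - 4) : ℤ) = (3 * x - 5) / 6 ∧ (KK (thT 4 a) x : ℤ) = (x - 1) / 6 := by
  rw [(h2 4 a).2, (h2 4 a).2]
  have e1 : 3 * x - 4 - 4 + 3 = 3 * x - 5 := by ring
  have e2 : 3 * x - 4 - 4 + 5 = 3 * x - 3 := by ring
  have e3 : x - 4 + 3 = x - 1 := by ring
  have e4 : x - 4 + 5 = x + 1 := by ring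
  rw [e1, e2, e3, e4]
  constructor <;> omega

/-- the values of the second potential at `1` -/
theorem s34_k1 (h2 : SpThT) (a : ℕ) :
    (KK (thT 4 a) (3 * 1 - 4) : ℤ) = 0 ∧ (KK (thT 4 a) 1 : ℤ) = 0 := by
  rw [(h2 4 a).2, (h2 4 a).2]
  constructor <;> omega

/-- the values of the second potential, `x > 2 a + 1` -/
theorem s34_kd (h2 : SpThT) (a : ℕ) (x : ℤ) (hx : 2 * (a : ℤ) + 1 < x) :
    (KK (thT 4 a) (3 * x - 4) : ℤ) = (x - 1) / 2 ∧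
      (x ≤ 6 * a + 4 → (KK (thT 4 a) x : ℤ) = (x - 1) / 6) ∧
      (x = 6 * a + 5 → (KK (thT 4 a) x : ℤ) = a + 1) := by
  rw [(h2 4 a).2, (h2 4 a).2]
  have e1 : 3 * x - 4 - 4 + 3 = 3 * x - 5 := by ring
  have e2 : 3 * x - 4 - 4 + 5 = 3 * x - 3 := by ring
  have e3 : x - 4 + 3 = x - 1 := by ring
  have e4 : x - 4 + 5 = x + 1 := by ring
  rw [e1, e2, e3, e4]
  refine ⟨?_, fun h => ?_, fun h => ?_⟩ <;> omega

/-- first family, first range -/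
theorem s34_a (h1 : SpB34) (h2 : SpThT) (a : ℕ) : ∀ n : ℕ, n ≤ 2 * a →
    SS 3 4 (thT 1 a) n - (BLN 1 n : ℤ) = -(((n : ℤ) + 2) / 6) - (n : ℤ) / 6 := by
  intro n
  induction n with
  | zero =>
    intro _
    rw [s34_zero]
    rfl
  | succ n ih =>
    intro hn
    obtain ⟨h3, h4⟩ := s34_ka h2 a ((n : ℤ) + 1) (by omega) (by omega)
    rw [s34_step h1, ih (by omega), h3, h4]
    push_cast
    obtain ⟨q, hq⟩ := s34_mod n
    rcases hq with hq | hq | hq | hq | hq | hq <;> rw [hq] <;> omega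

/-- first family, second range -/
theorem s34_b (h1 : SpB34) (h2 : SpThT) (a : ℕ) : ∀ k : ℕ, k ≤ 4 * a + 1 →
    SS 3 4 (thT 1 a) (2 * a + k) - (BLN 1 (2 * a + k) : ℤ) =
      -((2 * (a : ℤ) + 2) / 6) - (2 * (a : ℤ)) / 6 + (2 * (a : ℤ) + k + 4) / 6 -
        (2 * (a : ℤ) + 4) / 6 := by
  intro k
  induction k with
  | zero =>
    intro _
    have h := s34_a h1 h2 a (2 * a) le_rfl
    push_cast at h
    rw [Nat.add_zero, h, Nat.cast_zero, add_zero]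
    ring
  | succ k ih =>
    intro hk
    obtain ⟨h3, h4, -⟩ := s34_kb h2 a (((2 * a + k : ℕ) : ℤ) + 1) (by omega) (by omega)
    rw [← Nat.add_assoc, s34_step h1, ih (by omega), h3, h4 (by omega)]
    have h5 : (((2 * a + k : ℕ) : ℤ)) = 2 * (a : ℤ) + k := by push_cast; ring
    have h6 : 2 * (a : ℤ) + ((k + 1 : ℕ) : ℤ) + 4 = 2 * (a : ℤ) + k + 5 := by push_cast; ring
    rw [h5, h6]
    obtain ⟨q, hq⟩ := s34_mod (2 * (a : ℤ) + k)
    have h7 : (2 * (a : ℤ) + k + 1) / 2 + (2 * (a : ℤ) + k + 4) / 6 =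
        (2 * (a : ℤ) + k + 5) / 6 + (2 * (a : ℤ) + k + 1 + 2) / 6 + (2 * (a : ℤ) + k + 1) / 3 := by
      rcases hq with hq | hq | hq | hq | hq | hq <;> rw [hq] <;> omega
    linarith

/-- second family, first range -/
theorem s34_c (h1 : SpB34) (h2 : SpThT) (a : ℕ) : ∀ n : ℕ, n ≤ 2 * a →
    SS 3 4 (thT 4 a) (n + 1) - (BLN 1 (n + 1) : ℤ) =
      1 - (((n : ℤ) + 4) / 6) - ((n : ℤ) + 6) / 6 := by
  intro n
  induction n with
  | zero =>
    intro _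
    obtain ⟨h3, h4⟩ := s34_k1 h2 a
    rw [s34_step h1, s34_zero, Nat.cast_zero, zero_add, zero_add, h3, h4]
    rfl
  | succ n ih =>
    intro hn
    obtain ⟨h3, h4⟩ := s34_kc h2 a (((n + 1 : ℕ) : ℤ) + 1) (by omega) (by omega)
    rw [s34_step h1, ih (by omega), h3, h4]
    push_cast
    obtain ⟨q, hq⟩ := s34_mod n
    rcases hq with hq | hq | hq | hq | hq | hq <;> rw [hq] <;> omega

/-- second family, second range -/
theorem s34_d (h1 : SpB34) (h2 : SpThT) (a : ℕ) : ∀ k : ℕ, k ≤ 4 * a + 3 →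
    SS 3 4 (thT 4 a) (2 * a + 1 + k) - (BLN 1 (2 * a + 1 + k) : ℤ) =
      1 - ((2 * (a : ℤ) + 4) / 6) - (2 * (a : ℤ) + 6) / 6 + (2 * (a : ℤ) + k + 2) / 6 -
        (2 * (a : ℤ) + 2) / 6 := by
  intro k
  induction k with
  | zero =>
    intro _
    have h := s34_c h1 h2 a (2 * a) le_rfl
    push_cast at h
    rw [Nat.add_zero, h, Nat.cast_zero, add_zero]
    ring
  | succ k ih =>
    intro hk
    obtain ⟨h3, h4, -⟩ := s34_kd h2 a (((2 * a + 1 + k : ℕ) : ℤ) + 1) (by omega)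
    rw [← Nat.add_assoc, s34_step h1, ih (by omega), h3, h4 (by omega)]
    have h5 : (((2 * a + 1 + k : ℕ) : ℤ)) = 2 * (a : ℤ) + k + 1 := by push_cast; ring
    have h6 : 2 * (a : ℤ) + ((k + 1 : ℕ) : ℤ) + 2 = 2 * (a : ℤ) + k + 3 := by push_cast; ring
    rw [h5, h6]
    obtain ⟨q, hq⟩ := s34_mod (2 * (a : ℤ) + k)
    have h7 : (2 * (a : ℤ) + k + 1 + 1 - 1) / 2 + (2 * (a : ℤ) + k + 2) / 6 =
        (2 * (a : ℤ) + k + 3) / 6 + (2 * (a : ℤ) + k + 1 + 1 - 1) / 6 +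
          (2 * (a : ℤ) + k + 1 + 1) / 3 := by
      rcases hq with hq | hq | hq | hq | hq | hq <;> rw [hq] <;> omega
    linarith

/-- GN-Q3 -/
theorem spS34 (h1 : SpB34) (h2 : SpThT) : SpS34 := by
  intro n hn
  have h34 : ∀ a : ℤ, (2 * a + 2) / 6 + (2 * a) / 6 + (2 * a + 4) / 6 = a := by
    intro a
    omega
  constructor
  · obtain ⟨a, ha⟩ : ∃ a, a = (n + 3) / 6 := ⟨_, rfl⟩
    rw [← ha]
    have hr : 6 * a ≤ n + 3 ∧ n + 3 < 6 * a + 6 := by omega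
    have h8 := h34 a
    rcases Nat.lt_or_ge n (6 * a + 2) with h | h
    · obtain ⟨k, rfl⟩ : ∃ k, n = 2 * a + k := ⟨n - 2 * a, by omega⟩
      have h3 := s34_b h1 h2 a k (by omega)
      have h9 : (2 * (a : ℤ) + k + 4) / 6 = a := by omega
      rw [h9] at h3
      linarith
    · obtain rfl : n = 2 * a + (4 * a + 1) + 1 := by omega
      have h3 := s34_b h1 h2 a (4 * a + 1) le_rfl
      have h4 := s34_step h1 (thT 1 a) (2 * a + (4 * a + 1))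
      obtain ⟨h5, -, h6⟩ := s34_kb h2 a (((2 * a + (4 * a + 1) : ℕ) : ℤ) + 1) (by omega) (by omega)
      rw [h3, h5, h6 (by omega)] at h4
      have h9 : (2 * (a : ℤ) + ((4 * a + 1 : ℕ) : ℤ) + 4) / 6 = a := by omega
      have h10 : (((2 * a + (4 * a + 1) : ℕ) : ℤ) + 1) / 2 = 3 * a + 1 := by omega
      have h11 : (((2 * a + (4 * a + 1) : ℕ) : ℤ) + 1) / 3 = 2 * a := by omega
      rw [h9, h10, h11] at h4
      linarith
  · obtain ⟨a, ha⟩ : ∃ a, a = n / 6 := ⟨_, rfl⟩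
    rw [← ha]
    have hr : 6 * a ≤ n ∧ n < 6 * a + 6 := by omega
    have h8 := h34 a
    have h12 : (2 * (a : ℤ) + 6) / 6 = (2 * (a : ℤ)) / 6 + 1 := by omega
    rcases Nat.lt_or_ge n (6 * a + 5) with h | h
    · rcases Nat.lt_or_ge n (2 * a + 1) with h0 | h0
      · exfalso
        omega
      obtain ⟨k, rfl⟩ : ∃ k, n = 2 * a + 1 + k := ⟨n - (2 * a + 1), by omega⟩
      have h3 := s34_d h1 h2 a k (by omega)
      have h9 : (2 * (a : ℤ) + k + 2) / 6 = a := by omega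
      rw [h9, h12] at h3
      linarith
    · obtain rfl : n = 2 * a + 1 + (4 * a + 3) + 1 := by omega
      have h3 := s34_d h1 h2 a (4 * a + 3) le_rfl
      have h4 := s34_step h1 (thT 4 a) (2 * a + 1 + (4 * a + 3))
      obtain ⟨h5, -, h6⟩ := s34_kd h2 a (((2 * a + 1 + (4 * a + 3) : ℕ) : ℤ) + 1) (by omega)
      rw [h3, h5, h6 (by omega)] at h4
      have h9 : (2 * (a : ℤ) + ((4 * a + 3 : ℕ) : ℤ) + 2) / 6 = a := by omega
      have h10 : (((2 * a + 1 + (4 * a + 3) : ℕ) : ℤ) + 1 - 1) / 2 = 3 * a + 2 := by omega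
      have h11 : (((2 * a + 1 + (4 * a + 3) : ℕ) : ℤ) + 1) / 3 = 2 * a + 1 := by omega
      rw [h9, h10, h11, h12] at h4
      linarith

end GH.Trop
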