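import Pool.Agent.GH.Trop.StmN
import Pool.Agent.GH.Trop.Pot

/-!
# GH-TROPN, row T: root dominance data for `(3, 2)`, linear thresholds
-/

noncomputable section

namespace GH.Trop

open GH.CombU

/-! ### The numbers of zeros -/

theorem t32_term (n m : ℕ) : TLN 0 (n + 2) (m + 2) =
    TLN 0 n m + if 2 * n / 3 + 1 ≤ m ∧ m < 2 * n + 2 then 1 else 0 := by
  simp only [TLN, tLN, cenLN, if_true]
  split_ifs <;> omega

theorem t32_two (n : ℕ) : BLN 0 (n + 2) = BLN 0 n + (4 * n + 5) / 3 := by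
  have h0 : TLN 0 (n + 2) 0 = 0 := by
    simp only [TLN, tLN, cenLN, if_true]
    omega
  have h1 : TLN 0 (n + 2) 1 = 0 := by
    simp only [TLN, tLN, cenLN, if_true]
    omega
  have h2 : TLN 0 n (2 * n + 2) = 0 := by
    simp only [TLN, tLN, cenLN, if_true]
    omega
  have h3 : TLN 0 n (2 * n + 3) = 0 := by
    simp only [TLN, tLN, cenLN, if_true]
    omega
  have h4 : BLN 0 (n + 2) = ∑ m ∈ Finset.range (2 * n + 4), TLN 0 (n + 2) (m + 2) := by
    unfold BLN ZLN
    rw [show 2 * (n + 2) + 2 = 2 * n + 4 + 1 + 1 by ring, Finset.sum_range_succ',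
      Finset.sum_range_succ']
    simp only [zero_add, h0, h1, add_zero]
  have h5 : BLN 0 n = ∑ m ∈ Finset.range (2 * n + 4), TLN 0 n m := by
    unfold BLN ZLN
    rw [show 2 * n + 4 = 2 * n + 2 + 1 + 1 by ring,
      Finset.sum_range_succ (fun m => TLN 0 n m) (2 * n + 2 + 1),
      Finset.sum_range_succ (fun m => TLN 0 n m) (2 * n + 2), h2,
      show 2 * n + 2 + 1 = 2 * n + 3 by ring, h3, add_zero, add_zero]
  have h6 : ∑ m ∈ Finset.range (2 * n + 4),
      (if 2 * n / 3 + 1 ≤ m ∧ m < 2 * n + 2 then 1 else 0) = 2 * n + 1 - 2 * n / 3 := by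
    rw [← Finset.sum_filter, Finset.sum_const, smul_eq_mul, mul_one]
    have h7 : (Finset.range (2 * n + 4)).filter
        (fun m => 2 * n / 3 + 1 ≤ m ∧ m < 2 * n + 2) = Finset.Ico (2 * n / 3 + 1) (2 * n + 2) := by
      ext m
      rw [Finset.mem_filter, Finset.mem_range, Finset.mem_Ico]
      omega
    rw [h7, Nat.card_Ico]
    omega
  rw [h4, Finset.sum_congr rfl fun m _ => t32_term n m, Finset.sum_add_distrib, ← h5, h6]
  omega

theorem t32_B (n : ℕ) : BLN 0 (n + 1) = BLN 0 n + 2 * (n + 1) / 3 := by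
  induction n with
  | zero => decide
  | succ n ih =>
      have h := t32_two n
      have e1 : (4 * n + 5) / 3 = 2 * (n + 1) / 3 + 2 * (n + 2) / 3 := by
        obtain ⟨q, r, hr, rfl⟩ : ∃ q r : ℕ, r < 3 ∧ n = 3 * q + r :=
          ⟨n / 3, n % 3, by omega, by omega⟩
        interval_cases r <;> omega
      rw [show n + 1 + 1 = n + 2 by ring, h, ih, e1]
      omega

theorem t32_B0 : BLN 0 0 = 0 := by decide

/-! ### The thresholds -/

/-- The linear thresholds. -/
def t32_th (m : ℕ) : ℤ := 3 * m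

theorem t32_Thr : Thr 3 2 t32_th := by
  intro m a
  have : Fact (Nat.Prime 3) := ⟨Nat.prime_three⟩
  have h1 := sub_one_mul_padicValNat_factorial (p := 3) a
  have h2 : 2 * padicValNat 3 a.factorial ≤ a := by
    rw [show 3 - 1 = 2 by norm_num] at h1
    omega
  unfold t32_th Lam
  omega

theorem t32_KK (x : ℤ) : (KK t32_th x : ℤ) = max 0 ((x + 2) / 3) := by
  have h := spKK 3 2 t32_th Nat.prime_three two_pos t32_Thr x
  have h1 : x ≤ 3 * (KK t32_th x : ℤ) := (h (KK t32_th x)).1 le_rfl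
  have h2 : KK t32_th x ≤ ((x + 2) / 3).toNat := by
    rw [h]
    unfold t32_th
    omega
  omega

theorem t32_SS (n : ℕ) : SS 3 2 t32_th n = BLN 0 n := by
  unfold SS
  induction n with
  | zero =>
      rw [Finset.sum_range_zero, t32_B0]
      rfl
  | succ n ih =>
      rw [Finset.sum_range_succ, ih, t32_B, t32_KK, t32_KK]
      push_cast
      omega

/-! ### The potentials -/

theorem t32_conv (n : ℕ) : 2 * BLN 0 (n + 1) ≤ BLN 0 n + BLN 0 (n + 2) := by
  have h1 := t32_B n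
  have h2 := t32_B (n + 1)
  rw [show n + 1 + 1 = n + 2 by ring] at h2
  omega

theorem t32_strict {n : ℕ} (h : 2 * BLN 0 (n + 1) < BLN 0 n + BLN 0 (n + 2)) :
    (n + 1) % 3 ≠ 0 := by
  have h1 := t32_B n
  have h2 := t32_B (n + 1)
  rw [show n + 1 + 1 = n + 2 by ring] at h2
  omega

theorem t32_KKr {x : ℤ} (hx : 1 ≤ x) : (KK t32_th (3 * x - 2) : ℤ) = x := by
  rw [t32_KK]
  omega

theorem sp32 : Sp32 := by
  refine ⟨t32_B, ⟨t32_B0, t32_conv⟩, fun ε hε => ?_, fun n hn => ?_, fun n hn => ?_,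
    fun n hn hv => ?_⟩
  · refine ⟨fun i => by omega, t32_B0, t32_conv, fun n k hk => ?_, fun n k hk => ?_⟩
    · refine ⟨t32_th, t32_Thr, (t32_SS _).ge, ?_⟩
      have h1 := t32_KKr (x := (n : ℤ) + 1) (by omega)
      have h2 := t32_KKr (x := (n : ℤ) + k + 1) (by omega)
      push_cast
      omega
    · refine ⟨t32_th, t32_Thr, (t32_SS _).ge, ?_⟩
      have h1 := t32_KK ((n : ℤ) + k + 1)
      have h2 := t32_KK ((n : ℤ) + 1)
      omega
  · refine ⟨t32_th, t32_Thr, (t32_SS _).ge, fun l hl => ?_, fun l hl => ?_⟩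
    · have h1 := t32_KK ((n : ℤ) + 1)
      have h2 := t32_KK ((l : ℤ) + 1)
      beta_reduce
      omega
    · have h0 := t32_strict hn
      have h1 := t32_KK ((n : ℤ) + 1)
      have h2 := t32_KK ((l : ℤ) + 1)
      beta_reduce
      omega
  · refine ⟨t32_th, t32_Thr, (t32_SS _).ge, fun y x hy hyn hnx => ?_⟩
    have h1 := t32_KKr (x := (y : ℤ)) (by omega)
    have h2 := t32_KKr (x := (x : ℤ)) (by omega)
    have h3 := t32_KK (x : ℤ)
    have h4 := t32_KK (y : ℤ)
    push_cast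
    omega
  · obtain ⟨m, rfl⟩ : ∃ m, n = m + 1 := ⟨n - 1, by omega⟩
    have h0 := t32_strict (n := m) (by
      rw [show m + 1 - 1 = m by omega] at hv
      exact hv)
    refine ⟨t32_th, t32_Thr, (t32_SS _).ge, fun k => ?_, fun y x hy hyn hnx => ?_⟩
    · unfold t32_th
      push_cast
      omega
    · have h1 := t32_KKr (x := (y : ℤ)) (by omega)
      have h2 := t32_KKr (x := (x : ℤ)) (by omega)
      have h3 := t32_KK (x : ℤ)
      have h4 := t32_KK (y : ℤ)
      push_cast
      omega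

end GH.Trop
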