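import Pool.Agent.GH.Trop.StmN
import Pool.Agent.GH.Trop.Pot

/-!
# GH-TROPN, row GN-Q2: the thresholds for `(3, 4)`
-/

noncomputable section

namespace GH.Trop

theorem n_thT_lam (a : ℕ) (ha : a ≠ 0) : 4 * (Lam 3 a : ℤ) ≤ 6 * a - 2 := by
  haveI : Fact (Nat.Prime 3) := ⟨Nat.prime_three⟩
  have h := sub_one_mul_padicValNat_factorial_lt_of_ne_zero 3 ha
  unfold Lam
  generalize padicValNat 3 a.factorial = v at h ⊢
  push_cast
  omega

theorem n_thT_thr (t : ℤ) (m0 : ℕ) : Thr 3 4 (thT t m0) := by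
  intro m a
  rcases Nat.eq_zero_or_pos a with rfl | ha
  · simp [Lam]
  · have h := n_thT_lam a ha.ne'
    unfold thT
    push_cast
    split_ifs <;> omega

theorem n_thT_val (t : ℤ) (m0 m : ℕ) :
    (m < m0 ∧ thT t m0 m = 6 * m + t + 2) ∨ (m0 ≤ m ∧ thT t m0 m = 6 * m + t) := by
  unfold thT
  rcases Nat.lt_or_ge m m0 with h | h
  · left
    exact ⟨h, by rw [if_pos h]⟩
  · right
    exact ⟨h, by rw [if_neg (not_lt.2 h), add_zero]⟩

/-- GN-Q2. -/
theorem spThT : SpThT := by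
  intro t m0
  refine ⟨n_thT_thr t m0, fun x => ?_⟩
  have hKK : ∀ m : ℕ, KK (thT t m0) x ≤ m ↔ x ≤ thT t m0 m :=
    spKK 3 4 (thT t m0) Nat.prime_three (by norm_num) (n_thT_thr t m0) x
  obtain ⟨M, hM⟩ : ∃ M : ℕ, (M : ℤ) = max 0 (min (m0 : ℤ) ((x - t + 3) / 6)) +
      max 0 ((x - t + 5) / 6 - m0) := by
    refine ⟨(max 0 (min (m0 : ℤ) ((x - t + 3) / 6)) + max 0 ((x - t + 5) / 6 - m0)).toNat, ?_⟩
    exact Int.toNat_of_nonneg (add_nonneg (le_max_left _ _) (le_max_left _ _))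
  rw [← hM]
  have h1 : KK (thT t m0) x ≤ M := by
    rw [hKK]
    rcases n_thT_val t m0 M with ⟨h, h2⟩ | ⟨h, h2⟩ <;> omega
  have h2 : M ≤ KK (thT t m0) x := by
    rcases Nat.eq_zero_or_pos M with h0 | h0
    · omega
    · by_contra hc
      have h3 : KK (thT t m0) x ≤ M - 1 := by omega
      rw [hKK] at h3
      rcases n_thT_val t m0 (M - 1) with ⟨h, h2⟩ | ⟨h, h2⟩ <;> omega
  exact_mod_cast le_antisymm h1 h2

end GH.Trop
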