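import Pool.Agent.GH.Trop.Stm

/-!
# GH13-TROP, rows S1 and S2: rows and columns
-/

namespace GH.Trop

open Finset

theorem rc_mono {p d : ℕ} {θ : ℕ → ℤ} (h : Thr p d θ) (m : ℕ) : θ 0 ≤ θ m := by
  have h1 := h 0 m
  rw [zero_add] at h1
  have h2 : (0 : ℤ) ≤ (d : ℤ) * Lam p m := by positivity
  omega

theorem rc_swap (n M : ℕ) (P : ℕ → ℕ → Prop) [∀ i m, Decidable (P i m)] :
    ∑ i ∈ range n, (((range M).filter fun m => P i m).card : ℤ) =
      ∑ m ∈ range M, (((range n).filter fun i => P i m).card : ℤ) := by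
  simp only [card_filter, Nat.cast_sum]
  exact sum_comm

theorem rc_row (p n : ℕ) (hp : 0 < p) (y : ℤ) (hy : 0 ≤ y) :
    max 0 ((p * n - y + (p - 1)) / (p : ℤ)) ≤
      (((range n).filter fun i : ℕ => y < p * ((i : ℤ) + 1)).card : ℤ) := by
  have hp' : (0 : ℤ) < p := by exact_mod_cast hp
  set q := y / (p : ℤ) with hq
  have hq0 : 0 ≤ q := Int.ediv_nonneg hy hp'.le
  have e1 := Int.mul_ediv_add_emod y p
  have e2 := Int.emod_nonneg y hp'.ne'
  have e3 := Int.emod_lt_of_pos y hp'
  have h1 : (p * n - y + (p - 1)) / (p : ℤ) = n - q := by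
    have e4 : (p : ℤ) * n - y + (p - 1) = (p - 1 - y % p) + p * (n - q) := by
      rw [mul_sub, hq]
      linarith
    rw [e4, Int.add_mul_ediv_left _ _ hp'.ne',
      Int.ediv_eq_zero_of_lt (by omega) (by omega), zero_add]
  rw [h1]
  have h2 : (Ico q.toNat n).card ≤
      ((range n).filter fun i : ℕ => y < p * ((i : ℤ) + 1)).card := by
    apply card_le_card
    intro i hi
    rw [mem_Ico] at hi
    rw [mem_filter, mem_range]
    refine ⟨hi.2, ?_⟩
    have h3 : q ≤ i := by omega
    have h4 : (p : ℤ) * q ≤ p * i := mul_le_mul_of_nonneg_left h3 hp'.le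
    rw [mul_add, mul_one]
    rw [← hq] at e1
    linarith
  rw [Nat.card_Ico] at h2
  have h3 : ((n - q.toNat : ℕ) : ℤ) ≤
      (((range n).filter fun i : ℕ => y < p * ((i : ℤ) + 1)).card : ℤ) := by exact_mod_cast h2
  refine le_trans ?_ h3
  omega

theorem rc_col (n : ℕ) (t : ℤ) :
    (((range n).filter fun i : ℕ => t < (i : ℤ) + 1).card : ℤ) ≤ max 0 (n - t) := by
  have h1 : ((range n).filter fun i : ℕ => t < (i : ℤ) + 1).card ≤ (Ico t.toNat n).card := by
    apply card_le_card
    intro i hi
    rw [mem_filter, mem_range] at hi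
    rw [mem_Ico]
    omega
  rw [Nat.card_Ico] at h1
  have h2 : (((range n).filter fun i : ℕ => t < (i : ℤ) + 1).card : ℤ) ≤
      ((n - t.toNat : ℕ) : ℤ) := by exact_mod_cast h1
  refine le_trans h2 ?_
  omega

theorem spRows (h : SpKK) : SpRows := by
  intro p d n M D θ hp hd hT h0
  have hK := h p d θ hp hd hT
  have h1 : ∀ i ∈ range n,
      (((range M).filter fun m => θ m < p * ((i : ℤ) + 1) - D).card : ℤ) ≤
        (KK θ (p * ((i : ℤ) + 1) - D) : ℤ) := by
    intro i _
    have h2 : ((range M).filter fun m => θ m < p * ((i : ℤ) + 1) - D).card ≤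
        (range (KK θ (p * ((i : ℤ) + 1) - D))).card := by
      apply card_le_card
      intro m hm
      rw [mem_filter] at hm
      rw [mem_range]
      by_contra h3
      have h4 := (hK _ m).1 (not_lt.1 h3)
      exact absurd hm.2 (not_lt.2 h4)
    rw [card_range] at h2
    exact_mod_cast h2
  refine le_trans ?_ (sum_le_sum h1)
  rw [rc_swap n M fun i m => θ m < p * ((i : ℤ) + 1) - D]
  refine sum_le_sum fun m _ => ?_
  have h2 := rc_row p n hp.pos (D + θ m) (by have := rc_mono hT m; omega)
  have e1 : (p : ℤ) * n - D - θ m + (p - 1) = p * n - (D + θ m) + (p - 1) := by ring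
  rw [e1]
  refine le_trans h2 (le_of_eq ?_)
  have e2 : ((range n).filter fun i : ℕ => D + θ m < p * ((i : ℤ) + 1)) =
      (range n).filter fun i : ℕ => θ m < p * ((i : ℤ) + 1) - D := by
    refine filter_congr fun i _ => ?_
    constructor <;> intro h3 <;> linarith
  rw [e2]

theorem spCols (h : SpKK) : SpCols := by
  intro p d n M θ hp hd hT hM
  have hK := h p d θ hp hd hT
  have h1 : ∀ i ∈ range n, (KK θ ((i : ℤ) + 1) : ℤ) ≤
      (((range M).filter fun m => θ m < (i : ℤ) + 1).card : ℤ) := by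
    intro i hi
    rw [mem_range] at hi
    have h2 : (range (KK θ ((i : ℤ) + 1))).card ≤
        ((range M).filter fun m => θ m < (i : ℤ) + 1).card := by
      apply card_le_card
      intro m hm
      rw [mem_range] at hm
      rw [mem_filter, mem_range]
      constructor
      · refine lt_of_lt_of_le hm ((hK _ M).2 ?_)
        omega
      · by_contra h3
        have h4 := (hK _ m).2 (not_lt.1 h3)
        omega
    rw [card_range] at h2
    exact_mod_cast h2
  refine le_trans (sum_le_sum h1) ?_
  rw [rc_swap n M fun i m => θ m < (i : ℤ) + 1]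
  exact sum_le_sum fun m _ => rc_col n (θ m)

end GH.Trop
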