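import Pool.Agent.GH.Trop.Stm

/-!
# GH13-TROP-B: the block identity and the choice of the block
-/

noncomputable section

namespace GH.Trop

theorem sums_range_mul (f : ℕ → ℕ) (a b : ℕ) :
    ∑ q ∈ Finset.range (a * b), f q =
      ∑ i ∈ Finset.range a, ∑ j ∈ Finset.range b, f (b * i + j) := by
  induction a with
  | zero => simp
  | succ a ih =>
    rw [Nat.succ_mul, Finset.sum_range_add, ih, Finset.sum_range_succ, Nat.mul_comm a b]

theorem sums_ep_period (p w s Q i j : ℕ) (hQ : p ^ w ∣ Q) :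
    ep p w s (Q * i + j) = ep p w s j := by
  refine Finset.sup_congr rfl fun V hV ↦ ?_
  have hV' : V ≤ w := by
    rw [Finset.mem_range] at hV
    omega
  obtain ⟨c, rfl⟩ := (pow_dvd_pow p hV').trans hQ
  rw [mul_assoc, Nat.mul_add_mod]

theorem spEpSum : SpEpSum := by
  intro p w s Q hp hQ
  rw [pow_succ] at hQ
  obtain ⟨c, rfl⟩ := hQ
  have h1 : p ^ w * p * c = p * (p ^ w * c) := by ring
  have h2 : p ^ w * p * c = (p ^ w * c) * p := by ring
  have h3 : ∑ q ∈ Finset.range (p ^ w * p * c), ep p w s q =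
      p * ∑ q ∈ Finset.range (p ^ w * c), ep p w s q := by
    rw [h1, sums_range_mul]
    have h4 : ∀ i ∈ Finset.range p, ∑ j ∈ Finset.range (p ^ w * c),
        ep p w s (p ^ w * c * i + j) = ∑ j ∈ Finset.range (p ^ w * c), ep p w s j := by
      intro i _
      exact Finset.sum_congr rfl fun j _ ↦ sums_ep_period p w s _ i j (dvd_mul_right _ _)
    rw [Finset.sum_congr rfl h4, Finset.sum_const, Finset.card_range, smul_eq_mul]
  have h5 : ∑ m ∈ Finset.range (p ^ w * p * c), ep p w s (m / p) =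
      p * ∑ q ∈ Finset.range (p ^ w * c), ep p w s q := by
    rw [h2, sums_range_mul (fun m ↦ ep p w s (m / p)), Finset.mul_sum]
    refine Finset.sum_congr rfl fun i _ ↦ ?_
    have h4 : ∀ j ∈ Finset.range p, ep p w s ((p * i + j) / p) = ep p w s i := by
      intro j hj
      rw [Nat.mul_add_div hp.pos, Nat.div_eq_of_lt (Finset.mem_range.1 hj), add_zero]
    rw [Finset.sum_congr rfl h4, Finset.sum_const, Finset.card_range, smul_eq_mul]
  rw [h3, h5]

theorem sums_fac (a m : ℕ) : padicValNat 13 (a + m).factorial =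
    padicValNat 13 a.factorial + ∑ i ∈ Finset.range m, padicValNat 13 (a + i + 1) := by
  induction m with
  | zero => simp
  | succ m ih =>
    rw [← add_assoc, Nat.factorial_succ, padicValNat.mul (by omega) (Nat.factorial_ne_zero _),
      ih, Finset.sum_range_succ]
    omega

theorem sums_fac0 (m : ℕ) : padicValNat 13 m.factorial =
    ∑ i ∈ Finset.range m, padicValNat 13 (i + 1) := by
  have h := sums_fac 0 m
  rw [zero_add, Nat.factorial_zero, padicValNat_one_right, zero_add] at h
  rw [h]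
  exact Finset.sum_congr rfl fun i _ ↦ by rw [zero_add]

theorem sums_le (n : ℕ) : 12 * padicValNat 13 n.factorial ≤ n := by
  have h := sub_one_mul_padicValNat_factorial (p := 13) n
  norm_num at h
  omega

/-- The valuation of a difference. -/
theorem sums_val {x y : ℕ} (hy : y ≠ 0) (h : padicValNat 13 x ≤ padicValNat 13 (x + y)) :
    padicValNat 13 x ≤ padicValNat 13 y := by
  rcases Nat.eq_zero_or_pos x with rfl | hx
  · simp
  · rw [← padicValNat_dvd_iff_le hy]
    have h1 : 13 ^ padicValNat 13 x ∣ x + y :=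
      (pow_dvd_pow 13 h).trans pow_padicValNat_dvd
    exact (Nat.dvd_add_right pow_padicValNat_dvd).1 h1

theorem sums_val2 {x y : ℕ} (hy : y ≠ 0) (h : padicValNat 13 (x + y) ≤ padicValNat 13 x) :
    padicValNat 13 (x + y) ≤ padicValNat 13 y := by
  rw [← padicValNat_dvd_iff_le hy]
  have h1 : 13 ^ padicValNat 13 (x + y) ∣ x := (pow_dvd_pow 13 h).trans pow_padicValNat_dvd
  exact (Nat.dvd_add_right h1).1 pow_padicValNat_dvd

theorem spChoice : SpChoice := by
  intro q0 q hq
  obtain ⟨m, rfl⟩ := Nat.exists_eq_add_of_lt hq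
  obtain ⟨i0, hi0, hmax⟩ := Finset.exists_max_image (Finset.range (m + 1))
    (fun i ↦ padicValNat 13 (q0 + i + 1)) ⟨0, by simp⟩
  rw [Finset.mem_range] at hi0
  obtain ⟨j, hj⟩ := Nat.exists_eq_add_of_le (Nat.lt_succ_iff.1 hi0)
  subst hj
  set W := padicValNat 13 (q0 + i0 + 1) with hW
  have hle : ∀ i, i < i0 + j + 1 → padicValNat 13 (q0 + i + 1) ≤ W := fun i hi ↦
    hmax i (Finset.mem_range.2 hi)
  have hfac := sums_fac q0 (i0 + 1 + j)
  rw [Finset.sum_range_add, Finset.sum_range_succ, ← hW] at hfac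
  have hA : ∑ i ∈ Finset.range i0, padicValNat 13 (q0 + i + 1) ≤
      padicValNat 13 i0.factorial := by
    rw [sums_fac0, ← Finset.sum_range_reflect]
    refine Finset.sum_le_sum fun i hi ↦ ?_
    have hi' := Finset.mem_range.1 hi
    refine sums_val (by omega) ?_
    have h2 : q0 + (i0 - 1 - i) + 1 + (i + 1) = q0 + i0 + 1 := by omega
    rw [h2]
    exact hle _ (by omega)
  have hB : ∑ i ∈ Finset.range j, padicValNat 13 (q0 + (i0 + 1 + i) + 1) ≤
      padicValNat 13 j.factorial := by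
    rw [sums_fac0]
    refine Finset.sum_le_sum fun i hi ↦ ?_
    have hi' := Finset.mem_range.1 hi
    have h2 : q0 + (i0 + 1 + i) + 1 = q0 + i0 + 1 + (i + 1) := by omega
    have h3 := hle (i0 + 1 + i) (by omega)
    rw [h2] at h3 ⊢
    exact sums_val2 (by omega) h3
  have hs := sums_le i0
  have hjl := sums_le j
  have hep : W - 1 - (i0 + (q0 + (i0 + j) + 1) % 13 ^ (W - 1)) ≤
      ep 13 (W - 1) i0 (q0 + (i0 + j) + 1) := by
    have hmem : W - 1 ∈ Finset.range (W - 1 + 1) := Finset.mem_range.2 (Nat.lt_succ_self _)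
    exact Finset.le_sup (f := fun V ↦ V - (i0 + (q0 + (i0 + j) + 1) % 13 ^ V)) hmem
  have hmod : (q0 + (i0 + j) + 1) % 13 ^ (W - 1) ≤ j := by
    have h1 : 13 ^ (W - 1) ∣ q0 + i0 + 1 :=
      (pow_dvd_pow 13 (Nat.sub_le W 1)).trans pow_padicValNat_dvd
    obtain ⟨c, hc⟩ := h1
    have h2 : q0 + (i0 + j) + 1 = 13 ^ (W - 1) * c + j := by omega
    rw [h2, Nat.mul_add_mod]
    exact Nat.mod_le _ _
  refine ⟨W - 1, i0, ?_, ?_⟩
  · rcases Nat.eq_zero_or_pos W with h | h
    · left
      omega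
    · right
      rw [Nat.sub_add_cancel h]
      have h1 : q0 + 1 + i0 = q0 + i0 + 1 := by omega
      rw [h1]
      exact pow_padicValNat_dvd
  · have h1 : q0 + (i0 + 1 + j) = q0 + (i0 + j) + 1 := by omega
    rw [h1] at hfac
    omega

end GH.Trop
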