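import Pool.Agent.GH.Trop.StmN
import Pool.Agent.GH.Trop.Pot
import Pool.Agent.GH.Trop.Dig69
import Pool.Agent.GH.Trop.RC

/-!
# GH-TROPN-F6: the value of the second family of potentials, `p = 5`
-/

noncomputable section

namespace GH.Trop

open GH.CombU

local instance valJ5_fact : Fact (Nat.Prime 5) := ⟨by norm_num⟩

namespace ValJ5

lemma Lam_zero : Lam 5 0 = 0 := by simp [Lam]

lemma Lam_succ (m : ℕ) : Lam 5 (m + 1) = Lam 5 m + 1 + padicValNat 5 (m + 1) := by
  unfold Lam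
  rw [Nat.factorial_succ, padicValNat.mul (by omega) (Nat.factorial_ne_zero m)]
  ring

lemma Lam_add_le (m a : ℕ) : Lam 5 m + a ≤ Lam 5 (m + a) := by
  induction a with
  | zero => rfl
  | succ a ih =>
    have h := Lam_succ (m + a)
    have e : m + (a + 1) = m + a + 1 := rfl
    rw [e, h]
    omega

lemma Lam_le {a b : ℕ} (h : a ≤ b) : Lam 5 a + (b - a) ≤ Lam 5 b := by
  have h1 := Lam_add_le a (b - a)
  have e : a + (b - a) = b := by omega
  rwa [e] at h1

lemma Lam_block (q r : ℕ) (hr : r < 5) : Lam 5 (5 * q + r) = 5 * q + r + Lam 5 q := by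
  unfold Lam
  rw [padicValNat_factorial_mul_add q hr, padicValNat_factorial_mul]
  ring

lemma em_le (J m : ℕ) : em 5 J m ≤ J := by
  unfold em
  exact (Finset.card_filter_le _ _).trans (by rw [Finset.card_range])

lemma em_zero (J : ℕ) : em 5 J 0 = J := by
  unfold em
  rw [Finset.filter_true_of_mem (fun j _ => dvd_zero _), Finset.card_range]

lemma em_block (J q r : ℕ) (hr : r < 5) (hr0 : r ≠ 0) : em 5 J (5 * q + r) = 0 := by
  unfold em
  rw [Finset.card_eq_zero, Finset.filter_eq_empty_iff]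
  intro j _ h
  have h1 : 5 ∣ 5 * q + r := (dvd_pow_self 5 (Nat.succ_ne_zero j)).trans h
  omega

lemma sum_block (f : ℕ → ℤ) (Q : ℕ) : ∑ m ∈ Finset.range (5 * Q), f m =
    ∑ q ∈ Finset.range Q, ∑ r ∈ Finset.range 5, f (5 * q + r) := by
  induction Q with
  | zero => simp
  | succ Q ih =>
    rw [Finset.sum_range_succ, ← ih, Nat.mul_succ, Finset.sum_range_add]

end ValJ5

open ValJ5 in
/-- S6: the second family has the value `B`. -/
theorem spSJ5 (hsum : SpEmSum5) (hP : SpPP5) (hB : SpB5) : SpSJ5 := by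
  intro c n q0 J e u hc he he0 he1 hu0 hu1 hJ hJd hPP hT
  set T : ℤ := n - 6 * (Lam 5 q0 : ℤ) - u with hTd
  set θ : ℕ → ℤ := thE 5 6 T fun m => em 5 J m with hθ
  have hp : Nat.Prime 5 := by norm_num
  have hthr : Thr 5 6 θ := spThr 5 6 T _ hp fun m a => spEm' 5 J m a hp
  have hθv : ∀ m, θ m = T + 6 * (Lam 5 m : ℤ) - 6 * (em 5 J m : ℤ) := fun m => by
    rw [hθ]
    unfold thE
    norm_num
  -- rows
  have hrow := spRows spKK 5 6 n (5 * (q0 + 1)) (D5 c) θ hp (by norm_num) hthr (by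
    rw [hθv, Lam_zero, em_zero]
    push_cast
    linarith)
  -- columns
  have hcol := spCols spKK 5 6 n (q0 + 1) θ hp (by norm_num) hthr (by
    have h1 := Lam_succ q0
    have h2 : J ≤ padicValNat 5 (q0 + 1) := (padicValNat_dvd_iff_le (by omega)).1 hJd
    have h3 := em_le J (q0 + 1)
    rw [hθv, hTd, h1]
    push_cast
    have h4 : (em 5 J (q0 + 1) : ℤ) ≤ padicValNat 5 (q0 + 1) := by
      exact_mod_cast h3.trans h2
    linarith)
  -- the argument of the block `q`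
  set C : ℤ := e + 30 * (q0 : ℤ) + 6 * (Lam 5 q0 : ℤ) + u with hCd
  have hblock : ∀ q ∈ Finset.range (q0 + 1), ∑ r ∈ Finset.range 5,
      max 0 (((5 : ℕ) * (n : ℤ) - D5 c - θ (5 * q + r) + ((5 : ℕ) - 1)) / ((5 : ℕ) : ℤ)) =
      PP5 (C - 6 * Lam 5 q - 30 * q) +
        ((C - 6 * Lam 5 q - 30 * q + 6 * em 5 J (5 * q) + 4) / 5 -
          (C - 6 * Lam 5 q - 30 * q + 4) / 5) := by
    intro q hq
    rw [Finset.mem_range] at hq
    have hL := Lam_le (show q ≤ q0 by omega)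
    have hX : 0 ≤ C - 6 * (Lam 5 q : ℤ) - 30 * q := by
      rw [hCd]
      have h1 : (Lam 5 q : ℤ) ≤ Lam 5 q0 := by exact_mod_cast (by omega : Lam 5 q ≤ Lam 5 q0)
      have h2 : (q : ℤ) ≤ q0 := by exact_mod_cast (by omega : q ≤ q0)
      linarith
    have hterm : ∀ r : ℕ, r < 5 → (5 : ℕ) * (n : ℤ) - D5 c - θ (5 * q + r) + ((5 : ℕ) - 1) =
        C - 6 * Lam 5 q - 30 * q - 6 * r + 6 * em 5 J (5 * q + r) + 4 := by
      intro r hr
      rw [hθv, Lam_block q r hr, hTd, hCd]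
      push_cast
      linarith
    unfold PP5
    rw [Finset.sum_range_succ' _ 4, Finset.sum_range_succ' _ 4]
    have hrest : ∀ r ∈ Finset.range 4,
        max 0 (((5 : ℕ) * (n : ℤ) - D5 c - θ (5 * q + (r + 1)) + ((5 : ℕ) - 1)) /
          ((5 : ℕ) : ℤ)) =
        max 0 ((C - 6 * Lam 5 q - 30 * q - 6 * ((r + 1 : ℕ) : ℤ) + 4) / 5) := by
      intro r hr
      rw [Finset.mem_range] at hr
      rw [hterm (r + 1) (by omega), em_block J q (r + 1) (by omega) (by omega)]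
      norm_num
    rw [Finset.sum_congr rfl hrest, hterm 0 (by norm_num), add_zero]
    have e1 : ((0 : ℕ) : ℤ) = 0 := rfl
    have e2 : ((5 : ℕ) : ℤ) = 5 := rfl
    rw [e1, e2, mul_zero, sub_zero]
    have hem : (0 : ℤ) ≤ em 5 J (5 * q) := Nat.cast_nonneg _
    have g1 : 0 ≤ (C - 6 * (Lam 5 q : ℤ) - 30 * q + 6 * em 5 J (5 * q) + 4) / 5 :=
      Int.ediv_nonneg (by linarith) (by norm_num)
    have g2 : 0 ≤ (C - 6 * (Lam 5 q : ℤ) - 30 * q + 4) / 5 :=
      Int.ediv_nonneg (by linarith) (by norm_num)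
    rw [max_eq_right g1, max_eq_right g2]
    ring
  rw [sum_block, Finset.sum_congr rfl hblock, Finset.sum_add_distrib,
    hsum C J (q0 + 1) hJd] at hrow
  -- the columns
  have hcolv : ∀ m ∈ Finset.range (q0 + 1), max 0 ((n : ℤ) - θ m) =
      (6 * ((Lam 5 q0 : ℤ) - Lam 5 m) + u) + 6 * (em 5 J m : ℤ) := by
    intro m hm
    rw [Finset.mem_range] at hm
    have hL := Lam_le (show m ≤ q0 by omega)
    have h1 : (Lam 5 m : ℤ) ≤ Lam 5 q0 := by exact_mod_cast (by omega : Lam 5 m ≤ Lam 5 q0)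
    have hem : (0 : ℤ) ≤ em 5 J m := Nat.cast_nonneg _
    rw [max_eq_right, hθv, hTd]
    · ring
    · rw [hθv, hTd]
      linarith
  rw [Finset.sum_congr rfl hcolv, Finset.sum_add_distrib, ← Finset.mul_sum] at hcol
  -- the values of `P`
  rw [Finset.sum_range_succ] at hrow hcol
  have hlast : C - 6 * (Lam 5 q0 : ℤ) - 30 * q0 = e + u := by
    rw [hCd]
    ring
  rw [hlast] at hrow
  have hpp : ∀ q ∈ Finset.range q0, PP5 (C - 6 * Lam 5 q - 30 * q) =
      (e + 30 * ((q0 : ℤ) - q) - 10) + (6 * ((Lam 5 q0 : ℤ) - Lam 5 q) + u) := by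
    intro q hq
    rw [Finset.mem_range] at hq
    have hL := Lam_le hq.le
    have h1 : (Lam 5 q : ℤ) ≤ Lam 5 q0 := by exact_mod_cast (by omega : Lam 5 q ≤ Lam 5 q0)
    have h2 : (q : ℤ) + 1 ≤ q0 := by exact_mod_cast hq
    rw [hP.1 _ (by rw [hCd]; linarith), hCd]
    ring
  rw [Finset.sum_congr rfl hpp, Finset.sum_add_distrib] at hrow
  have hBv := hB c n q0 e hc he (by linarith) he1
  unfold SS
  rw [Finset.sum_sub_distrib, hBv]
  have hlc : (6 * ((Lam 5 q0 : ℤ) - Lam 5 q0) + u) = u := by ring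
  rw [hlc] at hcol
  have e5x : ((5 : ℕ) : ℤ) = 5 := rfl
  linarith

end GH.Trop
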