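import Pool.Agent.GH.Trop.GenN
import Pool.Agent.GH.Trop.PHalf
import Pool.Agent.GH.Trop.PDir
import Pool.Agent.GH.Trop.Rt2
import Pool.Agent.GH.Trop.T32
import Pool.Agent.GH.Trop.S34
import Pool.Agent.GH.Trop.B34
import Pool.Agent.GH.Trop.ThT
import Pool.Agent.GH.Trop.P34
import Pool.Agent.GH.Trop.Choice5
import Pool.Agent.GH.Trop.EmSum5
import Pool.Agent.GH.Trop.PP5
import Pool.Agent.GH.Trop.Val5
import Pool.Agent.GH.Trop.ValJ5
import Pool.Agent.GH.Trop.PotL5
import Pool.Agent.GH.Trop.PotUV5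
import Pool.Agent.GH.CombU.PLN
import Pool.Agent.GH.LM.Dat32
import Pool.Agent.GH.LM.Dat34
import Pool.Agent.GH.LM.Dat52

/-!
# The root block for `(3,2)`, `(3,4)`, `(5,2)`
-/

open Polynomial

noncomputable section

namespace GH.Trop

open GH.CombU GH.LM

/-! ### `(3, 2)` -/

theorem wk32 (h : In32) : WkN (par32 h) :=
  wkN_of (par32 h) (by show 0 < 2; norm_num) fun ε hε => sp32.2.2.1 ε hε

theorem st32 (h : In32) : StN (par32 h) := by
  refine stN_of (par32 h) (by show 0 < 2; norm_num) (fun ε hε => sp32.2.2.1 ε hε)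
    fun n hv => ?_
  have h1 := sp32.2.2.2.1 n hv
  have e : (par32 h).gm (n % 2) = fun i => (2 * (i + 1) + 0) / 2 := by
    funext i
    show (2 * (i + 1) + n % 2) / 2 = (2 * (i + 1) + 0) / 2
    omega
  rw [e]
  exact h1

/-- The root block for `(3, 2)`. -/
theorem root32 (h : In32) : (par32 h).RootN ∧ (par32 h).RootP :=
  ⟨rootN_of (par32 h) (wk32 h) (st32 h),
    spPdir 3 (par32 h) (by show 0 < 2; norm_num) spRt2.1 sp32.2.2.2.2.1 sp32.2.2.2.2.2⟩

/-! ### `(3, 4)` -/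

theorem sp34' : Sp34 := sp34 spB34 spThT (spS34 spB34 spThT)

/-- The root block for `(3, 4)`. -/
theorem root34 (h : In34) : (par34 h).RootN ∧ (par34 h).RootP := by
  obtain ⟨hC, hL, hU, hV, hW, hX⟩ := sp34'
  refine ⟨rootN_of (par34 h) (wkN_of (par34 h) (by show 0 < 4; norm_num)
    fun ε hε => potN_half (p := 3) (by norm_num) hC hL hU)
    (stN_of (par34 h) (by show 0 < 4; norm_num)
      (fun ε hε => potN_half (p := 3) (by norm_num) hC hL hU)
      fun n hv => potV_half (p := 3) (by norm_num) hV n hv), ?_⟩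
  exact spPdir 3 (par34 h) (by show 0 < 4; norm_num) spRt2.2 hW hX

/-! ### `(5, 2)` -/

theorem s5 : SpS5 := spS5 spPP5 spB5

theorem sj5 : SpSJ5 := spSJ5 spEmSum5 spPP5 spB5

theorem potL5 : SpPotL5 := spPotL5 spChoice5 spPP5 s5 sj5 spE5

theorem potUV5 : SpPotUV5 := spPotUV5 spE5 s5 spB5

theorem cv5 {i : ℕ} (hi : i ≤ 3) : CvN (BLN i) :=
  ⟨BLN_zero i, fun n => BLN_conv i hi n⟩


theorem half52 (h : In52) {c : ℕ} (hc : c ≤ 1) : WkN (par52 h c) ∧ StN (par52 h c) := by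
  have hi : 2 + c = 2 ∨ 2 + c = 3 := by omega
  have hC := cv5 (i := 2 + c) (by omega)
  have hL := potL5 (2 + c) hi
  obtain ⟨hU, hV⟩ := potUV5 (2 + c) hi
  have hD : (((par52 h c).D : ℕ) : ℤ) = D5 (2 + c) := by
    show (((if c = 0 then 6 else 4 : ℕ) : ℕ) : ℤ) = D5 (2 + c)
    unfold D5
    rcases (show c = 0 ∨ c = 1 by omega) with rfl | rfl <;> norm_num
  rw [← hD] at hL hU hV
  exact ⟨wkN_of (par52 h c) (by show 0 < 6; norm_num)
    fun ε hε => potN_half (p := 5) (by norm_num) hC hL hU,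
    stN_of (par52 h c) (by show 0 < 6; norm_num)
      (fun ε hε => potN_half (p := 5) (by norm_num) hC hL hU)
      fun n hv => potV_half (p := 5) (by norm_num) hV n hv⟩

/-- The root block for `(5, 2)`. -/
theorem root52 (h : In52) {c : ℕ} (hc : c ≤ 1) : (par52 h c).RootN ∧ (par52 h c).RootP := by
  obtain ⟨hW, hS⟩ := half52 h hc
  exact ⟨rootN_of (par52 h c) hW hS, spPhalf 5 (par52 h c) rfl rfl rfl hW hS⟩

end GH.Trop
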