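import Pool.Agent.GH.Pot.Defs
import Pool.Agent.GH.CombU.Defs13

/-!
# GH13-TROP: root dominance by potentials, definitions and statements

Head: helper69. Note 5316. `Λ(m) = m + v_p(m!)`; a threshold sequence `θ` gives the potential
`K(x) = #{m : θ m < x}`; block potentials `θ_m = T + 14 Λ(m) - 14 ε(m / 13)`.
-/

open Polynomial

noncomputable section

namespace GH.Trop

open GH.CombU

instance inst13 : Fact (Nat.Prime 13) := ⟨by norm_num⟩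

/-! ### Definitions -/

/-- `m + v_p(m!)`. -/
def Lam (p m : ℕ) : ℕ := m + padicValNat p m.factorial

/-- The least `m` with `x ≤ θ m`. -/
def KK (θ : ℕ → ℤ) (x : ℤ) : ℕ := sInf {m | x ≤ θ m}

/-- Threshold sequences. -/
def Thr (p d : ℕ) (θ : ℕ → ℤ) : Prop := ∀ m a : ℕ, (d : ℤ) * Lam p a ≤ θ (m + a) - θ m

/-- `max_{V ≤ w} (V - s - (q mod p^V))⁺`. -/
def ep (p w s q : ℕ) : ℕ := (Finset.range (w + 1)).sup fun V => V - (s + q % p ^ V)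

/-- `min(v_p(m), J)`, `v_p(0) = ∞`. -/
def em (p J m : ℕ) : ℕ := ((Finset.range J).filter fun j => p ^ (j + 1) ∣ m).card

/-- The thresholds `T + d Λ(m) - d E(m)`. -/
def thE (p d : ℕ) (T : ℤ) (E : ℕ → ℕ) (m : ℕ) : ℤ := T + (d : ℤ) * Lam p m - (d : ℤ) * E m

/-- The value of the potential on the minor with the rows and columns `1, …, n`. -/
def SS (p : ℕ) (D : ℤ) (θ : ℕ → ℤ) (n : ℕ) : ℤ :=
  ∑ i ∈ Finset.range n, ((KK θ (p * ((i : ℤ) + 1) - D) : ℤ) - KK θ ((i : ℤ) + 1))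

/-- The shift of the component `c`: `14, 0, 10, 8, 6, 4`. -/
def D13 (c : ℕ) : ℤ := 14 - M013 c - 14 * e13 c

/-- `∑_{r<13} max(0, ⌈(x - 14 r)/13⌉)`. -/
def PP (x : ℤ) : ℤ := ∑ r ∈ Finset.range 13, max 0 ((x - 14 * (r : ℤ) + 12) / 13)

/-- The rows `0, …, n-1, i`. -/
def up (n i : ℕ) (k : Fin (n + 1)) : ℕ := if (k : ℕ) < n then k else i

/-- The rows `0, …, n-1`. -/
def idf (n : ℕ) (k : Fin n) : ℕ := k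

/-- The scaling, `i` counted from `0`. -/
def gm (eps i : ℕ) : ℕ := (i + 1 + eps) / 2

/-! ### Block A: potentials -/

/-- A1. -/
def SpKK : Prop := ∀ (p d : ℕ) (θ : ℕ → ℤ), p.Prime → 0 < d → Thr p d θ →
  ∀ (x : ℤ) (m : ℕ), KK θ x ≤ m ↔ x ≤ θ m

/-- A2. The bound of the minors of a matrix whose entries satisfy the growth of `NQ_rt`. -/
def SpMin : Prop := ∀ (p : ℕ) [Fact p.Prime] (d I : ℕ) (D : ℤ) (N : ℕ → ℕ → ℤ_[p][X])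
  (θ : ℕ → ℤ), 0 < d → Thr p d θ →
  (∀ i j k : ℕ, i < I → (∀ m < k, (d * Lam p m : ℤ) + D < p * ((i : ℤ) + 1) - (j + 1)) →
    C ((p : ℤ_[p]) ^ k) ∣ N i j) →
  ∀ (n k : ℕ) (a b : Fin n → ℕ), (∀ i, a i < I) →
    (k : ℤ) + ∑ j, (KK θ ((b j : ℤ) + 1) : ℤ) ≤ ∑ i, (KK θ (p * ((a i : ℤ) + 1) - D) : ℤ) →
    C ((p : ℤ_[p]) ^ k) ∣ Pot.minor N a b

/-- A3. -/
def SpThr : Prop := ∀ (p d : ℕ) (T : ℤ) (E : ℕ → ℕ), p.Prime →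
  (∀ m a, E (m + a) ≤ E m + padicValNat p ((m + a).choose m)) → Thr p d (thE p d T E)

/-! ### Block B: digits -/

/-- B1. -/
def SpEp : Prop := ∀ p w s m a : ℕ, p.Prime →
  ep p w s ((m + a) / p) ≤ ep p w s (m / p) + padicValNat p ((m + a).choose m)

/-- B2. -/
def SpEm : Prop := ∀ p J m a : ℕ, p.Prime →
  em p J (m + a) ≤ em p J m + padicValNat p ((m + a).choose m)

/-- B3: `ε` vanishes just below a multiple of `p^(w+1)`. -/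
def SpEp0 : Prop := ∀ p w s q Q : ℕ, p.Prime → p ^ (w + 1) ∣ Q → q < Q → Q ≤ q + s + 1 →
  ep p w s q = 0

/-- B4: the block identity. -/
def SpEpSum : Prop := ∀ p w s Q : ℕ, p.Prime → p ^ (w + 1) ∣ Q →
  ∑ q ∈ Finset.range Q, ep p w s q = ∑ m ∈ Finset.range Q, ep p w s (m / p)

/-- B5: the choice of `w` and `s` for the block `q`. -/
def SpChoice : Prop := ∀ q0 q : ℕ, q0 < q → ∃ w s : ℕ,
  (w = 0 ∨ 13 ^ (w + 1) ∣ q0 + 1 + s) ∧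
  12 * padicValNat 13 q.factorial + 1 ≤
    12 * padicValNat 13 q0.factorial + 12 * ep 13 w s q + 13 * (q - q0)

/-- B6: the identity for `em`. -/
def SpEmSum : Prop := ∀ (C : ℤ) (J Q : ℕ), 13 ^ J ∣ Q →
  ∑ q ∈ Finset.range Q, ((C - 14 * Lam 13 q - 182 * q + 14 * em 13 J (13 * q) + 12) / 13 -
    (C - 14 * Lam 13 q - 182 * q + 12) / 13) = 14 * ∑ q ∈ Finset.range Q, (em 13 J q : ℤ)

/-! ### Block S: the sums -/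

/-- S1: rows. -/
def SpRows : Prop := ∀ (p d n M : ℕ) (D : ℤ) (θ : ℕ → ℤ), p.Prime → 0 < d → Thr p d θ →
  0 ≤ θ 0 + D → ∑ m ∈ Finset.range M, max 0 ((p * n - D - θ m + (p - 1)) / (p : ℤ)) ≤
    ∑ i ∈ Finset.range n, (KK θ (p * ((i : ℤ) + 1) - D) : ℤ)

/-- S2: columns. -/
def SpCols : Prop := ∀ (p d n M : ℕ) (θ : ℕ → ℤ), p.Prime → 0 < d → Thr p d θ →
  (n : ℤ) ≤ θ M → ∑ i ∈ Finset.range n, (KK θ ((i : ℤ) + 1) : ℤ) ≤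
    ∑ m ∈ Finset.range M, max 0 (n - θ m)

/-- S3: `P` is linear from `156` on. -/
def SpPP : Prop := (∀ x, 156 ≤ x → PP x = x - 78) ∧ (∀ x, 0 ≤ PP x) ∧
  ∀ x y, x ≤ y → PP x ≤ PP y

/-- S4: the closed form of `B13`. -/
def SpB : Prop := ∀ (c n q0 : ℕ) (e : ℤ), c ≤ 5 → 12 * (n : ℤ) - D13 c = 182 * q0 + e →
  -26 ≤ e → e ≤ 182 →
  (B13 c n : ℤ) = ∑ q ∈ Finset.range q0, (e + 182 * ((q0 : ℤ) - q) - 78) + PP e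

/-- S5: block potentials have the value `B`. -/
def SpS : Prop := ∀ (c n q0 w s : ℕ) (e u : ℤ), c ≤ 5 →
  12 * (n : ℤ) - D13 c = 182 * q0 + e → -26 ≤ e → e ≤ 182 → -14 ≤ u → u ≤ 14 →
  (w = 0 ∨ 13 ^ (w + 1) ∣ q0 + 1 + s) → PP e ≤ PP (e + u) - max 0 u →
  0 ≤ n - 14 * (Lam 13 q0 : ℤ) - u - 14 * ep 13 w s 0 + D13 c →
  (B13 c n : ℤ) ≤ SS 13 (D13 c)
    (thE 13 14 (n - 14 * (Lam 13 q0 : ℤ) - u) fun m => ep 13 w s (m / 13)) n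

/-- S6: the second family has the value `B`. -/
def SpSJ : Prop := ∀ (c n q0 J : ℕ) (e u : ℤ), c ≤ 5 →
  12 * (n : ℤ) - D13 c = 182 * q0 + e → 0 < e → e ≤ 182 → 0 ≤ u → u ≤ 14 →
  0 < J → 13 ^ J ∣ q0 + 1 → PP e ≤ PP (e + u) - u →
  0 ≤ n - 14 * (Lam 13 q0 : ℤ) - u - 14 * J + D13 c →
  (B13 c n : ℤ) ≤ SS 13 (D13 c)
    (thE 13 14 (n - 14 * (Lam 13 q0 : ℤ) - u) fun m => em 13 J m) n

/-! ### Block P: the three kinds of potentials -/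

/-- P0: the numbers `q0` and `e`. -/
def SpE : Prop := ∀ c n : ℕ, c ≤ 5 → 1 ≤ n → ∃ (q0 : ℕ) (e : ℤ),
  12 * (n : ℤ) - D13 c = 182 * q0 + e ∧ -12 ≤ e ∧ e ≤ 168 ∧ 2 ∣ e

/-- P1: rows. -/
def SpPotL : Prop := ∀ c n k : ℕ, c ≤ 5 → 1 ≤ n → 1 ≤ k → ∃ θ : ℕ → ℤ, Thr 13 14 θ ∧
  (B13 c n : ℤ) ≤ SS 13 (D13 c) θ n ∧
  KK θ (13 * (n : ℤ) - D13 c) + (k + 1) / 2 ≤ KK θ (13 * ((n : ℤ) + k) - D13 c)

/-- P2: columns. -/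
def SpPotU : Prop := ∀ c n : ℕ, c ≤ 5 → 1 ≤ n → ∃ θ : ℕ → ℤ, Thr 13 14 θ ∧
  (B13 c n : ℤ) ≤ SS 13 (D13 c) θ n ∧ ∀ m, θ m ≠ n

/-- P3: columns, strict. -/
def SpPotV : Prop := ∀ c n : ℕ, c ≤ 5 → 1 ≤ n → 2 * B13 c n < B13 c (n - 1) + B13 c (n + 1) →
  ∃ θ : ℕ → ℤ, Thr 13 14 θ ∧ (B13 c n : ℤ) ≤ SS 13 (D13 c) θ n ∧
    ∀ m, θ m ≠ n ∧ θ m ≠ n - 1 ∧ θ m ≠ n + 1

/-- P4: convexity. -/
def SpConv : Prop := ∀ c : ℕ, c ≤ 5 → B13 c 0 = 0 ∧ ∀ n, 2 * B13 c (n + 1) ≤ B13 c n +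
  B13 c (n + 2)

/-! ### Block R: the matrices -/

/-- R1: abstract root dominance. -/
def SpLDU : Prop := ∀ (p : ℕ) [Fact p.Prime] (M : ℕ → ℕ → ℤ_[p][X]) (B : ℕ → ℕ), B 0 = 0 →
  (∀ n, 2 * B (n + 1) ≤ B n + B (n + 2)) →
  (∀ n, C ((p : ℤ_[p]) ^ B n) ∣ Pot.lead M n ∧ ¬ C ((p : ℤ_[p]) ^ (B n + 1)) ∣ Pot.lead M n) →
  (∀ n j, n < j → C ((p : ℤ_[p]) ^ B (n + 1)) ∣ Pot.minor M (idf (n + 1)) (up n j)) →
  (∀ n i, n < i → C ((p : ℤ_[p]) ^ B (n + 1)) ∣ Pot.minor M (up n i) (idf (n + 1))) →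
  (∀ (n : ℕ) (a b : Fin n → ℕ), C ((p : ℤ_[p]) ^ B n) ∣ Pot.minor M a b) ∧
  ∀ n : ℕ, 2 * B (n + 1) < B n + B (n + 2) →
    (∀ b : Fin (n + 1) → ℕ, (∃ i, n + 1 ≤ b i) →
      C ((p : ℤ_[p]) ^ (B (n + 1) + 1)) ∣ Pot.minor M (idf (n + 1)) b) →
    ∀ a b : Fin (n + 1) → ℕ, (∃ i, n + 1 ≤ b i) →
      C ((p : ℤ_[p]) ^ (B (n + 1) + 1)) ∣ Pot.minor M a b

/-- The input from the series side: `PM = W N` up to the row `I`. -/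
def RowF (c : ℕ) (PM : ℕ → ℕ → ℤ_[13][X]) : Prop := ∀ I : ℕ,
  ∃ (W : ℕ → ℤ_[13][X]) (N : ℕ → ℕ → ℤ_[13][X]), W 0 = 1 ∧
    (∀ l, C ((13 : ℤ_[13]) ^ ((l + 1) / 2)) ∣ W l) ∧
    (∀ i j k : ℕ, i < I → (∀ m < k, (14 * Lam 13 m : ℤ) + D13 c < 13 * ((i : ℤ) + 1) - (j + 1)) →
      C ((13 : ℤ_[13]) ^ k) ∣ N i j) ∧
    ∀ i < I, ∀ j, PM i j = ∑ l ∈ Finset.range (i + 1), W (i - l) * N l j

/-- R2: the goal. -/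
def SpRoot : Prop := ∀ (c : ℕ) (PM : ℕ → ℕ → ℤ_[13][X]) (PS : ℕ → ℕ → ℕ → ℤ_[13][X]), c ≤ 5 →
  RowF c PM →
  (∀ n, C ((13 : ℤ_[13]) ^ B13 c n) ∣ Pot.lead PM n ∧
    ¬ C ((13 : ℤ_[13]) ^ (B13 c n + 1)) ∣ Pot.lead PM n) →
  (∀ eps i j : ℕ, eps ≤ 1 →
    C ((13 : ℤ_[13]) ^ gm eps i) * PS eps i j = C ((13 : ℤ_[13]) ^ gm eps j) * PM i j) →
  ∀ eps : ℕ, eps ≤ 1 →
    (∀ (n : ℕ) (a b : Fin n → ℕ), C ((13 : ℤ_[13]) ^ B13 c n) ∣ Pot.minor (PS eps) a b) ∧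
    ∀ (n : ℕ) (a : Fin n → ℕ), 1 ≤ n → 2 * B13 c n < B13 c (n - 1) + B13 c (n + 1) →
      (∃ i, n ≤ a i) → C ((13 : ℤ_[13]) ^ (B13 c n + 1)) ∣ Pot.minor (PS eps) a a

end GH.Trop
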