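import Pool.Agent.GH.Trop.Stm
import Pool.Agent.GH.MatU.FreeQ

/-!
# GH13: the input `RowF` of the root block from the free factorisation
-/

open PowerSeries

noncomputable section

namespace GH.Trop

open GH.CombU GH.MatU

/-- `RowF` for `[h^(13i-j)] A^y F Q^i` with the growth `n/14`. -/
theorem rowF_of {c a : ℕ} (ha : (a : ℤ) = D13 c) {A Q F : PowerSeries ℤ_[13]}
    (hA0 : constantCoeff A = 1) (hA : GrD 14 A) (hQ0 : constantCoeff Q = 1) (hQ : GrD 14 Q)
    (hF : GrS 14 a F) : RowF c fun i j => MQ 13 A Q F (i + 1) (j + 1) := by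
  intro I
  have hd : (0 : ℕ) < 14 := by norm_num
  refine ⟨fun l => coeff l (WQ 13 A Q I), fun i j => NQ 13 A Q F I (i + 1) (j + 1), ?_, ?_,
    ?_, ?_⟩
  · show coeff 0 _ = 1
    rw [coeff_zero_eq_constantCoeff_apply, WQ_const]
  · intro l
    have h1 := mem_Ipw.1 (WQ_rt hd hA0 hA hQ0 hQ I l)
    rw [← map_pow] at h1
    refine (map_dvd Polynomial.C (pow_dvd_pow _ ?_)).trans h1
    unfold psD phD
    omega
  · intro i j k hi hk
    have h1 := NQ_rt (L := I) (i := i + 1) (j := j + 1) (c := k) hd hA0 hA hQ0 hQ hF hi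
      (fun m hm => by
        have h2 := hk m hm
        rw [← ha] at h2
        unfold Lam at h2
        generalize padicValNat 13 m.factorial = v at h2 ⊢
        push_cast at h2
        omega)
    have h3 := mem_Ipw.1 h1
    rwa [← map_pow] at h3
  · intro i hi j
    have h1 := MQ_row A hQ0 F I (i + 1) (j + 1)
    refine h1.trans ?_
    rw [Finset.sum_range_succ]
    have h5 : NQ 13 A Q F I (i + 1 - (i + 1)) (j + 1) = 0 := by
      rw [Nat.sub_self]
      exact NQ_of_lt (by omega)
    rw [h5, mul_zero, add_zero, ← Finset.sum_range_reflect]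
    refine Finset.sum_congr rfl fun l hl => ?_
    have hl1 := Finset.mem_range.1 hl
    have e1 : i + 1 - 1 - l = i - l := by omega
    have e2 : i + 1 - (i - l) = l + 1 := by omega
    rw [e1, e2]

end GH.Trop
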