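import Pool.Agent.GH.Trop.Stm

/-!
# GH13-TROP, row B6: the identity for `em`
-/

set_option autoImplicit false

noncomputable section

namespace GH.Trop

open Finset

/-- a sum over the multiples of `K` -/
theorem es_mul (K : ℕ) (hK : 0 < K) (f : ℕ → ℤ) (N : ℕ) :
    ∑ q ∈ range (K * N), (if K ∣ q then f q else 0) = ∑ y ∈ range N, f (K * y) := by
  induction N with
  | zero => rw [Nat.mul_zero, sum_range_zero, sum_range_zero]
  | succ N ih =>
    rw [Nat.mul_succ, sum_range_add, ih, sum_range_succ]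
    congr 1
    rw [sum_eq_single 0]
    · rw [add_zero, if_pos (Dvd.intro N rfl)]
    · intro i hi h0
      rw [if_neg]
      intro h
      have h1 : K ∣ i := (Nat.dvd_add_right (Dvd.intro N rfl)).1 h
      exact h0 (Nat.eq_zero_of_dvd_of_lt h1 (mem_range.1 hi))
    · intro h
      exact absurd (mem_range.2 hK) h

theorem es_em (J m : ℕ) : (em 13 (J + 1) m : ℤ) = em 13 J m + if 13 ^ (J + 1) ∣ m then 1 else 0 := by
  unfold em
  rw [range_add_one, filter_insert]
  split_ifs with h
  · rw [card_insert_of_notMem]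
    · push_cast
      ring
    · intro h1
      exact absurd (mem_range.1 (mem_filter.1 h1).1) (lt_irrefl _)
  · rw [add_zero]

theorem es_emJ (J q : ℕ) (h : 13 ^ J ∣ q) : em 13 J (13 * q) = J := by
  unfold em
  rw [filter_true_of_mem, card_range]
  intro j hj
  have h1 : 13 ^ j ∣ q := (pow_dvd_pow 13 (mem_range.1 hj).le).trans h
  rw [pow_succ']
  exact Nat.mul_dvd_mul_left 13 h1

theorem es_Lam_mul (m : ℕ) : Lam 13 (13 * m) = 13 * m + Lam 13 m := by
  unfold Lam
  rw [padicValNat_factorial_mul]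
  ring

theorem es_Lam_add (b r : ℕ) (hr : r < 13) : Lam 13 (13 * b + r) = 13 * b + r + Lam 13 b := by
  unfold Lam
  rw [padicValNat_factorial_mul_add b hr, padicValNat_factorial_mul]
  ring

theorem es_Lam_pow (J y : ℕ) : (13 : ℤ) ∣ (Lam 13 (13 ^ J * y) : ℤ) - Lam 13 y := by
  induction J with
  | zero => simp
  | succ J ih =>
    have h1 : 13 ^ (J + 1) * y = 13 * (13 ^ J * y) := by ring
    rw [h1, es_Lam_mul]
    push_cast
    obtain ⟨c, hc⟩ := ih
    refine ⟨13 ^ J * y + c, ?_⟩
    push_cast at hc ⊢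
    linarith

/-- one residue in each block -/
theorem es_block (B : ℤ) : ∑ r ∈ range 13, (if (13 : ℤ) ∣ B - r then (1 : ℤ) else 0) = 1 := by
  rw [sum_eq_single (B % 13).toNat]
  · rw [if_pos]
    have h1 : (((B % 13).toNat : ℕ) : ℤ) = B % 13 := Int.toNat_of_nonneg (by omega)
    rw [h1]
    omega
  · intro r hr h0
    rw [if_neg]
    intro h
    have := mem_range.1 hr
    apply h0
    omega
  · intro h
    exfalso
    apply h
    rw [mem_range]
    omega

/-- the number of good residues -/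
theorem es_count (A : ℤ) (y0 : ℕ) :
    ∑ y ∈ range (13 * y0), (if (13 : ℤ) ∣ A - Lam 13 y then (1 : ℤ) else 0) = y0 := by
  induction y0 with
  | zero => simp
  | succ b ih =>
    rw [Nat.mul_succ, sum_range_add, ih]
    have h1 : ∑ r ∈ range 13, (if (13 : ℤ) ∣ A - Lam 13 (13 * b + r) then (1 : ℤ) else 0) =
        ∑ r ∈ range 13, (if (13 : ℤ) ∣ (A - Lam 13 b) - r then (1 : ℤ) else 0) := by
      refine sum_congr rfl fun r hr => ?_
      rw [es_Lam_add b r (mem_range.1 hr)]
      have h2 : (13 : ℤ) ∣ A - ((13 * b + r + Lam 13 b : ℕ) : ℤ) ↔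
          (13 : ℤ) ∣ (A - Lam 13 b) - r := by
        push_cast
        omega
      by_cases h3 : (13 : ℤ) ∣ (A - Lam 13 b) - r
      · rw [if_pos h3, if_pos (h2.2 h3)]
      · rw [if_neg h3, if_neg fun h4 => h3 (h2.1 h4)]
    rw [h1, es_block]
    push_cast
    rfl

/-- the increment of a quotient -/
theorem es_div (X : ℤ) : (X + 14 + 12) / 13 - (X + 12) / 13 = 1 + if (13 : ℤ) ∣ X then 1 else 0 := by
  split_ifs with h
  · omega
  · omega

/-- B6: the identity for `em`. -/
theorem spEmSum : SpEmSum := by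
  intro C J
  induction J with
  | zero =>
    intro Q _
    have h1 : ∀ m, em 13 0 m = 0 := fun m => by
      unfold em
      rw [range_zero, filter_empty, card_empty]
    simp only [h1]
    simp
  | succ J ih =>
    intro Q hQ
    obtain ⟨y0, rfl⟩ := hQ
    have hQ' : 13 ^ (J + 1) * y0 = 13 ^ J * (13 * y0) := by ring
    have h1 := ih (13 ^ (J + 1) * y0) (by rw [hQ']; exact Dvd.intro _ rfl)
    -- the right side
    have h2 : ∑ q ∈ range (13 ^ (J + 1) * y0), (em 13 (J + 1) q : ℤ) =
        ∑ q ∈ range (13 ^ (J + 1) * y0), (em 13 J q : ℤ) + y0 := by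
      rw [sum_congr rfl fun q _ => es_em J q, sum_add_distrib,
        es_mul (13 ^ (J + 1)) (by positivity) (fun _ => 1) y0, sum_const, card_range]
      simp
    -- the left side
    have h3 : ∀ q : ℕ,
        (C - 14 * Lam 13 q - 182 * q + 14 * em 13 (J + 1) (13 * q) + 12) / 13 -
          (C - 14 * Lam 13 q - 182 * q + 12) / 13 =
        ((C - 14 * Lam 13 q - 182 * q + 14 * em 13 J (13 * q) + 12) / 13 -
          (C - 14 * Lam 13 q - 182 * q + 12) / 13) +
        (if 13 ^ J ∣ q then 1 + (if (13 : ℤ) ∣ C - 14 * Lam 13 q - 182 * q + 14 * J then 1 else 0)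
          else 0) := by
      intro q
      have h4 : 13 ^ (J + 1) ∣ 13 * q ↔ 13 ^ J ∣ q := by
        rw [pow_succ']
        exact Nat.mul_dvd_mul_iff_left (by norm_num)
      rw [es_em]
      by_cases h5 : 13 ^ J ∣ q
      · rw [if_pos h5, if_pos (h4.2 h5), es_emJ J q h5,
          ← es_div (C - 14 * Lam 13 q - 182 * q + 14 * J)]
        have h6 : C - 14 * (Lam 13 q : ℤ) - 182 * q + 14 * ((J : ℤ) + 1) + 12 =
            C - 14 * Lam 13 q - 182 * q + 14 * J + 14 + 12 := by ring
        rw [h6]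
        ring
      · rw [if_neg h5, if_neg fun h6 => h5 (h4.1 h6), add_zero, add_zero]
    rw [sum_congr rfl fun q _ => h3 q, sum_add_distrib, h1, h2, hQ',
      es_mul (13 ^ J) (by positivity)
        (fun q => 1 + (if (13 : ℤ) ∣ C - 14 * Lam 13 q - 182 * q + 14 * J then 1 else 0)) (13 * y0),
      sum_add_distrib]
    have h7 : ∑ y ∈ range (13 * y0), (if (13 : ℤ) ∣ C - 14 * Lam 13 (13 ^ J * y) -
        182 * ((13 ^ J * y : ℕ) : ℤ) + 14 * J then (1 : ℤ) else 0) = y0 := by
      rw [← es_count (C + J) y0]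
      refine sum_congr rfl fun y _ => ?_
      obtain ⟨c, hc⟩ := es_Lam_pow J y
      have h8 : (13 : ℤ) ∣ C - 14 * Lam 13 (13 ^ J * y) - 182 * ((13 ^ J * y : ℕ) : ℤ) + 14 * J ↔
          (13 : ℤ) ∣ C + J - Lam 13 y := by omega
      by_cases h9 : (13 : ℤ) ∣ C + J - Lam 13 y
      · rw [if_pos h9, if_pos (h8.2 h9)]
      · rw [if_neg h9, if_neg fun h => h9 (h8.1 h)]
    rw [h7, sum_const, card_range]
    push_cast
    ring

end GH.Trop
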