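import Pool.Agent.GH.Trop.Stm
import Pool.Agent.GH.MatU.LDU

/-!
# GH13-TROP-R1: abstract root dominance
-/

open Polynomial

noncomputable section

namespace GH.Trop

theorem spLDU : SpLDU := by
  intro p _ M B hB0 hconv hlead hU hL
  have h : MatU.LduHyp M B := {
    zero := hB0
    convex := fun n => by have := hconv n; omega
    lead_dvd := fun n => by have := (hlead n).1; rwa [map_pow] at this
    lead_ndvd := fun n => by have := (hlead n).2; rwa [map_pow] at this
    cols := fun n j hj => by have := hU n j hj; rwa [map_pow] at this
    rows := fun n i hi => by have := hL n i hi; rwa [map_pow] at this }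
  refine ⟨fun n a b => ?_, fun n hv hs a b hb => ?_⟩
  · rw [map_pow]
    exact MatU.ldu_weak h a b
  · rw [map_pow]
    refine MatU.ldu_strict h (Or.inr ?_) a b ?_
    · have h1 : n + 1 - 1 = n := by omega
      rw [h1]
      have h2 : n + 1 + 1 = n + 2 := rfl
      rw [h2]
      omega
    · have h3 := hs b hb
      rwa [map_pow] at h3

end GH.Trop
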