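import Pool.Agent.GH.Trop.Stm
import Pool.Agent.GH.CombU.P13

/-!
# GH13-TROP: the function `PP`, the closed form of `B13`, convexity
-/

noncomputable section

namespace GH.Trop

open GH.CombU

/-! ### The function `PP` -/

theorem pp_nonneg (x : ℤ) : 0 ≤ PP x := by
  unfold PP
  exact Finset.sum_nonneg fun r _ ↦ le_max_left _ _

theorem pp_mono {x y : ℤ} (h : x ≤ y) : PP x ≤ PP y := by
  unfold PP
  refine Finset.sum_le_sum fun r _ ↦ ?_
  have h1 : (x - 14 * (r : ℤ) + 12) / 13 ≤ (y - 14 * (r : ℤ) + 12) / 13 := by omega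
  exact max_le_max le_rfl h1

theorem pp_nonpos {x : ℤ} (h : x ≤ 0) : PP x = 0 := by
  unfold PP
  refine Finset.sum_eq_zero fun r _ ↦ ?_
  have h1 : (x - 14 * (r : ℤ) + 12) / 13 ≤ 0 := by
    have h2 : (0 : ℤ) ≤ r := Int.natCast_nonneg r
    omega
  exact max_eq_left h1

theorem pp_lin {x : ℤ} (h : 156 ≤ x) : PP x = x - 78 := by
  have h1 : PP x = ∑ r ∈ Finset.range 13, ((x - (r : ℤ) + 12) / 13 - r) := by
    unfold PP
    refine Finset.sum_congr rfl fun r hr ↦ ?_
    have h2 : r < 13 := Finset.mem_range.1 hr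
    have h3 : (r : ℤ) ≤ 12 := by exact_mod_cast Nat.le_of_lt_succ h2
    have h4 : 0 ≤ (x - 14 * (r : ℤ) + 12) / 13 := by omega
    rw [max_eq_right h4]
    omega
  rw [h1, Finset.sum_sub_distrib]
  have h5 : ∑ r ∈ Finset.range 13, ((x - (r : ℤ) + 12) / 13) = x := by
    simp only [Finset.sum_range_succ, Finset.sum_range_zero]
    push_cast
    obtain ⟨k, i, hx, hi0, hi1⟩ : ∃ k i : ℤ, x = 13 * k + i ∧ 0 ≤ i ∧ i < 13 :=
      ⟨x / 13, x % 13, by omega, by omega, by omega⟩
    subst hx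
    have e : ∀ r : ℤ, 0 ≤ r → r < 13 → (13 * k + i - r + 12) / 13 =
        k + if r < i then 1 else 0 := by
      intro r hr0 hr1
      split_ifs <;> omega
    rw [show (13 * k + i - 0 + 12) / 13 = _ from e 0 (by norm_num) (by norm_num),
      e 1 (by norm_num) (by norm_num), e 2 (by norm_num) (by norm_num),
      e 3 (by norm_num) (by norm_num), e 4 (by norm_num) (by norm_num),
      e 5 (by norm_num) (by norm_num), e 6 (by norm_num) (by norm_num),
      e 7 (by norm_num) (by norm_num), e 8 (by norm_num) (by norm_num),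
      e 9 (by norm_num) (by norm_num), e 10 (by norm_num) (by norm_num),
      e 11 (by norm_num) (by norm_num), e 12 (by norm_num) (by norm_num)]
    clear e h1 h
    interval_cases i <;> norm_num <;> ring
  have h6 : ∑ r ∈ Finset.range 13, (r : ℤ) = 78 := by
    simp only [Finset.sum_range_succ, Finset.sum_range_zero]
    norm_num
  rw [h5, h6]

theorem spPP : SpPP := ⟨fun _ h ↦ pp_lin h, pp_nonneg, fun _ _ h ↦ pp_mono h⟩

/-! ### The numbers `q0` and `e` -/

theorem d13_cases {c : ℕ} (hc : c ≤ 5) : D13 c = 14 ∧ c = 0 ∨ D13 c = 0 ∧ c = 1 ∨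
    D13 c = 10 ∧ c = 2 ∨ D13 c = 8 ∧ c = 3 ∨ D13 c = 6 ∧ c = 4 ∨ D13 c = 4 ∧ c = 5 := by
  rcases (show c = 0 ∨ c = 1 ∨ c = 2 ∨ c = 3 ∨ c = 4 ∨ c = 5 by omega) with
    rfl | rfl | rfl | rfl | rfl | rfl
  · left; simp [D13, M013, e13]
  · right; left; simp [D13, M013, e13]
  · right; right; left; simp [D13, M013, e13]
  · right; right; right; left; simp [D13, M013, e13]
  · right; right; right; right; left; simp [D13, M013, e13]
  · right; right; right; right; right; simp [D13, M013, e13]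

theorem spE : SpE := by
  intro c n hc hn
  refine ⟨((12 * (n : ℤ) - D13 c + 12) / 182).toNat,
    12 * (n : ℤ) - D13 c - 182 * ((12 * (n : ℤ) - D13 c + 12) / 182).toNat, ?_⟩
  rcases d13_cases hc with h | h | h | h | h | h <;> rw [h.1] <;>
  · refine ⟨by ring, ?_, ?_, ?_⟩ <;> omega

/-! ### The closed form of `B13` -/

/-- The layers of `T13`. -/
theorem pp_layer (c : ℕ) (hc : c ≤ 5) (n i : ℕ) :
    (((Finset.range (Z13 n)).filter fun m ↦ i < T13 c n m).card : ℤ) =
      max 0 ((12 * (n : ℤ) - D13 c - 14 * (i : ℤ) + 12) / 13) := by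
  have h1 : ((Finset.range (Z13 n)).filter fun m ↦ i < T13 c n m) =
      Finset.Ico ((n + i + 14 - M013 c - e13 c) / 13) (n + e13 c - i) := by
    ext m
    rw [Finset.mem_filter, Finset.mem_range, Finset.mem_Ico]
    rcases (show c = 0 ∨ c = 1 ∨ c = 2 ∨ c = 3 ∨ c = 4 ∨ c = 5 by omega) with
      rfl | rfl | rfl | rfl | rfl | rfl <;>
    · simp only [T13, Z13, t13, cen13, M013, e13]
      norm_num only [if_true, if_false]
      omega
  rw [h1, Nat.card_Ico]
  rcases (show c = 0 ∨ c = 1 ∨ c = 2 ∨ c = 3 ∨ c = 4 ∨ c = 5 by omega) with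
    rfl | rfl | rfl | rfl | rfl | rfl <;>
  · simp only [D13, M013, e13]
    norm_num only [if_true, if_false]
    omega

theorem pp_T_le (c n m : ℕ) : T13 c n m ≤ n := by
  unfold T13
  exact (Nat.min_le_left _ _).trans (Nat.sub_le _ _)

theorem pp_B (c : ℕ) (hc : c ≤ 5) (n N : ℕ) (hN : n ≤ N) : (B13 c n : ℤ) =
    ∑ i ∈ Finset.range N, max 0 ((12 * (n : ℤ) - D13 c - 14 * (i : ℤ) + 12) / 13) := by
  have h1 : ∀ m, (T13 c n m : ℤ) = ∑ i ∈ Finset.range N, if i < T13 c n m then (1 : ℤ) else 0 := by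
    intro m
    rw [← Finset.sum_filter, Finset.sum_const, nsmul_eq_mul, mul_one]
    have h2 : ((Finset.range N).filter fun i ↦ i < T13 c n m) = Finset.range (T13 c n m) := by
      ext i
      rw [Finset.mem_filter, Finset.mem_range, Finset.mem_range]
      have := pp_T_le c n m
      omega
    rw [h2, Finset.card_range]
  unfold B13
  push_cast
  rw [Finset.sum_congr rfl fun m _ ↦ h1 m, Finset.sum_comm]
  refine Finset.sum_congr rfl fun i _ ↦ ?_
  rw [← pp_layer c hc n i, ← Finset.sum_filter, Finset.sum_const, nsmul_eq_mul, mul_one]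

/-- Blocks of length 13. -/
theorem pp_blocks (X : ℤ) (Q : ℕ) :
    ∑ i ∈ Finset.range (13 * Q), max 0 ((X - 14 * (i : ℤ) + 12) / 13) =
      ∑ q ∈ Finset.range Q, PP (X - 182 * (q : ℤ)) := by
  induction Q with
  | zero => simp
  | succ Q ih =>
      rw [Finset.sum_range_succ, ← ih, show 13 * (Q + 1) = 13 * Q + 13 by ring,
        Finset.sum_range_add]
      congr 1
      unfold PP
      refine Finset.sum_congr rfl fun r _ ↦ ?_
      have e : X - 14 * ((13 * Q + r : ℕ) : ℤ) + 12 = X - 182 * (Q : ℤ) - 14 * (r : ℤ) + 12 := by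
        push_cast
        ring
      rw [e]

theorem spB : SpB := by
  intro c n q0 e hc he h1 h2
  have h3 := pp_B c hc n (13 * (q0 + 1 + n)) (by omega)
  rw [h3, pp_blocks, Finset.sum_range_add, Finset.sum_range_succ, he]
  have h4 : ∑ x ∈ Finset.range n, PP (182 * (q0 : ℤ) + e - 182 * ((q0 + 1 + x : ℕ) : ℤ)) = 0 := by
    refine Finset.sum_eq_zero fun x _ ↦ pp_nonpos ?_
    push_cast
    omega
  have h5 : ∑ x ∈ Finset.range q0, PP (182 * (q0 : ℤ) + e - 182 * (x : ℤ)) =
      ∑ q ∈ Finset.range q0, (e + 182 * ((q0 : ℤ) - q) - 78) := by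
    refine Finset.sum_congr rfl fun q hq ↦ ?_
    have h6 : q < q0 := Finset.mem_range.1 hq
    rw [pp_lin (by omega)]
    ring
  rw [h4, h5, add_zero]
  congr 2
  ring

theorem spConv (_h : SpB) (_hE : SpE) : SpConv :=
  fun c hc ↦ ⟨B13_zero c, fun n ↦ B13_conv c hc n⟩

end GH.Trop
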