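import Pool.Agent.GH.Trop.Stm

/-!
# GH13-TROP-P1: potentials for the rows
-/

noncomputable section

namespace GH.Trop

open GH.CombU

/-! ### `Λ` -/

theorem pl_Lam_block (q r : ℕ) (hr : r < 13) : Lam 13 (13 * q + r) = 13 * q + r + Lam 13 q := by
  unfold Lam
  rw [padicValNat_factorial_mul_add q hr, padicValNat_factorial_mul]
  ring

theorem pl_legendre (m : ℕ) (hm : 1 ≤ m) : 12 * padicValNat 13 m.factorial + 1 ≤ m := by
  have h := sub_one_mul_padicValNat_factorial_lt_of_ne_zero 13 (n := m) (by omega)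
  omega

theorem pl_mono {a b : ℕ} (h : a ≤ b) :
    padicValNat 13 a.factorial ≤ padicValNat 13 b.factorial := by
  exact (padicValNat_dvd_iff_le (by positivity)).1
    (pow_padicValNat_dvd.trans (Nat.factorial_dvd_factorial h))

theorem pl_succ (q : ℕ) : padicValNat 13 (q + 1).factorial =
    padicValNat 13 q.factorial + padicValNat 13 (q + 1) := by
  rw [Nat.factorial_succ, padicValNat.mul (by omega) (by positivity), add_comm]

/-- `ε(0)`. -/
theorem pl_ep0 (w s : ℕ) : ep 13 w s 0 ≤ w - s := by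
  unfold ep
  refine Finset.sup_le fun V hV => ?_
  rw [Finset.mem_range] at hV
  rw [Nat.zero_mod]
  omega

theorem pl_ep_zero (s q : ℕ) : ep 13 0 s q = 0 := by
  unfold ep
  rw [zero_add, Finset.range_one, Finset.sup_singleton]
  exact Nat.zero_sub _

/-! ### Growth -/

theorem pl_growth (hK : SpKK) {θ : ℕ → ℤ} (hθ : Thr 13 14 θ) {x y : ℤ} {M g : ℕ} (hg : 1 ≤ g)
    (h1 : x ≤ θ M) (h2 : θ (M + g - 1) < y) : KK θ x + g ≤ KK θ y := by
  have h3 := (hK 13 14 θ (by norm_num) (by norm_num) hθ x M).2 h1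
  have h4 : ¬ KK θ y ≤ M + g - 1 := fun h =>
    absurd ((hK 13 14 θ (by norm_num) (by norm_num) hθ y _).1 h) (not_le.2 h2)
  omega

/-- The lower bound of `θ 0`. -/
theorem pl_pos {c n q0 w s : ℕ} {e u : ℤ} (hc : c ≤ 5)
    (he : 12 * (n : ℤ) - D13 c = 182 * q0 + e) (hu : q0 = 0 → u ≤ n) (h25 : -25 ≤ e - 12 * u)
    (hw : w = 0 ∨ 13 ^ (w + 1) ∣ q0 + 1 + s) :
    0 ≤ n - 14 * (Lam 13 q0 : ℤ) - u - 14 * ep 13 w s 0 + D13 c := by
  have hD : 0 ≤ D13 c := by
    interval_cases c <;> decide
  have hep := pl_ep0 w s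
  have hL : (Lam 13 q0 : ℤ) = q0 + padicValNat 13 q0.factorial := by
    unfold Lam
    push_cast
    ring
  rw [hL]
  set v0 := padicValNat 13 q0.factorial with hv0
  by_cases hcase : w ≤ s ∨ w = 0
  · have h0 : ep 13 w s 0 = 0 := by
      rcases hcase with h | h
      · omega
      · subst h
        exact pl_ep_zero _ _
    rw [h0]
    rcases Nat.eq_zero_or_pos q0 with h | h
    · subst h
      have h1 := hu rfl
      have h2 : v0 = 0 := by
        rw [hv0, Nat.factorial_zero, padicValNat_one_right]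
      rw [h2]
      push_cast
      linarith
    · have h1 := pl_legendre q0 h
      rw [← hv0] at h1
      push_cast
      omega
  · push Not at hcase
    obtain ⟨h1, h2⟩ := hcase
    have h3 := hw.resolve_left h2
    have h4 := pl_legendre (q0 + 1 + s) (by omega)
    have h5 : q0 + 1 + s = (q0 + s) + 1 := by ring
    rw [h5, pl_succ] at h4
    have h6 : v0 ≤ padicValNat 13 (q0 + s).factorial := pl_mono (by omega)
    have h7 : w + 1 ≤ padicValNat 13 (q0 + s + 1) :=
      (padicValNat_dvd_iff_le (by omega)).1 (by rw [← h5]; exact h3)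
    omega

/-- The block potentials. -/
theorem pl_block (hK : SpKK) (hThr : SpThr) (hEp : SpEp) (hS : SpS) {c n k q0 q r w s R : ℕ}
    {e u : ℤ} (hc : c ≤ 5) (hk : 1 ≤ k)
    (he : 12 * (n : ℤ) - D13 c = 182 * q0 + e) (h26 : -26 ≤ e) (h182 : e ≤ 182)
    (hu1 : -14 ≤ u) (hu2 : u ≤ 14) (hu : q0 = 0 → u ≤ n) (h25 : -25 ≤ e - 12 * u)
    (hPP : PP e ≤ PP (e + u) - max 0 u) (hR : R < 13) (heR : e + u ≤ 14 * R)
    (hw : w = 0 ∨ 13 ^ (w + 1) ∣ q0 + 1 + s)
    (hep0 : ep 13 w s q0 = 0)
    (hq : 13 * q0 + R + (k + 1) / 2 - 1 = 13 * q + r) (hr : r < 13)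
    (hmain : 0 ≤ e + u + 142 * ((q : ℤ) - q0) + 12 * r - 26 * R + 12 - 14 *
      ((padicValNat 13 q.factorial : ℤ) - padicValNat 13 q0.factorial - ep 13 w s q)) :
    ∃ θ : ℕ → ℤ, Thr 13 14 θ ∧ (B13 c n : ℤ) ≤ SS 13 (D13 c) θ n ∧
      KK θ (13 * (n : ℤ) - D13 c) + (k + 1) / 2 ≤ KK θ (13 * ((n : ℤ) + k) - D13 c) := by
  have hθ : Thr 13 14 (thE 13 14 (n - 14 * (Lam 13 q0 : ℤ) - u) fun m => ep 13 w s (m / 13)) :=
    hThr 13 14 _ _ (by norm_num) fun m a => hEp 13 w s m a (by norm_num)
  refine ⟨_, hθ, hS c n q0 w s e u hc he h26 h182 hu1 hu2 hw hPP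
    (pl_pos hc he hu h25 hw), ?_⟩
  refine pl_growth hK hθ (M := 13 * q0 + R) (by omega) ?_ ?_
  · unfold thE
    rw [pl_Lam_block q0 R hR]
    have h1 : (13 * q0 + R) / 13 = q0 := by omega
    simp only [h1, hep0]
    push_cast
    linarith
  · rw [hq]
    unfold thE
    rw [pl_Lam_block q r hr]
    have h1 : (13 * q + r) / 13 = q := by omega
    simp only [h1]
    have hL : ∀ x : ℕ, (Lam 13 x : ℤ) = x + padicValNat 13 x.factorial := fun x => by
      unfold Lam
      push_cast
      ring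
    push_cast
    rw [hL q, hL q0]
    have h2 : (k : ℤ) + 1 ≥ 2 * (13 * q + r - 13 * q0 - R + 1) := by
      omega
    linarith

/-- The second family. -/
theorem pl_J (hK : SpKK) (hThr : SpThr) (hEm : SpEm) (hSJ : SpSJ) {c n k q0 R : ℕ}
    {e u : ℤ} (hc : c ≤ 5) (hk : 1 ≤ k)
    (he : 12 * (n : ℤ) - D13 c = 182 * q0 + e) (h0 : 24 ≤ e) (h182 : e ≤ 182)
    (hu1 : 0 ≤ u) (hu2 : u ≤ 2) (h13 : 13 ∣ q0 + 1)
    (hPP : PP e ≤ PP (e + u) - u) (hR0 : 1 ≤ R) (hR : R < 13) (heR : e + u ≤ 14 * R)
    (hq : R + (k + 1) / 2 = 14)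
    (hmain : 0 < e + u + 155 - 26 * R) :
    ∃ θ : ℕ → ℤ, Thr 13 14 θ ∧ (B13 c n : ℤ) ≤ SS 13 (D13 c) θ n ∧
      KK θ (13 * (n : ℤ) - D13 c) + (k + 1) / 2 ≤ KK θ (13 * ((n : ℤ) + k) - D13 c) := by
  have hD : 0 ≤ D13 c := by
    interval_cases c <;> decide
  set J := padicValNat 13 (q0 + 1) with hJ
  have hJ1 : 0 < J := by
    rw [hJ]
    exact one_le_padicValNat_of_dvd (by omega) h13
  have hJd : 13 ^ J ∣ q0 + 1 := pow_padicValNat_dvd
  have hθ : Thr 13 14 (thE 13 14 (n - 14 * (Lam 13 q0 : ℤ) - u) fun m => em 13 J m) :=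
    hThr 13 14 _ _ (by norm_num) fun m a => hEm 13 J m a (by norm_num)
  have hL : ∀ x : ℕ, (Lam 13 x : ℤ) = x + padicValNat 13 x.factorial := fun x => by
    unfold Lam
    push_cast
    ring
  have hleg := pl_legendre (q0 + 1) (by omega)
  rw [pl_succ, ← hJ] at hleg
  have hpos : 0 ≤ n - 14 * (Lam 13 q0 : ℤ) - u - 14 * J + D13 c := by
    rw [hL q0]
    omega
  refine ⟨_, hθ, hSJ c n q0 J e u hc he (by omega) h182 hu1 (by omega) hJ1 hJd hPP hpos, ?_⟩
  refine pl_growth hK hθ (M := 13 * q0 + R) (by omega) ?_ ?_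
  · unfold thE
    rw [pl_Lam_block q0 R hR]
    have h1 : em 13 J (13 * q0 + R) = 0 := by
      unfold em
      rw [Finset.card_eq_zero, Finset.filter_eq_empty_iff]
      intro j _ hj
      have h2 : 13 ∣ 13 * q0 + R := (dvd_pow_self 13 (by omega)).trans hj
      omega
    simp only [h1]
    push_cast
    linarith
  · have h1 : 13 * q0 + R + (k + 1) / 2 - 1 = 13 * (q0 + 1) + 0 := by omega
    rw [h1]
    unfold thE
    rw [pl_Lam_block (q0 + 1) 0 (by norm_num)]
    have h2 : em 13 J (13 * (q0 + 1) + 0) = J := by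
      unfold em
      rw [Finset.filter_true_of_mem, Finset.card_range]
      intro j hj
      rw [Finset.mem_range] at hj
      rw [add_zero]
      exact ((pow_dvd_pow 13 (by omega : j + 1 ≤ J)).trans hJd).trans (dvd_mul_left _ _)
    simp only [h2]
    push_cast
    rw [hL (q0 + 1), hL q0, pl_succ, ← hJ]
    push_cast
    have h3 : (k : ℤ) + 1 ≥ 2 * (14 - R) := by omega
    linarith

/-- The choice of the parameters for a row block `q > q0`. -/
theorem pl_auto (hK : SpKK) (hThr : SpThr) (hEp : SpEp) (hEp0 : SpEp0) (hCh : SpChoice)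
    (hS : SpS) {c n k q0 R : ℕ} {e u : ℤ} (hc : c ≤ 5) (hk : 1 ≤ k)
    (he : 12 * (n : ℤ) - D13 c = 182 * q0 + e) (h26 : -26 ≤ e) (h182 : e ≤ 182)
    (hu1 : -14 ≤ u) (hu2 : u ≤ 14) (hu : q0 = 0 → u ≤ n) (h25 : -25 ≤ e - 12 * u)
    (hPP : PP e ≤ PP (e + u) - max 0 u) (hR : R < 13) (heR : e + u ≤ 14 * R)
    (hlow : -240 ≤ e + u - 26 * R)
    (h0 : ∀ r : ℕ, R ≤ r → r < 13 → R + (k + 1) / 2 - 1 = r →
      0 ≤ e + u + 12 * r - 26 * R + 12)
    (h1 : ∀ r : ℕ, r < 13 → R + (k + 1) / 2 - 1 = 13 + r → ∀ δ : ℤ, δ ≤ 1 →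
      (¬ 13 ∣ q0 + 1 → δ ≤ 0) → 0 ≤ e + u + 142 + 12 * r - 26 * R + 12 - 14 * δ) :
    ∃ θ : ℕ → ℤ, Thr 13 14 θ ∧ (B13 c n : ℤ) ≤ SS 13 (D13 c) θ n ∧
      KK θ (13 * (n : ℤ) - D13 c) + (k + 1) / 2 ≤ KK θ (13 * ((n : ℤ) + k) - D13 c) := by
  set i := R + (k + 1) / 2 - 1 with hi
  have hgk : 1 ≤ (k + 1) / 2 := by omega
  set a := i / 13 with ha
  set r := i % 13 with hr
  have hir : i = 13 * a + r := by omega
  have hr13 : r < 13 := Nat.mod_lt _ (by norm_num)
  rcases Nat.eq_zero_or_pos a with h | h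
  · -- the block `q0`
    refine pl_block hK hThr hEp hS (q := q0) (r := r) (w := 0) (s := 0) hc hk he h26 h182 hu1 hu2
      hu h25 hPP hR heR (Or.inl rfl) (pl_ep_zero _ _) (by omega) hr13 ?_
    rw [pl_ep_zero]
    have h2 := h0 r (by omega) hr13 (by omega)
    push_cast
    linarith
  · obtain ⟨w, s, hw, hδ⟩ := hCh q0 (q0 + a) (by omega)
    have hq0 : ep 13 w s q0 = 0 := by
      rcases hw with hw | hw
      · subst hw
        exact pl_ep_zero _ _
      · exact hEp0 13 w s q0 (q0 + 1 + s) (by norm_num) hw (by omega) (by omega)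
    refine pl_block hK hThr hEp hS (q := q0 + a) (r := r) (w := w) (s := s) hc hk he h26 h182 hu1
      hu2 hu h25 hPP hR heR hw hq0 (by omega) hr13 ?_
    rcases Nat.lt_or_ge 1 a with h2 | h2
    · -- two or more blocks
      set δ : ℤ := (padicValNat 13 (q0 + a).factorial : ℤ) - padicValNat 13 q0.factorial -
        ep 13 w s (q0 + a) with hδd
      have h3 : 12 * δ + 1 ≤ 13 * a := by omega
      push_cast
      omega
    · have h3 : a = 1 := by omega
      rw [h3] at hδ ⊢
      set δ : ℤ := (padicValNat 13 (q0 + 1).factorial : ℤ) - padicValNat 13 q0.factorial -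
        ep 13 w s (q0 + 1) with hδd
      have h4 := h1 r hr13 (by omega) δ (by omega) (fun hn => by
        have h5 : padicValNat 13 (q0 + 1) = 0 := padicValNat.eq_zero_of_not_dvd hn
        have h6 := pl_succ q0
        omega)
      push_cast
      linarith

/-- P1. -/
theorem spPotL (hK : SpKK) (hThr : SpThr) (hEp : SpEp) (hEm : SpEm) (hEp0 : SpEp0)
    (hCh : SpChoice) (hPP : SpPP) (hS : SpS) (hSJ : SpSJ) (hE : SpE) : SpPotL := by
  intro c n k hc hn hk
  obtain ⟨q0, e, he, h12, h168, h2⟩ := hE c n hc hn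
  have hD : 0 ≤ D13 c := by
    interval_cases c <;> decide
  have hPPu : ∀ x : ℤ, 156 ≤ x → PP x = x - 78 := hPP.1
  have hPP0 : ∀ x : ℤ, PP x ≤ PP (x + 0) - max 0 0 := fun x => by
    rw [add_zero, max_self, sub_zero]
  have hgk : 1 ≤ (k + 1) / 2 := by omega
  by_cases hA : e ≤ 140 ∨ (146 ≤ e ∧ e ≤ 154)
  · -- the standard case
    obtain ⟨R, hR1, hR2⟩ : ∃ R : ℕ, e ≤ 14 * R ∧ (14 * (R : ℤ) ≤ e + 12 ∨ R = 0) :=
      ⟨((e + 13) / 14).toNat, by omega, by omega⟩
    refine pl_auto hK hThr hEp hEp0 hCh hS (R := R) (u := 0) hc hk he (by omega) (by omega)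
      (by omega) (by omega) (fun _ => by omega) (by omega) (hPP0 e) (by omega) (by omega) (by omega) ?_ ?_
    · intro r hr hr13 _
      omega
    · intro r hr _ δ hδ _
      omega
  · by_cases hB : e = 142 ∨ e = 144
    · by_cases hJ : 13 ∣ q0 + 1 ∧ (k + 1) / 2 = 3
      · refine pl_J hK hThr hEm hSJ (R := 11) (u := 0) hc hk he (by omega) (by omega)
          le_rfl (by omega) hJ.1 (by rw [add_zero, sub_zero]) (by omega) (by omega)
          (by omega) (by omega) (by omega)
      · refine pl_auto hK hThr hEp hEp0 hCh hS (R := 11) (u := 0) hc hk he (by omega) (by omega)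
          (by omega) (by omega) (fun _ => by omega) (by omega) (hPP0 e) (by omega) (by omega) (by omega) ?_ ?_
        · intro r hr hr13 _
          omega
        · intro r hr hri δ hδ hδ0
          by_cases h13 : 13 ∣ q0 + 1
          · have h3 : 1 ≤ r := by
              by_contra h4
              exact hJ ⟨h13, by omega⟩
            omega
          · have := hδ0 h13
            omega
    · -- `156 ≤ e`
      have h156 : 156 ≤ e := by omega
      have he' : 12 * (n : ℤ) - D13 c = 182 * ((q0 + 1 : ℕ) : ℤ) + (e - 182) := by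
        push_cast
        linarith
      by_cases hg1 : (k + 1) / 2 = 1
      · refine pl_auto hK hThr hEp hEp0 hCh hS (R := 12) (u := 0) hc hk he (by omega) (by omega)
          (by omega) (by omega) (fun _ => by omega) (by omega) (hPP0 e) (by omega) (by omega) (by omega) ?_ ?_
        · intro r hr hr13 _
          omega
        · intro r hr hri δ hδ hδ0
          omega
      · by_cases h158 : 158 ≤ e
        · refine pl_auto hK hThr hEp hEp0 hCh hS (q0 := q0 + 1) (e := e - 182) (R := 0) (u := 0) hc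
            hk he' (by omega) (by omega) (by omega) (by omega) (fun _ => by omega) (by omega)
            (hPP0 _) (by omega) (by omega) (by omega) ?_ ?_
          · intro r hr hr13 hri
            omega
          · intro r hr hri δ hδ hδ0
            omega
        · have h156' : e = 156 := by omega
          by_cases hg2 : (k + 1) / 2 = 2
          · have hP : PP e ≤ PP (e + 2) - 2 := by
              rw [hPPu e (by omega), hPPu (e + 2) (by omega)]
              linarith
            by_cases h13 : 13 ∣ q0 + 1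
            · exact pl_J hK hThr hEm hSJ (R := 12) (u := 2) hc hk he (by omega) (by omega)
                (by omega) (by omega) h13 hP (by omega) (by omega) (by omega) (by omega)
                (by omega)
            · refine pl_auto hK hThr hEp hEp0 hCh hS (R := 12) (u := 2) hc hk he (by omega)
                (by omega) (by omega) (by omega) (fun _ => by omega) (by omega)
                (by rw [max_eq_right (by norm_num : (0 : ℤ) ≤ 2)]; exact hP) (by omega)
                (by omega) (by omega) ?_ ?_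
              · intro r hr hr13 _
                omega
              · intro r hr hri δ hδ hδ0
                have := hδ0 h13
                omega
          · refine pl_auto hK hThr hEp hEp0 hCh hS (q0 := q0 + 1) (e := e - 182) (R := 0)
              (u := -1) hc hk he' (by omega) (by omega) (by omega) (by omega)
              (fun _ => by omega) (by omega) ?_ (by omega) (by omega) (by omega) ?_ ?_
            · have h5 : PP (e - 182) = 0 := by
                rw [h156']
                decide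
              have h6 := hPP.2.1 (e - 182 + -1)
              rw [h5, max_eq_left (by norm_num : (-1 : ℤ) ≤ 0)]
              linarith
            · intro r hr hr13 hri
              omega
            · intro r hr hri δ hδ hδ0
              omega

end GH.Trop
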