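import Pool.Agent.GH.Trop.Stm

/-!
# GH13-TROP, row P2: potentials for the columns
-/

noncomputable section

namespace GH.Trop

open GH.CombU

theorem puv_ep (q : ℕ) : ep 13 0 0 q = 0 := by
  unfold ep
  simp

theorem puv_D {c : ℕ} (hc : c ≤ 5) : 0 ≤ D13 c := by
  interval_cases c <;> decide

/-- the thresholds -/
def puvT (n q0 : ℕ) (u : ℤ) : ℕ → ℤ :=
  thE 13 14 (n - 14 * (Lam 13 q0 : ℤ) - u) fun m => ep 13 0 0 (m / 13)

theorem puvT_eq (n q0 : ℕ) (u : ℤ) (m : ℕ) :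
    puvT n q0 u m = n - u + 14 * ((Lam 13 m : ℤ) - Lam 13 q0) := by
  unfold puvT thE
  beta_reduce
  rw [puv_ep]
  push_cast
  ring

theorem puvT_thr (hThr : SpThr) (hEp : SpEp) (n q0 : ℕ) (u : ℤ) : Thr 13 14 (puvT n q0 u) :=
  hThr 13 14 _ _ (by norm_num) fun m a => hEp 13 0 0 m a (by norm_num)

theorem puv_val (q0 : ℕ) (h : q0 ≠ 0) : 12 * padicValNat 13 q0.factorial + 1 ≤ q0 := by
  have := sub_one_mul_padicValNat_factorial_lt_of_ne_zero (p := 13) h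
  omega

/-- the condition on the first threshold -/
theorem puv_pos {c n q0 : ℕ} {e u : ℤ} (hc : c ≤ 5) (hn : 1 ≤ n)
    (h : 12 * (n : ℤ) - D13 c = 182 * q0 + e) (he : -12 ≤ e) (hu : u ≤ 1 ∨ (u ≤ 2 ∧ 13 ≤ e)) :
    0 ≤ n - 14 * (Lam 13 q0 : ℤ) - u - 14 * ep 13 0 0 0 + D13 c := by
  have hD := puv_D hc
  rw [puv_ep]
  unfold Lam
  rcases Nat.eq_zero_or_pos q0 with h0 | h0
  · subst h0
    have h1 : padicValNat 13 (Nat.factorial 0) = 0 := by simp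
    rw [h1]
    push_cast at h ⊢
    omega
  · have h1 := puv_val q0 (by omega)
    generalize padicValNat 13 q0.factorial = v at h1 ⊢
    push_cast
    omega

theorem puv_tabU : ∀ e ∈ Finset.Icc (-12 : ℤ) 168, 2 ∣ e →
    PP e ≤ PP (e + -1) - max 0 (-1) ∨ PP e ≤ PP (e + 1) - max 0 1 := by
  decide +kernel

theorem puv_tabV : ∀ e ∈ Finset.Icc (-12 : ℤ) 168, 2 ∣ e →
    2 * PP e < PP (e - 12) + PP (e + 12) →
    PP e ≤ PP (e + -2) - max 0 (-2) ∨ (PP e ≤ PP (e + 2) - max 0 2 ∧ 13 ≤ e) := by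
  decide +kernel

theorem spPotU (hE : SpE) (hThr : SpThr) (hEp : SpEp) (hS : SpS) : SpPotU := by
  intro c n hc hn
  obtain ⟨q0, e, h1, h2, h3, h4⟩ := hE c n hc hn
  obtain ⟨u, hu1, hu2⟩ : ∃ u : ℤ, (u = -1 ∨ u = 1) ∧ PP e ≤ PP (e + u) - max 0 u := by
    rcases puv_tabU e (Finset.mem_Icc.2 ⟨h2, h3⟩) h4 with h | h
    · exact ⟨-1, Or.inl rfl, h⟩
    · exact ⟨1, Or.inr rfl, h⟩
  refine ⟨puvT n q0 u, puvT_thr hThr hEp n q0 u, ?_, fun m => ?_⟩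
  · exact hS c n q0 0 0 e u hc h1 (by omega) (by omega) (by omega) (by omega) (Or.inl rfl) hu2
      (puv_pos hc hn h1 h2 (by omega))
  · rw [puvT_eq]
    omega

theorem puv_vertex (hB : SpB) {c n q0 : ℕ} {e : ℤ} (hc : c ≤ 5) (hn : 1 ≤ n)
    (h : 12 * (n : ℤ) - D13 c = 182 * q0 + e) (he : -12 ≤ e) (he' : e ≤ 168)
    (hv : 2 * B13 c n < B13 c (n - 1) + B13 c (n + 1)) :
    2 * PP e < PP (e - 12) + PP (e + 12) := by
  have e0 := hB c n q0 e hc h (by omega) (by omega)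
  have e1 := hB c (n - 1) q0 (e - 12) hc (by rw [Nat.cast_sub hn]; push_cast; omega)
    (by omega) (by omega)
  have e2 := hB c (n + 1) q0 (e + 12) hc (by push_cast; omega) (by omega) (by omega)
  have h1 : 2 * (B13 c n : ℤ) < B13 c (n - 1) + B13 c (n + 1) := by exact_mod_cast hv
  rw [e0, e1, e2] at h1
  have h2 : ∑ q ∈ Finset.range q0, (e - 12 + 182 * ((q0 : ℤ) - q) - 78) +
      ∑ q ∈ Finset.range q0, (e + 12 + 182 * ((q0 : ℤ) - q) - 78) =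
      2 * ∑ q ∈ Finset.range q0, (e + 182 * ((q0 : ℤ) - q) - 78) := by
    rw [← Finset.sum_add_distrib, Finset.mul_sum]
    exact Finset.sum_congr rfl fun q _ => by ring
  linarith

theorem spPotV (hE : SpE) (hThr : SpThr) (hEp : SpEp) (hS : SpS) (hB : SpB) : SpPotV := by
  intro c n hc hn hv
  obtain ⟨q0, e, h1, h2, h3, h4⟩ := hE c n hc hn
  have h5 := puv_vertex hB hc hn h1 h2 h3 hv
  obtain ⟨u, hu1, hu2⟩ : ∃ u : ℤ, (u = -2 ∨ (u = 2 ∧ 13 ≤ e)) ∧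
      PP e ≤ PP (e + u) - max 0 u := by
    rcases puv_tabV e (Finset.mem_Icc.2 ⟨h2, h3⟩) h4 h5 with h | h
    · exact ⟨-2, Or.inl rfl, h⟩
    · exact ⟨2, Or.inr ⟨rfl, h.2⟩, h.1⟩
  refine ⟨puvT n q0 u, puvT_thr hThr hEp n q0 u, ?_, fun m => ?_⟩
  · exact hS c n q0 0 0 e u hc h1 (by omega) (by omega) (by omega) (by omega) (Or.inl rfl) hu2
      (puv_pos hc hn h1 h2 (by omega))
  · rw [puvT_eq]
    omega

end GH.Trop
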