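import Pool.Agent.GH.Trop.Row

/-!
# GH13-TROP-R2: root dominance for `p = 13`
-/

open Polynomial

noncomputable section

namespace GH.Trop

open GH.CombU

/-! ### Scaling -/

theorem rt_ne (k : ℕ) : (C ((13 : ℤ_[13]) ^ k) : ℤ_[13][X]) ≠ 0 := by
  rw [Ne, C_eq_zero]
  exact pow_ne_zero _ (by norm_num)

theorem rt_le {k l : ℕ} {P : ℤ_[13][X]} (hkl : k ≤ l) (h : C ((13 : ℤ_[13]) ^ l) ∣ P) :
    C ((13 : ℤ_[13]) ^ k) ∣ P :=
  (_root_.map_dvd C (pow_dvd_pow _ hkl)).trans h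

theorem rt_cancel {s t k m : ℕ} {x y : ℤ_[13][X]}
    (h : C ((13 : ℤ_[13]) ^ s) * x = C ((13 : ℤ_[13]) ^ t) * y)
    (hy : C ((13 : ℤ_[13]) ^ k) ∣ y) (hm : m + s ≤ t + k) : C ((13 : ℤ_[13]) ^ m) ∣ x := by
  have h1 : C ((13 : ℤ_[13]) ^ (t + k)) ∣ C ((13 : ℤ_[13]) ^ s) * x := by
    rw [h, pow_add, map_mul]
    exact mul_dvd_mul_left _ hy
  have h2 := rt_le hm h1
  rw [add_comm, pow_add, map_mul] at h2
  exact (mul_dvd_mul_iff_left (rt_ne s)).1 h2

theorem rt_scale {PM PS : ℕ → ℕ → ℤ_[13][X]} {g : ℕ → ℕ}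
    (h : ∀ i j, C ((13 : ℤ_[13]) ^ g i) * PS i j = C ((13 : ℤ_[13]) ^ g j) * PM i j)
    {n : ℕ} (a b : Fin n → ℕ) :
    C ((13 : ℤ_[13]) ^ ∑ i, g (a i)) * Pot.minor PS a b =
      C ((13 : ℤ_[13]) ^ ∑ i, g (b i)) * Pot.minor PM a b := by
  have h1 := Matrix.det_mul_column (fun i : Fin n => C ((13 : ℤ_[13]) ^ g (a i)))
    (Matrix.of fun i j : Fin n => PS (a i) (b j))
  have h2 := Matrix.det_mul_row (fun j : Fin n => C ((13 : ℤ_[13]) ^ g (b j)))
    (Matrix.of fun i j : Fin n => PM (a i) (b j))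
  rw [← map_prod, Finset.prod_pow_eq_pow_sum] at h1 h2
  unfold Pot.minor
  rw [← h1, ← h2]
  congr 1
  ext i j
  rw [Matrix.of_apply, Matrix.of_apply, Matrix.of_apply, Matrix.of_apply]
  rw [h]

theorem rt_sum_idf {A : Type*} [AddCommMonoid A] (f : ℕ → A) (n : ℕ) :
    ∑ j : Fin n, f (idf n j) = ∑ j ∈ Finset.range n, f j :=
  Fin.sum_univ_eq_sum_range f n

theorem rt_sum_up {A : Type*} [AddCommMonoid A] (f : ℕ → A) (n i : ℕ) :
    ∑ j : Fin (n + 1), f (up n i j) = ∑ j ∈ Finset.range n, f j + f i := by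
  rw [Fin.sum_univ_castSucc]
  congr 1
  · rw [← Fin.sum_univ_eq_sum_range f n]
    refine Finset.sum_congr rfl fun k _ => ?_
    unfold up
    rw [Fin.val_castSucc, if_pos k.2]
  · unfold up
    rw [Fin.val_last, if_neg (lt_irrefl n)]

theorem rt_lead (M : ℕ → ℕ → ℤ_[13][X]) (n : ℕ) : Pot.lead M n = Pot.minor M (idf n) (idf n) :=
  rfl

/-! ### Thresholds -/

theorem rt_thr {θ : ℕ → ℤ} (hθ : Thr 13 14 θ) (m l : ℕ) : θ m + 14 * l ≤ θ (m + l) := by
  have h := hθ m l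
  have h1 : (l : ℤ) ≤ Lam 13 l := by
    exact_mod_cast Nat.le_add_right _ _
  push_cast at h
  linarith

/-- A sum over `n` distinct indices, one of them `≥ n`. -/
theorem rt_sum_inj {n : ℕ} {b : Fin n → ℕ} (hb : Function.Injective b) (hn : ∃ i, n ≤ b i)
    {c : ℕ → ℤ} {γ : ℤ} (h1 : ∀ l < n, c l ≤ γ) (h2 : ∀ l, n ≤ l → γ + 1 ≤ c l) :
    ∑ l ∈ Finset.range n, c l + 1 ≤ ∑ j, c (b j) := by
  classical
  set F : Finset ℕ := Finset.univ.image b with hF
  have hcard : F.card = n := by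
    rw [hF, Finset.card_image_of_injective _ hb, Finset.card_univ, Fintype.card_fin]
  have hsum : ∑ j, c (b j) = ∑ l ∈ F, c l := by
    rw [hF, Finset.sum_image fun x _ y _ h => hb h]
  rw [hsum]
  have e1 := Finset.sum_inter_add_sum_sdiff F (Finset.range n) c
  have e2 := Finset.sum_inter_add_sum_sdiff (Finset.range n) F c
  have e3 := Finset.card_sdiff_add_card_inter F (Finset.range n)
  have e4 := Finset.card_sdiff_add_card_inter (Finset.range n) F
  rw [Finset.inter_comm (Finset.range n) F] at e2 e4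
  rw [hcard] at e3
  rw [Finset.card_range] at e4
  have h3 : (F \ Finset.range n).card * (γ + 1) ≤ ∑ l ∈ F \ Finset.range n, c l := by
    rw [← nsmul_eq_mul]
    refine Finset.card_nsmul_le_sum _ _ _ fun l hl => ?_
    rw [Finset.mem_sdiff, Finset.mem_range, not_lt] at hl
    exact h2 l hl.2
  have h4 : ∑ l ∈ Finset.range n \ F, c l ≤ (Finset.range n \ F).card * γ := by
    rw [← nsmul_eq_mul]
    refine Finset.sum_le_card_nsmul _ _ _ fun l hl => ?_
    rw [Finset.mem_sdiff, Finset.mem_range] at hl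
    exact h1 l hl.1
  obtain ⟨i, hi⟩ := hn
  have h5 : 1 ≤ (F \ Finset.range n).card := by
    rw [Nat.one_le_iff_ne_zero, Finset.card_ne_zero]
    refine ⟨b i, ?_⟩
    rw [Finset.mem_sdiff, Finset.mem_range, not_lt]
    exact ⟨Finset.mem_image_of_mem _ (Finset.mem_univ i), hi⟩
  have h6 : (F \ Finset.range n).card = (Finset.range n \ F).card := by omega
  rw [h6] at h3 h5
  have h7 : (1 : ℤ) ≤ (Finset.range n \ F).card := by exact_mod_cast h5
  nlinarith

/-- The bound of the minors from a potential. -/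
theorem rt_min (hMin : SpMin) {c I : ℕ} {N : ℕ → ℕ → ℤ_[13][X]}
    (hN : ∀ i j k : ℕ, i < I →
      (∀ m < k, (14 * Lam 13 m : ℤ) + D13 c < 13 * ((i : ℤ) + 1) - (j + 1)) →
      C ((13 : ℤ_[13]) ^ k) ∣ N i j) {θ : ℕ → ℤ} (hθ : Thr 13 14 θ) {n : ℕ} (k : ℤ)
    (a b : Fin n → ℕ) (ha : ∀ i, a i < I)
    (h : k + ∑ j, (KK θ ((b j : ℤ) + 1) : ℤ) ≤
      ∑ i, (KK θ (13 * ((a i : ℤ) + 1) - D13 c) : ℤ)) :
    C ((13 : ℤ_[13]) ^ k.toNat) ∣ Pot.minor N a b := by
  rcases le_or_gt k 0 with hk | hk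
  · rw [Int.toNat_of_nonpos hk, pow_zero, map_one]
    exact one_dvd _
  · have e13 : ((13 : ℕ) : ℤ_[13]) = 13 := Nat.cast_ofNat
    have h1 := hMin 13 14 I (D13 c) N θ (by norm_num) hθ (fun i j k hi hk => by
      rw [e13]
      refine hN i j k hi fun m hm => ?_
      have := hk m hm
      push_cast at this
      exact this) n k.toNat a b ha (by
        rw [Int.toNat_of_nonneg hk.le]
        push_cast
        exact h)
    rw [e13] at h1
    exact h1

section

variable {c : ℕ} {PM : ℕ → ℕ → ℤ_[13][X]}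

/-- The rows `0, …, n, i`, unscaled. -/
theorem rt_L (hMin : SpMin) (hL : SpPotL) (hc : c ≤ 5) (hF : RowF c PM) {n i : ℕ} (hi : n < i) :
    C ((13 : ℤ_[13]) ^ (B13 c (n + 1) + (i - n + 1) / 2)) ∣
      Pot.minor PM (up n i) (idf (n + 1)) := by
  obtain ⟨W, N, hW0, hW, hN, hPM⟩ := hF (i + 1)
  rw [rowT PM N (fun i k => W (i - k)) (i + 1) (fun i _ => by
    show W (i - i) = 1
    rw [Nat.sub_self, hW0]) hPM n i _ hi.le (Nat.lt_succ_self i)]
  refine Finset.dvd_sum fun k hk => ?_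
  rw [Finset.mem_Icc] at hk
  obtain ⟨hnk, hki⟩ := hk
  have key : C ((13 : ℤ_[13]) ^ (B13 c (n + 1) + (k - n + 1) / 2)) ∣
      Pot.minor N (up n k) (idf (n + 1)) := by
    rcases Nat.eq_or_lt_of_le hnk with h | h
    · subst h
      obtain ⟨θ, hθ, hS, -⟩ := hL c (n + 1) 1 hc (by omega) (by norm_num)
      have h1 := rt_min hMin hN hθ (B13 c (n + 1)) (up n n) (idf (n + 1)) (fun j => by
        unfold up
        have := j.2
        split_ifs <;> omega) (by
        rw [rt_sum_idf (fun j => (KK θ ((j : ℤ) + 1) : ℤ)),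
          rt_sum_up (fun j => (KK θ (13 * ((j : ℤ) + 1) - D13 c) : ℤ)), ← Finset.sum_range_succ
            (fun j : ℕ => (KK θ (13 * ((j : ℤ) + 1) - D13 c) : ℤ))]
        unfold SS at hS
        rw [Finset.sum_sub_distrib] at hS
        push_cast at hS
        linarith)
      rw [Int.toNat_natCast] at h1
      rw [Nat.sub_self]
      exact h1
    · obtain ⟨θ, hθ, hS, hg⟩ := hL c (n + 1) (k - n) hc (by omega) (by omega)
      have h1 := rt_min hMin hN hθ ((B13 c (n + 1) + (k - n + 1) / 2 : ℕ) : ℤ) (up n k)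
        (idf (n + 1)) (fun j => by
        unfold up
        have := j.2
        split_ifs <;> omega) (by
        rw [rt_sum_idf (fun j => (KK θ ((j : ℤ) + 1) : ℤ)),
          rt_sum_up (fun j => (KK θ (13 * ((j : ℤ) + 1) - D13 c) : ℤ))]
        unfold SS at hS
        rw [Finset.sum_sub_distrib, Finset.sum_range_succ
          (fun j : ℕ => (KK θ (((13 : ℕ) : ℤ) * ((j : ℤ) + 1) - D13 c) : ℤ))] at hS
        have h2 : (((n + 1 : ℕ) : ℤ) + ((k - n : ℕ) : ℤ)) = (k : ℤ) + 1 := by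
          omega
        rw [h2] at hg
        push_cast at hS hg ⊢
        have h3 : ((KK θ (13 * ((n : ℤ) + 1) - D13 c) : ℕ) : ℤ) + ((k - n + 1 : ℕ) : ℤ) / 2 ≤
            (KK θ (13 * ((k : ℤ) + 1) - D13 c) : ℤ) := by
          exact_mod_cast hg
        push_cast at h3
        linarith)
      rw [Int.toNat_natCast] at h1
      exact h1
  have h2 : C ((13 : ℤ_[13]) ^ ((i - k + 1) / 2 + (B13 c (n + 1) + (k - n + 1) / 2))) ∣
      W (i - k) * Pot.minor N (up n k) (idf (n + 1)) := by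
    rw [pow_add, map_mul]
    exact mul_dvd_mul (hW _) key
  exact rt_le (by omega) h2

/-- The columns `0, …, n, j`, unscaled. -/
theorem rt_U (hK : SpKK) (hMin : SpMin) (hU : SpPotU) (hc : c ≤ 5) (hF : RowF c PM) {n j : ℕ}
    (hj : n < j) :
    C ((13 : ℤ_[13]) ^ (B13 c (n + 1) - (j - n) / 2)) ∣
      Pot.minor PM (idf (n + 1)) (up n j) := by
  obtain ⟨W, N, hW0, hW, hN, hPM⟩ := hF (n + 1)
  rw [rowT_one PM N (fun i k => W (i - k)) (n + 1) (fun i _ => by
    show W (i - i) = 1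
    rw [Nat.sub_self, hW0]) hPM (n + 1) _ le_rfl]
  obtain ⟨θ, hθ, hS, hne⟩ := hU c (n + 1) hc (by omega)
  have hKθ := hK 13 14 θ (by norm_num) (by norm_num) hθ
  have h1 : KK θ ((j : ℤ) + 1) ≤ KK θ ((n : ℤ) + 1) + (j - n) / 2 := by
    rw [hKθ]
    have h2 := (hKθ ((n : ℤ) + 1) _).1 le_rfl
    have h3 := hne (KK θ ((n : ℤ) + 1))
    have h4 := rt_thr hθ (KK θ ((n : ℤ) + 1)) ((j - n) / 2)
    push_cast at h3 h4
    omega
  have h5 := rt_min hMin hN hθ ((B13 c (n + 1) : ℤ) - ((j - n) / 2 : ℕ)) (idf (n + 1))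
    (up n j) (fun j => j.2) (by
    rw [rt_sum_idf (fun j => (KK θ (13 * ((j : ℤ) + 1) - D13 c) : ℤ)),
      rt_sum_up (fun j => (KK θ ((j : ℤ) + 1) : ℤ))]
    unfold SS at hS
    rw [Finset.sum_sub_distrib, Finset.sum_range_succ
      (fun j : ℕ => (KK θ ((j : ℤ) + 1) : ℤ))] at hS
    push_cast at hS
    have h6 : (KK θ ((j : ℤ) + 1) : ℤ) ≤ KK θ ((n : ℤ) + 1) + ((j - n) / 2 : ℕ) := by
      exact_mod_cast h1
    linarith)
  exact rt_le (by omega) h5

/-- The rows `0, …, n-1` and any columns, one of them `≥ n`, in one of the two scalings. -/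
theorem rt_V (hK : SpKK) (hMin : SpMin) (hV : SpPotV) (hc : c ≤ 5) (hF : RowF c PM) {n : ℕ}
    (hn : 1 ≤ n) (hvx : 2 * B13 c n < B13 c (n - 1) + B13 c (n + 1)) (b : Fin n → ℕ)
    (hb : ∃ i, n ≤ b i) : ∃ k : ℕ, C ((13 : ℤ_[13]) ^ k) ∣ Pot.minor PM (idf n) b ∧
      B13 c n + 1 + ∑ j ∈ Finset.range n, gm ((n + 1) % 2) j ≤
        ∑ j, gm ((n + 1) % 2) (b j) + k := by
  classical
  by_cases hinj : Function.Injective b
  swap
  · have h1 : Pot.minor PM (idf n) b = 0 := by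
      unfold Function.Injective at hinj
      push Not at hinj
      obtain ⟨i, j, hij, hne⟩ := hinj
      exact Matrix.det_zero_of_column_eq hne fun k => by
        rw [Matrix.of_apply, Matrix.of_apply, hij]
    exact ⟨B13 c n + 1 + ∑ j ∈ Finset.range n, gm ((n + 1) % 2) j, by rw [h1]; exact dvd_zero _,
      Nat.le_add_left _ _⟩
  obtain ⟨W, N, hW0, hW, hN, hPM⟩ := hF n
  rw [rowT_one PM N (fun i k => W (i - k)) n (fun i _ => by
    show W (i - i) = 1
    rw [Nat.sub_self, hW0]) hPM n _ le_rfl]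
  obtain ⟨θ, hθ, hS, hne⟩ := hV c n hc hn hvx
  have hKθ := hK 13 14 θ (by norm_num) (by norm_num) hθ
  set eps := (n + 1) % 2 with heps
  have hsum := rt_sum_inj hinj hb (c := fun l => (gm eps l : ℤ) - KK θ ((l : ℤ) + 1))
    (γ := (gm eps (n - 1) : ℤ) - KK θ n) (fun l hl => by
      have h1 : KK θ n ≤ KK θ ((l : ℤ) + 1) + (n - 1 - l) / 2 := by
        rw [hKθ]
        have h2 := (hKθ ((l : ℤ) + 1) _).1 le_rfl
        have h3 := (hne (KK θ ((l : ℤ) + 1))).2.1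
        have h4 := rt_thr hθ (KK θ ((l : ℤ) + 1)) ((n - 1 - l) / 2)
        push_cast at h4
        omega
      have h5 : gm eps l + (n - 1 - l) / 2 ≤ gm eps (n - 1) := by
        unfold gm
        omega
      show (gm eps l : ℤ) - KK θ ((l : ℤ) + 1) ≤ _
      omega) (fun l hl => by
      have h1 : KK θ ((l : ℤ) + 1) ≤ KK θ n + (l - n) / 2 := by
        rw [hKθ]
        have h2 := (hKθ (n : ℤ) _).1 le_rfl
        have h3 := (hne (KK θ n)).1
        have h3' := (hne (KK θ n)).2.2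
        have h4 := rt_thr hθ (KK θ n) ((l - n) / 2)
        push_cast at h4
        omega
      have h5 : gm eps (n - 1) + (l - n) / 2 + 1 ≤ gm eps l := by
        unfold gm
        omega
      show _ ≤ (gm eps l : ℤ) - KK θ ((l : ℤ) + 1)
      omega)
  rw [Finset.sum_sub_distrib, Finset.sum_sub_distrib] at hsum
  refine ⟨_, rt_min hMin hN hθ ((B13 c n : ℤ) + 1 + ∑ j ∈ Finset.range n, (gm eps j : ℤ) -
    ∑ j, (gm eps (b j) : ℤ)) (idf n) b (fun j => j.2) ?_, ?_⟩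
  · rw [rt_sum_idf (fun j => (KK θ (13 * ((j : ℤ) + 1) - D13 c) : ℤ))]
    unfold SS at hS
    rw [Finset.sum_sub_distrib] at hS
    push_cast at hS
    linarith
  · have h1 := Int.self_le_toNat ((B13 c n : ℤ) + 1 + ∑ j ∈ Finset.range n, (gm eps j : ℤ) -
      ∑ j, (gm eps (b j) : ℤ))
    have h2 : (B13 c n : ℤ) + 1 + ∑ j ∈ Finset.range n, (gm eps j : ℤ) ≤
        ∑ j, (gm eps (b j) : ℤ) + (((B13 c n : ℤ) + 1 + ∑ j ∈ Finset.range n, (gm eps j : ℤ) -
      ∑ j, (gm eps (b j) : ℤ)).toNat : ℤ) := by linarith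
    exact_mod_cast h2

end

/-- **Root dominance for `p = 13`.** -/
theorem spRoot (hK : SpKK) (hMin : SpMin) (hL : SpPotL) (hU : SpPotU) (hV : SpPotV)
    (hConv : SpConv) (hLDU : SpLDU) : SpRoot := by
  intro c PM PS hc hF hlead hPS
  have e13 : ((13 : ℕ) : ℤ_[13]) = 13 := Nat.cast_ofNat
  -- the leading minors do not change
  have hsame : ∀ eps ≤ 1, ∀ (n : ℕ) (a : Fin n → ℕ),
      Pot.minor (PS eps) a a = Pot.minor PM a a := by
    intro eps heps n a
    exact mul_left_cancel₀ (rt_ne _) (rt_scale (hPS eps · · heps) a a)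
  have main : ∀ eps ≤ 1, (∀ (n : ℕ) (a b : Fin n → ℕ),
      C ((13 : ℤ_[13]) ^ B13 c n) ∣ Pot.minor (PS eps) a b) ∧
      ∀ n : ℕ, 2 * B13 c (n + 1) < B13 c n + B13 c (n + 2) →
        (∀ b : Fin (n + 1) → ℕ, (∃ i, n + 1 ≤ b i) →
          C ((13 : ℤ_[13]) ^ (B13 c (n + 1) + 1)) ∣ Pot.minor (PS eps) (idf (n + 1)) b) →
        ∀ a b : Fin (n + 1) → ℕ, (∃ i, n + 1 ≤ b i) →
          C ((13 : ℤ_[13]) ^ (B13 c (n + 1) + 1)) ∣ Pot.minor (PS eps) a b := by
    intro eps heps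
    have h := hLDU 13 (PS eps) (B13 c) (hConv c hc).1 (hConv c hc).2
    rw [e13] at h
    refine h (fun n => ?_) (fun n j hj => ?_) (fun n i hi => ?_)
    · rw [rt_lead, hsame eps heps, ← rt_lead]
      exact hlead n
    · have h1 := rt_scale (hPS eps · · heps) (idf (n + 1)) (up n j)
      rw [rt_sum_idf (gm eps), rt_sum_up (gm eps), Finset.sum_range_succ] at h1
      refine rt_cancel h1 (rt_U hK hMin hU hc hF hj) ?_
      unfold gm
      omega
    · have h1 := rt_scale (hPS eps · · heps) (up n i) (idf (n + 1))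
      rw [rt_sum_idf (gm eps), rt_sum_up (gm eps), Finset.sum_range_succ] at h1
      refine rt_cancel h1 (rt_L hMin hL hc hF hi) ?_
      unfold gm
      omega
  intro eps heps
  refine ⟨(main eps heps).1, ?_⟩
  intro n a hn hvx ha
  obtain ⟨m, rfl⟩ : ∃ m, n = m + 1 := ⟨n - 1, by omega⟩
  have h2 : (m + 1 + 1) % 2 ≤ 1 := by omega
  have h3 := (main _ h2).2 m hvx (fun b hb => by
    obtain ⟨k, hk, hk2⟩ := rt_V hK hMin hV hc hF hn hvx b hb
    have h4 := rt_scale (hPS _ · · h2) (idf (m + 1)) b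
    rw [rt_sum_idf (gm ((m + 1 + 1) % 2))] at h4
    exact rt_cancel h4 hk (by omega)) a a ha
  rw [hsame _ h2] at h3
  rw [hsame eps heps]
  exact h3

end GH.Trop
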