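import Pool.Agent.GH.Trop.Stm

/-!
# GH13-TROP, row S5: the value of block potentials
-/

open Polynomial

noncomputable section

namespace GH.Trop

open GH.CombU

theorem val_lam_succ (p m : ℕ) [Fact p.Prime] :
    Lam p (m + 1) = Lam p m + 1 + padicValNat p (m + 1) := by
  unfold Lam
  have h : padicValNat p (m + 1).factorial = padicValNat p (m + 1) +
      padicValNat p m.factorial := by
    rw [Nat.factorial_succ]
    exact padicValNat.mul (Nat.succ_ne_zero m) (Nat.factorial_ne_zero m)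
  rw [h]
  omega

theorem val_lam_add (p m k : ℕ) [Fact p.Prime] : Lam p m + k ≤ Lam p (m + k) := by
  induction k with
  | zero => exact le_refl _
  | succ k ih =>
    have h := val_lam_succ p (m + k)
    have h1 : m + (k + 1) = m + k + 1 := rfl
    rw [h1, h]
    omega

theorem val_lam_block (q r : ℕ) (hr : r < 13) : Lam 13 (13 * q + r) = 13 * q + r + Lam 13 q := by
  unfold Lam
  rw [padicValNat_factorial_mul_add q hr, padicValNat_factorial_mul]
  omega

theorem val_ep_le (p w s q : ℕ) : ep p w s q ≤ w := by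
  unfold ep
  refine Finset.sup_le fun V hV => ?_
  have := Finset.mem_range.1 hV
  exact (Nat.sub_le _ _).trans (by omega)

theorem val_ep_zero (p s q : ℕ) : ep p 0 s q = 0 := Nat.le_zero.1 (val_ep_le p 0 s q)

theorem val_blocks (f : ℕ → ℤ) (M : ℕ) : ∑ m ∈ Finset.range (13 * M), f m =
    ∑ q ∈ Finset.range M, ∑ r ∈ Finset.range 13, f (13 * q + r) := by
  induction M with
  | zero => simp
  | succ M ih =>
    rw [Nat.mul_succ, Finset.sum_range_add, ih, Finset.sum_range_succ
      (fun q => ∑ r ∈ Finset.range 13, f (13 * q + r)) M]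

theorem spS (hK : SpKK) (hThr : SpThr) (hE : SpEp) (h0 : SpEp0) (hsum : SpEpSum) (hR : SpRows)
    (hC : SpCols) (hP : SpPP) (hB : SpB) : SpS := by
  have _ := hK
  intro c n q0 w s e u hc hn he1 he2 hu1 hu2 hw hPe hth
  have hp : Nat.Prime 13 := by norm_num
  obtain ⟨D, hD⟩ : ∃ D : ℤ, D = D13 c := ⟨_, rfl⟩
  obtain ⟨E, hEd⟩ : ∃ E : ℕ → ℕ, E = ep 13 w s := ⟨_, rfl⟩
  obtain ⟨L, hL⟩ : ∃ L : ℕ → ℕ, L = Lam 13 := ⟨_, rfl⟩
  obtain ⟨θ, hθ⟩ : ∃ θ : ℕ → ℤ, θ = thE 13 14 (n - 14 * (Lam 13 q0 : ℤ) - u)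
    fun m => ep 13 w s (m / 13) := ⟨_, rfl⟩
  have hθm : ∀ m, θ m = n - 14 * (L q0 : ℤ) - u + 14 * L m - 14 * E (m / 13) := by
    intro m
    rw [hθ, hL, hEd]
    unfold thE
    push_cast
    ring
  have hT : Thr 13 14 θ := by
    rw [hθ]
    exact hThr 13 14 _ _ hp fun m a => hE 13 w s m a hp
  have hLb : ∀ q r, r < 13 → L (13 * q + r) = 13 * q + r + L q := by
    intro q r hr
    rw [hL]
    exact val_lam_block q r hr
  have hLa : ∀ m k, L m + k ≤ L (m + k) := by
    intro m k
    rw [hL]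
    exact val_lam_add 13 m k
  have hLlt : ∀ m m', m < m' → (L m : ℤ) + (m' - m) ≤ L m' := by
    intro m m' h
    have h1 := hLa m (m' - m)
    rw [Nat.add_sub_cancel' h.le] at h1
    have h2 : ((m' - m : ℕ) : ℤ) = (m' : ℤ) - m := by
      rw [Nat.cast_sub h.le]
    have h3 : ((L m : ℕ) : ℤ) + ((m' - m : ℕ) : ℤ) ≤ L m' := by exact_mod_cast h1
    rw [h2] at h3
    exact h3
  have hEw : ∀ q, E q ≤ w := by
    intro q
    rw [hEd]
    exact val_ep_le 13 w s q
  -- the choice of `Q`
  obtain ⟨Q, hQ1, hQn, hQs⟩ : ∃ Q : ℕ, q0 < Q ∧ (n : ℤ) ≤ θ Q ∧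
      ∑ q ∈ Finset.range q0, (E q : ℤ) = ∑ m ∈ Finset.range Q, (E (m / 13) : ℤ) := by
    rcases hw with hw | hw
    · refine ⟨q0 + 1, Nat.lt_succ_self q0, ?_, ?_⟩
      · rw [hθm]
        have h1 := hEw ((q0 + 1) / 13)
        rw [hw] at h1
        have h2 := hLa q0 1
        have h3 : ((E ((q0 + 1) / 13) : ℕ) : ℤ) = 0 := by
          exact_mod_cast Nat.le_zero.1 h1
        have h4 : (L q0 : ℤ) + 1 ≤ L (q0 + 1) := by exact_mod_cast h2
        rw [h3]
        linarith
      · have h1 : ∀ q, (E q : ℤ) = 0 := by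
          intro q
          have := hEw q
          rw [hw] at this
          exact_mod_cast Nat.le_zero.1 this
        simp only [h1, Finset.sum_const_zero]
    · refine ⟨q0 + 1 + s, by omega, ?_, ?_⟩
      · rw [hθm]
        have h1 : w + 1 ≤ padicValNat 13 (q0 + 1 + s) :=
          (padicValNat_dvd_iff_le (by omega)).1 hw
        have h2 : L (q0 + 1 + s) = L (q0 + s) + 1 + padicValNat 13 (q0 + 1 + s) := by
          rw [hL]
          have h3 : q0 + 1 + s = q0 + s + 1 := by omega
          rw [h3]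
          exact val_lam_succ 13 (q0 + s)
        have h3 := hLa q0 s
        have h4 := hEw ((q0 + 1 + s) / 13)
        have h5 : L q0 + 1 + (w + 1) ≤ L (q0 + 1 + s) := by omega
        have h6 : (L q0 : ℤ) + 1 + (w + 1) ≤ L (q0 + 1 + s) := by exact_mod_cast h5
        have h7 : (E ((q0 + 1 + s) / 13) : ℤ) ≤ w := by exact_mod_cast h4
        linarith
      · have h1 := hsum 13 w s (q0 + 1 + s) hp hw
        rw [← hEd] at h1
        have h2 : ∑ q ∈ Finset.range (q0 + 1 + s), E q = ∑ q ∈ Finset.range q0, E q := by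
          rw [add_assoc, Finset.sum_range_add]
          have h3 : ∑ x ∈ Finset.range (1 + s), E (q0 + x) = 0 := by
            refine Finset.sum_eq_zero fun x hx => ?_
            have h4 := Finset.mem_range.1 hx
            rw [hEd]
            exact h0 13 w s (q0 + x) (q0 + 1 + s) hp hw (by omega) (by omega)
          rw [h3, add_zero]
        rw [h2] at h1
        exact_mod_cast h1
  -- rows
  have hrow := hR 13 14 n (13 * (q0 + 1)) D θ hp (by norm_num) hT (by
    rw [hθm, hL, hEd, hD]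
    have h1 : Lam 13 0 = 0 := by
      unfold Lam
      simp
    rw [h1, Nat.zero_div]
    push_cast
    linarith)
  have hcol := hC 13 14 n Q θ hp (by norm_num) hT hQn
  have hrow' : ∑ m ∈ Finset.range (13 * (q0 + 1)),
      max 0 ((((13 : ℕ) : ℤ) * n - D - θ m + (((13 : ℕ) : ℤ) - 1)) / ((13 : ℕ) : ℤ)) =
      ∑ q ∈ Finset.range (q0 + 1),
        PP (e + 182 * ((q0 : ℤ) - q) + 14 * ((L q0 : ℤ) - L q) + u + 14 * E q) := by
    rw [val_blocks]
    refine Finset.sum_congr rfl fun q _ => ?_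
    unfold PP
    refine Finset.sum_congr rfl fun r hr => ?_
    have hr' := Finset.mem_range.1 hr
    have h1 : (13 * q + r) / 13 = q := by omega
    rw [hθm, hLb q r hr', h1]
    have h2 : ((13 : ℕ) : ℤ) = 13 := by norm_num
    rw [h2]
    congr 2
    push_cast
    rw [← hD] at hn
    linear_combination hn
  rw [hrow', Finset.sum_range_succ] at hrow
  obtain ⟨hP1, hP2, hP3⟩ := hP
  have hq : ∀ q ∈ Finset.range q0,
      PP (e + 182 * ((q0 : ℤ) - q) + 14 * ((L q0 : ℤ) - L q) + u + 14 * E q) =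
      (e + 182 * ((q0 : ℤ) - q) - 78) + (14 * ((L q0 : ℤ) - L q) + u) + 14 * E q := by
    intro q hq
    have h1 := hLlt q q0 (Finset.mem_range.1 hq)
    have h2 : (q : ℤ) + 1 ≤ q0 := by exact_mod_cast Finset.mem_range.1 hq
    have h3 : (0 : ℤ) ≤ E q := Nat.cast_nonneg _
    rw [hP1 _ (by linarith)]
    ring
  rw [Finset.sum_congr rfl hq, Finset.sum_add_distrib, Finset.sum_add_distrib] at hrow
  have hlast : PP (e + u) ≤
      PP (e + 182 * ((q0 : ℤ) - q0) + 14 * ((L q0 : ℤ) - L q0) + u + 14 * E q0) := by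
    refine hP3 _ _ ?_
    have h3 : (0 : ℤ) ≤ E q0 := Nat.cast_nonneg _
    linarith
  -- columns
  have hcol' : ∑ m ∈ Finset.range Q, max 0 ((n : ℤ) - θ m) ≤
      ∑ q ∈ Finset.range q0, (14 * ((L q0 : ℤ) - L q) + u) + max 0 u +
        14 * ∑ m ∈ Finset.range Q, (E (m / 13) : ℤ) := by
    have h1 : ∀ m ∈ Finset.range Q, max 0 ((n : ℤ) - θ m) ≤
        (if m < q0 then 14 * ((L q0 : ℤ) - L m) + u else if m = q0 then max 0 u else 0) +
          14 * (E (m / 13) : ℤ) := by
      intro m _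
      have h3 : (0 : ℤ) ≤ E (m / 13) := Nat.cast_nonneg _
      rw [hθm]
      rcases lt_trichotomy m q0 with h | h | h
      · rw [if_pos h]
        have h4 := hLlt m q0 h
        have h5 : (m : ℤ) + 1 ≤ q0 := by exact_mod_cast h
        refine max_le ?_ ?_
        · linarith
        · linarith
      · rw [if_neg (by omega), if_pos h, h]
        refine max_le ?_ ?_
        · have := le_max_left 0 u
          rw [h] at h3
          linarith
        · have := le_max_right 0 u
          linarith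
      · rw [if_neg (by omega), if_neg (by omega)]
        have h4 := hLlt q0 m h
        have h5 : (q0 : ℤ) + 1 ≤ m := by exact_mod_cast h
        refine max_le ?_ ?_
        · linarith
        · linarith
    refine (Finset.sum_le_sum h1).trans (le_of_eq ?_)
    rw [Finset.sum_add_distrib, ← Finset.mul_sum]
    congr 1
    have h2 : Q = q0 + 1 + (Q - q0 - 1) := by omega
    rw [h2, Finset.sum_range_add, Finset.sum_range_succ]
    have h3 : ∑ x ∈ Finset.range (Q - q0 - 1),
        (if q0 + 1 + x < q0 then 14 * ((L q0 : ℤ) - L (q0 + 1 + x)) + u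
          else if q0 + 1 + x = q0 then max 0 u else 0) = 0 := by
      refine Finset.sum_eq_zero fun x _ => ?_
      rw [if_neg (by omega), if_neg (by omega)]
    rw [h3, add_zero, if_neg (lt_irrefl _), if_pos rfl]
    congr 1
    refine Finset.sum_congr rfl fun m hm => ?_
    rw [if_pos (Finset.mem_range.1 hm)]
  -- the end
  have hBv := hB c n q0 e hc hn he1 he2
  have hSS : SS 13 D θ n =
      ∑ i ∈ Finset.range n, (KK θ (((13 : ℕ) : ℤ) * ((i : ℤ) + 1) - D) : ℤ) -
      ∑ i ∈ Finset.range n, (KK θ ((i : ℤ) + 1) : ℤ) := by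
    unfold SS
    rw [Finset.sum_sub_distrib]
  have hE14 : ∑ x ∈ Finset.range q0, 14 * (E x : ℤ) = 14 * ∑ m ∈ Finset.range Q,
      (E (m / 13) : ℤ) := by
    rw [← Finset.mul_sum, hQs]
  rw [hE14] at hrow
  rw [← hD, ← hθ, hSS, hBv]
  linarith

end GH.Trop
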