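import Pool.Agent.GH.Trop.Stm

/-!
# GH13-TROP, S6: the value of the second family of potentials
-/

noncomputable section

namespace GH.Trop

open GH.CombU

namespace ValJ

lemma Lam_zero : Lam 13 0 = 0 := by simp [Lam]

lemma Lam_succ (m : ℕ) : Lam 13 (m + 1) = Lam 13 m + 1 + padicValNat 13 (m + 1) := by
  unfold Lam
  rw [Nat.factorial_succ, padicValNat.mul (by omega) (Nat.factorial_ne_zero m)]
  ring

lemma Lam_add_le (m a : ℕ) : Lam 13 m + a ≤ Lam 13 (m + a) := by
  induction a with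
  | zero => rfl
  | succ a ih =>
    have h := Lam_succ (m + a)
    have e : m + (a + 1) = m + a + 1 := rfl
    rw [e, h]
    omega

lemma Lam_le {a b : ℕ} (h : a ≤ b) : Lam 13 a + (b - a) ≤ Lam 13 b := by
  have h1 := Lam_add_le a (b - a)
  have e : a + (b - a) = b := by omega
  rwa [e] at h1

lemma Lam_block (q r : ℕ) (hr : r < 13) : Lam 13 (13 * q + r) = 13 * q + r + Lam 13 q := by
  unfold Lam
  rw [padicValNat_factorial_mul_add q hr, padicValNat_factorial_mul]
  ring

lemma em_le (J m : ℕ) : em 13 J m ≤ J := by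
  unfold em
  exact (Finset.card_filter_le _ _).trans (by rw [Finset.card_range])

lemma em_zero (J : ℕ) : em 13 J 0 = J := by
  unfold em
  rw [Finset.filter_true_of_mem (fun j _ => dvd_zero _), Finset.card_range]

lemma em_block (J q r : ℕ) (hr : r < 13) (hr0 : r ≠ 0) : em 13 J (13 * q + r) = 0 := by
  unfold em
  rw [Finset.card_eq_zero, Finset.filter_eq_empty_iff]
  intro j _ h
  have h1 : 13 ∣ 13 * q + r := (dvd_pow_self 13 (Nat.succ_ne_zero j)).trans h
  omega

lemma sum_block (f : ℕ → ℤ) (Q : ℕ) : ∑ m ∈ Finset.range (13 * Q), f m =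
    ∑ q ∈ Finset.range Q, ∑ r ∈ Finset.range 13, f (13 * q + r) := by
  induction Q with
  | zero => simp
  | succ Q ih =>
    rw [Finset.sum_range_succ, ← ih, Nat.mul_succ, Finset.sum_range_add]

end ValJ

open ValJ in
/-- S6: the second family has the value `B`. -/
theorem spSJ (hK : SpKK) (hThr : SpThr) (hE : SpEm) (hsum : SpEmSum) (hR : SpRows)
    (hC : SpCols) (hP : SpPP) (hB : SpB) : SpSJ := by
  intro c n q0 J e u hc he he0 he1 hu0 hu1 hJ hJd hPP hT
  set T : ℤ := n - 14 * (Lam 13 q0 : ℤ) - u with hTd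
  set θ : ℕ → ℤ := thE 13 14 T fun m => em 13 J m with hθ
  have hp : Nat.Prime 13 := by norm_num
  have hthr : Thr 13 14 θ := hThr 13 14 T _ hp fun m a => hE 13 J m a hp
  have hθv : ∀ m, θ m = T + 14 * (Lam 13 m : ℤ) - 14 * (em 13 J m : ℤ) := fun m => by
    rw [hθ]
    unfold thE
    norm_num
  -- rows
  have hrow := hR 13 14 n (13 * (q0 + 1)) (D13 c) θ hp (by norm_num) hthr (by
    rw [hθv, Lam_zero, em_zero]
    push_cast
    linarith)
  -- columns
  have hcol := hC 13 14 n (q0 + 1) θ hp (by norm_num) hthr (by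
    have h1 := Lam_succ q0
    have h2 : J ≤ padicValNat 13 (q0 + 1) := (padicValNat_dvd_iff_le (by omega)).1 hJd
    have h3 := em_le J (q0 + 1)
    rw [hθv, hTd, h1]
    push_cast
    have h4 : (em 13 J (q0 + 1) : ℤ) ≤ padicValNat 13 (q0 + 1) := by
      exact_mod_cast h3.trans h2
    linarith)
  -- the argument of the block `q`
  set C : ℤ := e + 182 * (q0 : ℤ) + 14 * (Lam 13 q0 : ℤ) + u with hCd
  have hblock : ∀ q ∈ Finset.range (q0 + 1), ∑ r ∈ Finset.range 13,
      max 0 (((13 : ℕ) * (n : ℤ) - D13 c - θ (13 * q + r) + ((13 : ℕ) - 1)) / ((13 : ℕ) : ℤ)) =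
      PP (C - 14 * Lam 13 q - 182 * q) +
        ((C - 14 * Lam 13 q - 182 * q + 14 * em 13 J (13 * q) + 12) / 13 -
          (C - 14 * Lam 13 q - 182 * q + 12) / 13) := by
    intro q hq
    rw [Finset.mem_range] at hq
    have hL := Lam_le (show q ≤ q0 by omega)
    have hX : 0 ≤ C - 14 * (Lam 13 q : ℤ) - 182 * q := by
      rw [hCd]
      have h1 : (Lam 13 q : ℤ) ≤ Lam 13 q0 := by exact_mod_cast (by omega : Lam 13 q ≤ Lam 13 q0)
      have h2 : (q : ℤ) ≤ q0 := by exact_mod_cast (by omega : q ≤ q0)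
      linarith
    have hterm : ∀ r : ℕ, r < 13 → (13 : ℕ) * (n : ℤ) - D13 c - θ (13 * q + r) + ((13 : ℕ) - 1) =
        C - 14 * Lam 13 q - 182 * q - 14 * r + 14 * em 13 J (13 * q + r) + 12 := by
      intro r hr
      rw [hθv, Lam_block q r hr, hTd, hCd]
      push_cast
      linarith
    unfold PP
    rw [Finset.sum_range_succ' _ 12, Finset.sum_range_succ' _ 12]
    have hrest : ∀ r ∈ Finset.range 12,
        max 0 (((13 : ℕ) * (n : ℤ) - D13 c - θ (13 * q + (r + 1)) + ((13 : ℕ) - 1)) /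
          ((13 : ℕ) : ℤ)) =
        max 0 ((C - 14 * Lam 13 q - 182 * q - 14 * ((r + 1 : ℕ) : ℤ) + 12) / 13) := by
      intro r hr
      rw [Finset.mem_range] at hr
      rw [hterm (r + 1) (by omega), em_block J q (r + 1) (by omega) (by omega)]
      norm_num
    rw [Finset.sum_congr rfl hrest, hterm 0 (by norm_num), add_zero]
    have e1 : ((0 : ℕ) : ℤ) = 0 := rfl
    have e2 : ((13 : ℕ) : ℤ) = 13 := rfl
    rw [e1, e2, mul_zero, sub_zero]
    have hem : (0 : ℤ) ≤ em 13 J (13 * q) := Nat.cast_nonneg _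
    have g1 : 0 ≤ (C - 14 * (Lam 13 q : ℤ) - 182 * q + 14 * em 13 J (13 * q) + 12) / 13 :=
      Int.ediv_nonneg (by linarith) (by norm_num)
    have g2 : 0 ≤ (C - 14 * (Lam 13 q : ℤ) - 182 * q + 12) / 13 :=
      Int.ediv_nonneg (by linarith) (by norm_num)
    rw [max_eq_right g1, max_eq_right g2]
    ring
  rw [sum_block, Finset.sum_congr rfl hblock, Finset.sum_add_distrib,
    hsum C J (q0 + 1) hJd] at hrow
  -- the columns
  have hcolv : ∀ m ∈ Finset.range (q0 + 1), max 0 ((n : ℤ) - θ m) =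
      (14 * ((Lam 13 q0 : ℤ) - Lam 13 m) + u) + 14 * (em 13 J m : ℤ) := by
    intro m hm
    rw [Finset.mem_range] at hm
    have hL := Lam_le (show m ≤ q0 by omega)
    have h1 : (Lam 13 m : ℤ) ≤ Lam 13 q0 := by exact_mod_cast (by omega : Lam 13 m ≤ Lam 13 q0)
    have hem : (0 : ℤ) ≤ em 13 J m := Nat.cast_nonneg _
    rw [max_eq_right, hθv, hTd]
    · ring
    · rw [hθv, hTd]
      linarith
  rw [Finset.sum_congr rfl hcolv, Finset.sum_add_distrib, ← Finset.mul_sum] at hcol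
  -- the values of `P`
  rw [Finset.sum_range_succ] at hrow hcol
  have hlast : C - 14 * (Lam 13 q0 : ℤ) - 182 * q0 = e + u := by
    rw [hCd]
    ring
  rw [hlast] at hrow
  have hpp : ∀ q ∈ Finset.range q0, PP (C - 14 * Lam 13 q - 182 * q) =
      (e + 182 * ((q0 : ℤ) - q) - 78) + (14 * ((Lam 13 q0 : ℤ) - Lam 13 q) + u) := by
    intro q hq
    rw [Finset.mem_range] at hq
    have hL := Lam_le hq.le
    have h1 : (Lam 13 q : ℤ) ≤ Lam 13 q0 := by exact_mod_cast (by omega : Lam 13 q ≤ Lam 13 q0)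
    have h2 : (q : ℤ) + 1 ≤ q0 := by exact_mod_cast hq
    rw [hP.1 _ (by rw [hCd]; linarith), hCd]
    ring
  rw [Finset.sum_congr rfl hpp, Finset.sum_add_distrib] at hrow
  have hBv := hB c n q0 e hc he (by linarith) he1
  unfold SS
  rw [Finset.sum_sub_distrib, hBv]
  have hlc : (14 * ((Lam 13 q0 : ℤ) - Lam 13 q0) + u) = u := by ring
  rw [hlc] at hcol
  have e13 : ((13 : ℕ) : ℤ) = 13 := rfl
  linarith

end GH.Trop
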