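import Pool.Agent.GH.Trop.Root
import Pool.Agent.GH.Trop.RowF
import Pool.Agent.GH.M13.Stm

/-!
# GH13: rows W3 and W4 of GH13-MAT from the root block
-/

open Polynomial

noncomputable section

namespace GH.M13

open GH.D13 GH.CombU

theorem wk_prime : Prime (C (13 : ℤ_[13]) : ℤ_[13][X]) := by
  rw [Polynomial.prime_C_iff]
  have := PadicInt.prime_p (p := 13)
  exact_mod_cast this

/-- The leading minors have the valuation `B`. -/
theorem wk_lead (h : SpLead) {c : ℕ} (hc : c ≤ 5) (n : ℕ) :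
    C ((13 : ℤ_[13]) ^ B13 c n) ∣ Pot.lead (PM c) n ∧
      ¬ C ((13 : ℤ_[13]) ^ (B13 c n + 1)) ∣ Pot.lead (PM c) n := by
  obtain ⟨u, z, hu, hl⟩ := h c hc n
  have e13 : ((13 : ℕ) : ℤ_[13]) = 13 := Nat.cast_ofNat
  rw [e13] at hu hl
  refine ⟨?_, ?_⟩
  · rw [hl, mul_assoc]
    exact dvd_mul_right _ _
  · intro hd
    rw [hl, mul_assoc, pow_succ, map_mul, mul_dvd_mul_iff_left (by
      rw [Ne, C_eq_zero]
      exact pow_ne_zero _ (by norm_num))] at hd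
    rcases wk_prime.dvd_or_dvd hd with h1 | h1
    · have h2 : C (13 : ℤ_[13]) ∣ C (z : ℤ_[13]) := by
        have h3 := dvd_sub h1 hu
        rwa [sub_sub_cancel] at h3
      rw [C_dvd_iff_dvd_coeff] at h2
      have h4 := h2 0
      rw [coeff_C_zero] at h4
      exact wk_prime.not_isUnit (by
        rw [isUnit_C]
        exact isUnit_of_dvd_unit h4 z.isUnit)
    · obtain ⟨m, -, hm⟩ := (wk_prime.dvd_finset_prod_iff _).1 h1
      have h2 := wk_prime.dvd_of_dvd_pow hm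
      rw [C_dvd_iff_dvd_coeff] at h2
      have h3 := h2 1
      rw [coeff_sub, coeff_X_one, coeff_C, if_neg one_ne_zero, sub_zero] at h3
      exact wk_prime.not_isUnit (by
        rw [isUnit_C]
        exact isUnit_of_dvd_one h3)

theorem wk_root (hR : Trop.SpRoot) (hGr : SpGr) (hPS : SpPS) (hL : SpLead) {c : ℕ} (hc : c ≤ 5)
    {ε : ℕ} (hε : ε ≤ 1) :
    (∀ (n : ℕ) (a b : Fin n → ℕ), C ((13 : ℤ_[13]) ^ B13 c n) ∣ Pot.minor (PS ε c) a b) ∧
    ∀ (n : ℕ) (a : Fin n → ℕ), 1 ≤ n → 2 * B13 c n < B13 c (n - 1) + B13 c (n + 1) →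
      (∃ i, n ≤ a i) → C ((13 : ℤ_[13]) ^ (B13 c n + 1)) ∣ Pot.minor (PS ε c) a a := by
  refine hR c (PM c) (fun ε => PS ε c) hc ?_ (fun n => wk_lead hL hc n)
    (fun ε i j hε => (hPS ε hε c hc i j).1) ε hε
  refine Trop.rowF_of (a := aa c) ?_ hGr.2.1 hGr.2.2.2.2.1 hGr.1 hGr.2.2.2.1 (hGr.2.2.2.2.2 c hc)
  interval_cases c <;> decide

/-- Row W3. -/
theorem spWeak_of (hR : Trop.SpRoot) (hGr : SpGr) (hPS : SpPS) (hL : SpLead) : SpWeak :=
  fun _ hε _ hc n a b => (wk_root hR hGr hPS hL hc hε).1 n a b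

/-- Row W4. -/
theorem spStrict_of (hR : Trop.SpRoot) (hGr : SpGr) (hPS : SpPS) (hL : SpLead) : SpStrict := by
  intro c hc n a hv ha hn
  obtain ⟨i, hi⟩ := hn
  have hn1 : 1 ≤ n := i.pos
  have h1 := (wk_root hR hGr hPS hL hc (ε := 0) (by norm_num)).2 n a hn1
    (hv.resolve_left (by omega)) ⟨i, hi⟩
  have h2 := Trop.rt_scale (g := gm 0) (fun i j => (hPS 0 (by norm_num) c hc i j).1) a a
  have h3 := mul_left_cancel₀ (Trop.rt_ne _) h2
  rwa [← h3]

end GH.M13
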