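import Pool.Agent.GH.Trop.Dig69
import Pool.Agent.GH.Trop.Pot
import Pool.Agent.GH.Trop.Sums
import Pool.Agent.GH.Trop.EmSum
import Pool.Agent.GH.Trop.RC
import Pool.Agent.GH.Trop.PP
import Pool.Agent.GH.Trop.Val
import Pool.Agent.GH.Trop.ValJ
import Pool.Agent.GH.Trop.PotUV
import Pool.Agent.GH.Trop.PotL
import Pool.Agent.GH.Trop.LDU
import Pool.Agent.GH.Trop.Weak13

/-!
# GH13-TROP: root dominance for `p = 13`, assembled
-/

noncomputable section

namespace GH.Trop

theorem valS : SpS :=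
  spS spKK spThr spEp' spEp0' spEpSum (spRows spKK) (spCols spKK) spPP spB

theorem valSJ : SpSJ :=
  spSJ spKK spThr spEm' spEmSum (spRows spKK) (spCols spKK) spPP spB

/-- **Root dominance for `p = 13`.** -/
theorem root13 : SpRoot :=
  spRoot spKK (spMin spKK)
    (spPotL spKK spThr spEp' spEm' spEp0' spChoice spPP valS valSJ spE)
    (spPotU spE spThr spEp' valS) (spPotV spE spThr spEp' valS spB) (spConv spB spE) spLDU

end GH.Trop

namespace GH.M13

/-- Row W3. -/
theorem spWeak' (hGr : SpGr) (hPS : SpPS) (hL : SpLead) : SpWeak :=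
  spWeak_of Trop.root13 hGr hPS hL

/-- Row W4. -/
theorem spStrict' (hGr : SpGr) (hPS : SpPS) (hL : SpLead) : SpStrict :=
  spStrict_of Trop.root13 hGr hPS hL

end GH.M13
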