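import Pool.Agent.GH.Trop.Dig69

/-!
# GH13-TROP-B1: carries
-/

noncomputable section

namespace GH.Trop

/-- B1. -/
theorem spEp : SpEp := spEp'

/-- B2. -/
theorem spEm : SpEm := spEm'

/-- B3. -/
theorem spEp0 : SpEp0 := spEp0'

end GH.Trop
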