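import Pool.Agent.GH.Trop.Stm
import Pool.Agent.GH.CombU.DefsLN
import Pool.Agent.GH.LM.Stm

/-!
# GH-TROPN: root dominance for `(3,2)`, `(3,4)`, `(5,2)`, definitions and statements

Head: helper69. The method is that of `Trop/Stm.lean` (`p = 13`). The numbers `(p, d, D, e)` are
`(3, 2, 2, 2)`, `(3, 4, 4, 1)`, `(5, 6, 6, 1)`, `(5, 6, 4, 1)` for the types `i = 0, 1, 2, 3` of
`CombU/DefsLN.lean`, and `B = BLN i`.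
-/

open Polynomial

noncomputable section

namespace GH.Trop

open GH.CombU

/-! ### General statements -/

/-- `B` is convex. -/
def CvN (B : ℕ → ℕ) : Prop := B 0 = 0 ∧ ∀ n, 2 * B (n + 1) ≤ B n + B (n + 2)

/-- The potentials of a type, with the scaling `g`: rows and columns. -/
structure PotN (p d : ℕ) (D : ℤ) (B g : ℕ → ℕ) : Prop where
  mono : ∀ i, g i ≤ g (i + 1)
  zero : B 0 = 0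
  conv : ∀ n, 2 * B (n + 1) ≤ B n + B (n + 2)
  rows : ∀ n k : ℕ, 1 ≤ k → ∃ θ : ℕ → ℤ, Thr p d θ ∧ (B (n + 1) : ℤ) ≤ SS p D θ (n + 1) ∧
    KK θ (p * ((n : ℤ) + 1) - D) + g (n + k) ≤ KK θ (p * ((n : ℤ) + k + 1) - D) + g n
  cols : ∀ n k : ℕ, 1 ≤ k → ∃ θ : ℕ → ℤ, Thr p d θ ∧ (B (n + 1) : ℤ) ≤ SS p D θ (n + 1) ∧
    KK θ ((n : ℤ) + k + 1) + g n ≤ KK θ ((n : ℤ) + 1) + g (n + k)

/-- The strict potential for the size `n + 1`. -/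
def PotV (p d : ℕ) (D : ℤ) (B g : ℕ → ℕ) (n : ℕ) : Prop :=
  ∃ θ : ℕ → ℤ, Thr p d θ ∧ (B (n + 1) : ℤ) ≤ SS p D θ (n + 1) ∧
    (∀ l ≤ n, KK θ ((n : ℤ) + 1) + g l ≤ KK θ ((l : ℤ) + 1) + g n) ∧
    ∀ l, n < l → KK θ ((l : ℤ) + 1) + g n + 1 ≤ KK θ ((n : ℤ) + 1) + g l

/-- Rows, slope `1/2`. -/
def PLh (p d : ℕ) (D : ℤ) (B : ℕ → ℕ) : Prop := ∀ n k : ℕ, 1 ≤ n → 1 ≤ k → ∃ θ : ℕ → ℤ,
  Thr p d θ ∧ (B n : ℤ) ≤ SS p D θ n ∧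
    KK θ (p * (n : ℤ) - D) + (k + 1) / 2 ≤ KK θ (p * ((n : ℤ) + k) - D)

/-- Columns. -/
def PUh (p d : ℕ) (D : ℤ) (B : ℕ → ℕ) : Prop := ∀ n : ℕ, 1 ≤ n → ∃ θ : ℕ → ℤ,
  Thr p d θ ∧ (B n : ℤ) ≤ SS p D θ n ∧ ∀ m, θ m ≠ n

/-- Columns, strict. -/
def PVh (p d : ℕ) (D : ℤ) (B : ℕ → ℕ) : Prop := ∀ n : ℕ, 1 ≤ n →
  2 * B n < B (n - 1) + B (n + 1) → ∃ θ : ℕ → ℤ, Thr p d θ ∧ (B n : ℤ) ≤ SS p D θ n ∧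
    ∀ m, θ m ≠ n ∧ θ m ≠ n - 1 ∧ θ m ≠ n + 1

/-- Principal minors of `W N`. -/
def PW (p d : ℕ) (D : ℤ) (B : ℕ → ℕ) : Prop := ∀ n : ℕ, 1 ≤ n → ∃ θ : ℕ → ℤ,
  Thr p d θ ∧ (B n : ℤ) ≤ SS p D θ n ∧ ∀ y x : ℕ, 1 ≤ y → y ≤ n → n < x →
    KK θ (p * (y : ℤ) - D) + KK θ x ≤ KK θ (p * (x : ℤ) - D) + KK θ y

/-- Principal minors of `W N`, strict. -/
def PX (p d : ℕ) (D : ℤ) (B : ℕ → ℕ) : Prop := ∀ n : ℕ, 1 ≤ n →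
  2 * B n < B (n - 1) + B (n + 1) → ∃ θ : ℕ → ℤ,
  Thr p d θ ∧ (B n : ℤ) ≤ SS p D θ n ∧ (∀ m, θ m ≠ n) ∧ ∀ y x : ℕ, 1 ≤ y → y ≤ n → n < x →
    KK θ (p * (y : ℤ) - D) + KK θ x + 1 ≤ KK θ (p * (x : ℤ) - D) + KK θ y

/-- All minors of `N`, both scalings. -/
def WkN {p : ℕ} [Fact p.Prime] (P : LM.Par p) : Prop := ∀ N : ℕ → ℕ → ℤ_[p][X],
  P.GrN N → P.LdN N → ∀ ε ≤ 1, ∀ (n : ℕ) (a b : Fin n → ℕ),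
    C ((p : ℤ_[p]) ^ (P.B n + ∑ i, P.gm ε (a i))) ∣
      C ((p : ℤ_[p]) ^ ∑ i, P.gm ε (b i)) * Pot.minor N a b

/-- At the vertices all minors with a column `≥ n` are strictly larger, in one scaling. -/
def StN {p : ℕ} [Fact p.Prime] (P : LM.Par p) : Prop := ∀ N : ℕ → ℕ → ℤ_[p][X],
  P.GrN N → P.LdN N → ∀ (n : ℕ) (a b : Fin n → ℕ), P.Rt n → (∃ i, n ≤ b i) →
    C ((p : ℤ_[p]) ^ (P.B n + 1 + ∑ i, P.gm ((n + 1) % 2) (a i))) ∣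
      C ((p : ℤ_[p]) ^ ∑ i, P.gm ((n + 1) % 2) (b i)) * Pot.minor N a b

/-- GN-A: the principal minors of `W N` from the scaled dominance, `(5, 2)`. -/
def SpPhalf : Prop := ∀ (p : ℕ) [Fact p.Prime] (P : LM.Par p), p = 5 → P.d = 6 → P.e = 1 →
  WkN P → StN P → P.RootP

/-- The numerical property of the growth of `W` for `(3, 2)`, `(3, 4)`. -/
def Rt2 (p d : ℕ) : Prop := (∀ l j, 1 ≤ l → 1 ≤ j →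
    (l + d - 1) / d + padicValNat p j.factorial ≤ max j (MatU.phD d (p * l))) ∧
  ∀ l j, 2 ≤ l → 1 ≤ j →
    (l + d - 1) / d + 1 + padicValNat p j.factorial ≤ max j (MatU.phD d (p * l))

/-- GN-B: the principal minors of `W N` from one potential. -/
def SpPdir : Prop := ∀ (p : ℕ) [Fact p.Prime] (P : LM.Par p), 0 < P.d → Rt2 p P.d →
  PW p P.d P.D P.B → PX p P.d P.D P.B → P.RootP

/-- GN-C. -/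
def SpRt2 : Prop := Rt2 3 2 ∧ Rt2 3 4

/-! ### `(3, 2)` -/

/-- GN-T. -/
def Sp32 : Prop := (∀ n, BLN 0 (n + 1) = BLN 0 n + 2 * (n + 1) / 3) ∧
  CvN (BLN 0) ∧ (∀ ε ≤ 1, PotN 3 2 2 (BLN 0) fun i => (2 * (i + 1) + ε) / 2) ∧
  (∀ n, 2 * BLN 0 (n + 1) < BLN 0 n + BLN 0 (n + 2) →
    PotV 3 2 2 (BLN 0) (fun i => (2 * (i + 1) + 0) / 2) n) ∧
  PW 3 2 2 (BLN 0) ∧ PX 3 2 2 (BLN 0)

/-! ### `(3, 4)` -/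

/-- The thresholds for `(3, 4)`. -/
def thT (t : ℤ) (m0 m : ℕ) : ℤ := 6 * m + t + if m < m0 then 2 else 0

/-- GN-Q1: the numbers of zeros. -/
def SpB34 : Prop := ∀ n, BLN 1 (n + 1) = BLN 1 n + (n + 1) / 3

/-- GN-Q2. -/
def SpThT : Prop := ∀ (t : ℤ) (m0 : ℕ), Thr 3 4 (thT t m0) ∧
  ∀ x : ℤ, (KK (thT t m0) x : ℤ) =
    max 0 (min (m0 : ℤ) ((x - t + 3) / 6)) + max 0 ((x - t + 5) / 6 - m0)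

/-- GN-Q3: the values. -/
def SpS34 : Prop := ∀ n : ℕ, 1 ≤ n →
  (BLN 1 n : ℤ) ≤ SS 3 4 (thT 1 ((n + 3) / 6)) n ∧ (BLN 1 n : ℤ) ≤ SS 3 4 (thT 4 (n / 6)) n

/-- GN-Q4: the potentials for `(3, 4)`. -/
def Sp34 : Prop := CvN (BLN 1) ∧ PLh 3 4 4 (BLN 1) ∧ PUh 3 4 4 (BLN 1) ∧ PVh 3 4 4 (BLN 1) ∧
  PW 3 4 4 (BLN 1) ∧ PX 3 4 4 (BLN 1)

/-! ### `(5, 2)` -/

/-- The shift: `6, 4`. -/
def D5 (i : ℕ) : ℤ := if i = 2 then 6 else 4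

/-- `∑_{r<5} max(0, ⌈(x - 6 r)/5⌉)`. -/
def PP5 (x : ℤ) : ℤ := ∑ r ∈ Finset.range 5, max 0 ((x - 6 * (r : ℤ) + 4) / 5)

/-- B5. -/
def SpChoice5 : Prop := ∀ q0 q : ℕ, q0 < q → ∃ w s : ℕ,
  (w = 0 ∨ 5 ^ (w + 1) ∣ q0 + 1 + s) ∧
  4 * padicValNat 5 q.factorial + 1 ≤
    4 * padicValNat 5 q0.factorial + 4 * ep 5 w s q + 5 * (q - q0)

/-- B6. -/
def SpEmSum5 : Prop := ∀ (C : ℤ) (J Q : ℕ), 5 ^ J ∣ Q →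
  ∑ q ∈ Finset.range Q, ((C - 6 * Lam 5 q - 30 * q + 6 * em 5 J (5 * q) + 4) / 5 -
    (C - 6 * Lam 5 q - 30 * q + 4) / 5) = 6 * ∑ q ∈ Finset.range Q, (em 5 J q : ℤ)

/-- S3. -/
def SpPP5 : Prop := (∀ x, 20 ≤ x → PP5 x = x - 10) ∧ (∀ x, 0 ≤ PP5 x) ∧
  ∀ x y, x ≤ y → PP5 x ≤ PP5 y

/-- S4: the closed form of `BLN`. -/
def SpB5 : Prop := ∀ (i n q0 : ℕ) (e : ℤ), i = 2 ∨ i = 3 → 4 * (n : ℤ) - D5 i = 30 * q0 + e →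
  -10 ≤ e → e ≤ 30 →
  (BLN i n : ℤ) = ∑ q ∈ Finset.range q0, (e + 30 * ((q0 : ℤ) - q) - 10) + PP5 e

/-- S5: block potentials have the value `B`. -/
def SpS5 : Prop := ∀ (i n q0 w s : ℕ) (e u : ℤ), i = 2 ∨ i = 3 →
  4 * (n : ℤ) - D5 i = 30 * q0 + e → -10 ≤ e → e ≤ 30 → -6 ≤ u → u ≤ 6 →
  (w = 0 ∨ 5 ^ (w + 1) ∣ q0 + 1 + s) → PP5 e ≤ PP5 (e + u) - max 0 u →
  0 ≤ n - 6 * (Lam 5 q0 : ℤ) - u - 6 * ep 5 w s 0 + D5 i →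
  (BLN i n : ℤ) ≤ SS 5 (D5 i)
    (thE 5 6 (n - 6 * (Lam 5 q0 : ℤ) - u) fun m => ep 5 w s (m / 5)) n

/-- S6: the second family has the value `B`. -/
def SpSJ5 : Prop := ∀ (i n q0 J : ℕ) (e u : ℤ), i = 2 ∨ i = 3 →
  4 * (n : ℤ) - D5 i = 30 * q0 + e → 0 < e → e ≤ 30 → 0 ≤ u → u ≤ 6 →
  0 < J → 5 ^ J ∣ q0 + 1 → PP5 e ≤ PP5 (e + u) - u →
  0 ≤ n - 6 * (Lam 5 q0 : ℤ) - u - 6 * J + D5 i →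
  (BLN i n : ℤ) ≤ SS 5 (D5 i)
    (thE 5 6 (n - 6 * (Lam 5 q0 : ℤ) - u) fun m => em 5 J m) n

/-- P0: the numbers `q0` and `e`. -/
def SpE5 : Prop := ∀ i n : ℕ, i = 2 ∨ i = 3 → 1 ≤ n → ∃ (q0 : ℕ) (e : ℤ),
  4 * (n : ℤ) - D5 i = 30 * q0 + e ∧ -4 ≤ e ∧ e ≤ 24 ∧ 2 ∣ e

/-- P1. -/
def SpPotL5 : Prop := ∀ i : ℕ, i = 2 ∨ i = 3 → PLh 5 6 (D5 i) (BLN i)

/-- P2, P3. -/
def SpPotUV5 : Prop := ∀ i : ℕ, i = 2 ∨ i = 3 → PUh 5 6 (D5 i) (BLN i) ∧ PVh 5 6 (D5 i) (BLN i)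

end GH.Trop
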