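import Pool.Agent.GH.Trop.Row
import Pool.Agent.GH.Trop.LDU
import Pool.Agent.GH.Trop.Pot
import Pool.Agent.GH.Trop.StmN
import Pool.Agent.GH.Trop.Root

/-!
# Root dominance from potentials, all types

`N` is a matrix over `ℤ_p[X]` whose rows `< I` satisfy the growth of `NQ_rt`, the leading minors
of size `≤ I` have the valuation `B`, `g` is the scaling. If for all sizes there are the three
kinds of potentials, then all minors (rows `< I`) are at least `B` in the scaling `g`, and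
principal minors are strictly larger at vertices.
-/

open Polynomial

noncomputable section

namespace GH.Trop

variable {p : ℕ} [Fact p.Prime]

/-- The input about the matrix. -/
structure RowN (p d : ℕ) [Fact p.Prime] (D : ℤ) (I : ℕ) (B : ℕ → ℕ)
    (N : ℕ → ℕ → ℤ_[p][X]) : Prop where
  entry : ∀ i j k : ℕ, i < I →
    (∀ m < k, (d * Lam p m : ℤ) + D < p * ((i : ℤ) + 1) - (j + 1)) →
    C ((p : ℤ_[p]) ^ k) ∣ N i j
  lead : ∀ n ≤ I, C ((p : ℤ_[p]) ^ B n) ∣ Pot.lead N n ∧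
    ¬ C ((p : ℤ_[p]) ^ (B n + 1)) ∣ Pot.lead N n

/-! ### Scaling -/

theorem gn_ne (k : ℕ) : (C ((p : ℤ_[p]) ^ k) : ℤ_[p][X]) ≠ 0 := by
  rw [Ne, C_eq_zero]
  exact pow_ne_zero _ (by exact_mod_cast (Fact.out : p.Prime).ne_zero)

theorem gn_le {k l : ℕ} {P : ℤ_[p][X]} (hkl : k ≤ l) (h : C ((p : ℤ_[p]) ^ l) ∣ P) :
    C ((p : ℤ_[p]) ^ k) ∣ P :=
  (_root_.map_dvd C (pow_dvd_pow _ hkl)).trans h

/-- The scaled, extended matrix. -/
def EX (B g : ℕ → ℕ) (I : ℕ) (N : ℕ → ℕ → ℤ_[p][X]) (i j : ℕ) : ℤ_[p][X] :=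
  if i < I then C ((p : ℤ_[p]) ^ (g j + (g I - g i))) * N i j
  else if i = j then C ((p : ℤ_[p]) ^ (B (i + 1) - B i + g I)) else 0

theorem gn_mono {g : ℕ → ℕ} (hg : ∀ i, g i ≤ g (i + 1)) {i j : ℕ} (h : i ≤ j) : g i ≤ g j :=
  monotone_nat_of_le_succ hg h

/-- Minors with rows `< I`. -/
theorem gn_minor {B g : ℕ → ℕ} {I : ℕ} {N : ℕ → ℕ → ℤ_[p][X]} (hg : ∀ i, g i ≤ g (i + 1))
    {n : ℕ} (a b : Fin n → ℕ) (ha : ∀ i, a i < I) :
    C ((p : ℤ_[p]) ^ ∑ i, g (a i)) * Pot.minor (EX B g I N) a b =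
      C ((p : ℤ_[p]) ^ (n * g I + ∑ i, g (b i))) * Pot.minor N a b := by
  have h1 := Matrix.det_mul_column (fun i : Fin n => C ((p : ℤ_[p]) ^ g (a i)))
    (Matrix.of fun i j : Fin n => EX B g I N (a i) (b j))
  have h2 := Matrix.det_mul_row (fun j : Fin n => C ((p : ℤ_[p]) ^ (g I + g (b j))))
    (Matrix.of fun i j : Fin n => N (a i) (b j))
  rw [← map_prod, Finset.prod_pow_eq_pow_sum] at h1 h2
  rw [Finset.sum_add_distrib, Finset.sum_const, Finset.card_univ, Fintype.card_fin,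
    smul_eq_mul] at h2
  unfold Pot.minor
  rw [← h1, ← h2]
  congr 1
  ext i j
  rw [Matrix.of_apply, Matrix.of_apply, Matrix.of_apply, Matrix.of_apply]
  unfold EX
  rw [if_pos (ha i), ← mul_assoc, ← map_mul, ← pow_add]
  have h3 := gn_mono hg (ha i).le
  have h4 : g (a i) + (g (b j) + (g I - g (a i))) = g I + g (b j) := by omega
  rw [h4]

theorem gn_cancel {s t k m : ℕ} {x y : ℤ_[p][X]}
    (h : C ((p : ℤ_[p]) ^ s) * x = C ((p : ℤ_[p]) ^ t) * y)
    (hy : C ((p : ℤ_[p]) ^ k) ∣ y) (hm : m + s ≤ t + k) : C ((p : ℤ_[p]) ^ m) ∣ x := by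
  have h1 : C ((p : ℤ_[p]) ^ (t + k)) ∣ C ((p : ℤ_[p]) ^ s) * x := by
    rw [h, pow_add, map_mul]
    exact mul_dvd_mul_left _ hy
  have h2 := gn_le hm h1
  rw [add_comm, pow_add, map_mul] at h2
  exact (mul_dvd_mul_iff_left (gn_ne s)).1 h2

theorem gn_lead_succ {B g : ℕ → ℕ} {I : ℕ} {N : ℕ → ℕ → ℤ_[p][X]} {n : ℕ} (h : I ≤ n) :
    Pot.lead (EX B g I N) (n + 1) =
      C ((p : ℤ_[p]) ^ (B (n + 1) - B n + g I)) * Pot.lead (EX B g I N) n := by
  unfold Pot.lead Pot.minor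
  rw [Matrix.det_succ_row _ (Fin.last n), Finset.sum_eq_single (Fin.last n)]
  · have e1 : EX B g I N n n = C ((p : ℤ_[p]) ^ (B (n + 1) - B n + g I)) := by
      unfold EX
      rw [if_neg (by omega), if_pos rfl]
    have e2 : ((Matrix.of fun i j : Fin (n + 1) => EX B g I N ((fun i : Fin (n + 1) => (i : ℕ)) i)
        ((fun i : Fin (n + 1) => (i : ℕ)) j)).submatrix (Fin.last n).succAbove
          (Fin.last n).succAbove) = Matrix.of fun i j : Fin n =>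
            EX B g I N ((fun i : Fin n => (i : ℕ)) i) ((fun i : Fin n => (i : ℕ)) j) := by
      ext i j
      rw [Matrix.submatrix_apply, Matrix.of_apply, Matrix.of_apply, Fin.succAbove_last]
      rfl
    rw [e2]
    have e3 : (Matrix.of fun i j : Fin (n + 1) => EX B g I N ((fun i : Fin (n + 1) => (i : ℕ)) i)
        ((fun i : Fin (n + 1) => (i : ℕ)) j)) (Fin.last n) (Fin.last n) =
          C ((p : ℤ_[p]) ^ (B (n + 1) - B n + g I)) := by
      rw [← e1]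
      rfl
    rw [e3, Fin.val_last, ← two_mul, pow_mul, neg_one_sq, one_pow, one_mul]
  · intro j _ hj
    have e1 : EX B g I N (Fin.last n : ℕ) j = 0 := by
      unfold EX
      rw [Fin.val_last, if_neg (by omega), if_neg]
      intro hnj
      exact hj (Fin.ext (by rw [Fin.val_last]; exact hnj.symm))
    rw [Matrix.of_apply, e1, mul_zero, zero_mul]
  · intro hn
    exact absurd (Finset.mem_univ _) hn

/-- The leading minors of the extension. -/
theorem gn_lead {B g : ℕ → ℕ} {I : ℕ} {N : ℕ → ℕ → ℤ_[p][X]} (hg : ∀ i, g i ≤ g (i + 1))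
    (hB : ∀ n, B n ≤ B (n + 1))
    (hl : ∀ n ≤ I, C ((p : ℤ_[p]) ^ B n) ∣ Pot.lead N n ∧
      ¬ C ((p : ℤ_[p]) ^ (B n + 1)) ∣ Pot.lead N n) (n : ℕ) :
    C ((p : ℤ_[p]) ^ (B n + n * g I)) ∣ Pot.lead (EX B g I N) n ∧
      ¬ C ((p : ℤ_[p]) ^ (B n + n * g I + 1)) ∣ Pot.lead (EX B g I N) n := by
  have key : ∀ n ≤ I, C ((p : ℤ_[p]) ^ (B n + n * g I)) ∣ Pot.lead (EX B g I N) n ∧
      ¬ C ((p : ℤ_[p]) ^ (B n + n * g I + 1)) ∣ Pot.lead (EX B g I N) n := by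
    intro n h
    have h1 := gn_minor (B := B) (N := N) hg (idf n) (idf n)
      (fun i => lt_of_lt_of_le i.2 h)
    rw [add_comm, pow_add, map_mul, mul_assoc] at h1
    have h2 : Pot.lead (EX B g I N) n = C ((p : ℤ_[p]) ^ (n * g I)) * Pot.lead N n :=
      mul_left_cancel₀ (gn_ne _) h1
    obtain ⟨h3, h4⟩ := hl n h
    rw [h2]
    refine ⟨?_, fun h5 => h4 ?_⟩
    · rw [add_comm, pow_add, map_mul]
      exact mul_dvd_mul_left _ h3
    · have e : B n + n * g I + 1 = n * g I + (B n + 1) := by ring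
      rw [e, pow_add, map_mul] at h5
      exact (mul_dvd_mul_iff_left (gn_ne _)).1 h5
  rcases le_or_gt n I with h | h
  · exact key n h
  · refine Nat.le_induction (key I le_rfl) (fun m hm ih => ?_) n h.le
    rw [gn_lead_succ hm]
    have hBm := hB m
    have e1 : B (m + 1) + (m + 1) * g I = (B (m + 1) - B m + g I) + (B m + m * g I) := by
      rw [add_mul, one_mul]
      omega
    rw [e1]
    refine ⟨?_, fun h5 => ih.2 ?_⟩
    · rw [pow_add, map_mul]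
      exact mul_dvd_mul_left _ ih.1
    · rw [add_assoc, pow_add, map_mul] at h5
      exact (mul_dvd_mul_iff_left (gn_ne _)).1 h5

/-- The bound of the minors from a potential. -/
theorem gn_min {d I : ℕ} {D : ℤ} {B : ℕ → ℕ} {N : ℕ → ℕ → ℤ_[p][X]} (hd : 0 < d)
    (hN : RowN p d D I B N) {θ : ℕ → ℤ} (hθ : Thr p d θ) {n : ℕ} (k : ℤ)
    (a b : Fin n → ℕ) (ha : ∀ i, a i < I)
    (h : k + ∑ j, (KK θ ((b j : ℤ) + 1) : ℤ) ≤
      ∑ i, (KK θ (p * ((a i : ℤ) + 1) - D) : ℤ)) :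
    C ((p : ℤ_[p]) ^ k.toNat) ∣ Pot.minor N a b := by
  rcases le_or_gt k 0 with hk | hk
  · rw [Int.toNat_of_nonpos hk, pow_zero, map_one]
    exact one_dvd _
  · exact spMin spKK p d I D N θ hd hθ hN.entry n k.toNat a b ha (by
      rw [Int.toNat_of_nonneg hk.le]
      exact h)

theorem gn_sum_idf {A : Type*} [AddCommMonoid A] (f : ℕ → A) (n : ℕ) :
    ∑ j : Fin n, f (idf n j) = ∑ j ∈ Finset.range n, f j :=
  Fin.sum_univ_eq_sum_range f n

theorem gn_sum_up {A : Type*} [AddCommMonoid A] (f : ℕ → A) (n i : ℕ) :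
    ∑ j : Fin (n + 1), f (up n i j) = ∑ j ∈ Finset.range n, f j + f i := by
  rw [Fin.sum_univ_castSucc]
  congr 1
  · rw [← Fin.sum_univ_eq_sum_range f n]
    refine Finset.sum_congr rfl fun k _ => ?_
    unfold up
    rw [Fin.val_castSucc, if_pos k.2]
  · unfold up
    rw [Fin.val_last, if_neg (lt_irrefl n)]

theorem gn_sR (θ : ℕ → ℤ) (D : ℤ) (n : ℕ) :
    ∑ j : Fin n, (KK θ (p * ((idf n j : ℤ) + 1) - D) : ℤ) =
      ∑ j ∈ Finset.range n, (KK θ (p * ((j : ℤ) + 1) - D) : ℤ) :=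
  gn_sum_idf (fun j => (KK θ (p * ((j : ℤ) + 1) - D) : ℤ)) n

theorem gn_sC (θ : ℕ → ℤ) (n : ℕ) :
    ∑ j : Fin n, (KK θ ((idf n j : ℤ) + 1) : ℤ) =
      ∑ j ∈ Finset.range n, (KK θ ((j : ℤ) + 1) : ℤ) :=
  gn_sum_idf (fun j => (KK θ ((j : ℤ) + 1) : ℤ)) n

theorem gn_uR (θ : ℕ → ℤ) (D : ℤ) (n i : ℕ) :
    ∑ j : Fin (n + 1), (KK θ (p * ((up n i j : ℤ) + 1) - D) : ℤ) =
      ∑ j ∈ Finset.range n, (KK θ (p * ((j : ℤ) + 1) - D) : ℤ) +
        KK θ (p * ((i : ℤ) + 1) - D) :=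
  gn_sum_up (fun j => (KK θ (p * ((j : ℤ) + 1) - D) : ℤ)) n i

theorem gn_uC (θ : ℕ → ℤ) (n i : ℕ) :
    ∑ j : Fin (n + 1), (KK θ ((up n i j : ℤ) + 1) : ℤ) =
      ∑ j ∈ Finset.range n, (KK θ ((j : ℤ) + 1) : ℤ) + KK θ ((i : ℤ) + 1) :=
  gn_sum_up (fun j => (KK θ ((j : ℤ) + 1) : ℤ)) n i

/-- `SS`, split. -/
theorem gn_SS (θ : ℕ → ℤ) (D : ℤ) (n : ℕ) : SS p D θ n =
    ∑ j ∈ Finset.range n, (KK θ (p * ((j : ℤ) + 1) - D) : ℤ) -
      ∑ j ∈ Finset.range n, (KK θ ((j : ℤ) + 1) : ℤ) := by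
  unfold SS
  exact Finset.sum_sub_distrib _ _

/-- The columns `0, …, n-1, j`. -/
theorem gn_colb {d I : ℕ} {D : ℤ} {B g : ℕ → ℕ} {N : ℕ → ℕ → ℤ_[p][X]} (hd : 0 < d)
    (hP : PotN p d D B g) (hN : RowN p d D I B N) {n j : ℕ} (hj : n < j) (h : n < I) :
    C ((p : ℤ_[p]) ^ ((B (n + 1) : ℤ) + g n - g j).toNat) ∣
      Pot.minor N (idf (n + 1)) (up n j) := by
  obtain ⟨θ, hθ, hS, hg⟩ := hP.cols n (j - n) (by omega)
  have e2 : ((n : ℤ) + ((j - n : ℕ) : ℤ) + 1) = (j : ℤ) + 1 := by omega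
  have e3 : n + (j - n) = j := by omega
  rw [e2, e3] at hg
  refine gn_min hd hN hθ _ (idf (n + 1)) (up n j) (fun i => ?_) ?_
  · have := i.2
    unfold idf
    omega
  · rw [gn_sR, gn_uC]
    rw [gn_SS, Finset.sum_range_succ (fun j : ℕ => (KK θ ((j : ℤ) + 1) : ℤ))] at hS
    have h6 : (KK θ ((j : ℤ) + 1) : ℤ) + g n ≤ KK θ ((n : ℤ) + 1) + g j := by
      exact_mod_cast hg
    linarith

/-- The rows `0, …, n-1, i`. -/
theorem gn_rowb {d I : ℕ} {D : ℤ} {B g : ℕ → ℕ} {N : ℕ → ℕ → ℤ_[p][X]} (hd : 0 < d)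
    (hP : PotN p d D B g) (hN : RowN p d D I B N) {n i : ℕ} (hi : n < i) (h : i < I) :
    C ((p : ℤ_[p]) ^ ((B (n + 1) : ℤ) + g i - g n).toNat) ∣
      Pot.minor N (up n i) (idf (n + 1)) := by
  obtain ⟨θ, hθ, hS, hg⟩ := hP.rows n (i - n) (by omega)
  have e2 : ((n : ℤ) + ((i - n : ℕ) : ℤ) + 1) = (i : ℤ) + 1 := by omega
  have e3 : n + (i - n) = i := by omega
  rw [e2, e3] at hg
  refine gn_min hd hN hθ _ (up n i) (idf (n + 1)) (fun j => ?_) ?_
  · have := j.2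
    unfold up
    split_ifs <;> omega
  · rw [gn_sC, gn_uR]
    rw [gn_SS, Finset.sum_range_succ
      (fun j : ℕ => (KK θ (p * ((j : ℤ) + 1) - D) : ℤ))] at hS
    have h6 : (KK θ (p * ((n : ℤ) + 1) - D) : ℤ) + g i ≤
        KK θ (p * ((i : ℤ) + 1) - D) + g n := by
      exact_mod_cast hg
    linarith

/-- A row of the extension which vanishes on the columns. -/
theorem gn_row_zero {B g : ℕ → ℕ} {I : ℕ} {N : ℕ → ℕ → ℤ_[p][X]} {n : ℕ} (a b : Fin n → ℕ)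
    (i : Fin n) (hi : I ≤ a i) (hb : ∀ j, b j ≠ a i) : Pot.minor (EX B g I N) a b = 0 := by
  refine Matrix.det_eq_zero_of_row_eq_zero i fun j => ?_
  rw [Matrix.of_apply]
  unfold EX
  rw [if_neg (by omega), if_neg (hb j).symm]

theorem gn_colx {d I : ℕ} {D : ℤ} {B g : ℕ → ℕ} {N : ℕ → ℕ → ℤ_[p][X]} (hd : 0 < d)
    (hP : PotN p d D B g) (hN : RowN p d D I B N) {n j : ℕ} (hj : n < j) (h : n < I) :
    C ((p : ℤ_[p]) ^ (B (n + 1) + (n + 1) * g I)) ∣
      Pot.minor (EX B g I N) (idf (n + 1)) (up n j) := by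
  have h0 : ∀ i : Fin (n + 1), idf (n + 1) i < I := by
    intro i
    have := i.2
    unfold idf
    omega
  have h1 := gn_minor (B := B) (N := N) hP.mono (idf (n + 1)) (up n j) h0
  have h2 := gn_colb hd hP hN hj h
  have h3 : (B (n + 1) + (n + 1) * g I) + ∑ i, g (idf (n + 1) i) ≤
      ((n + 1) * g I + ∑ i, g (up n j i)) + ((B (n + 1) : ℤ) + g n - g j).toNat := by
    rw [gn_sum_idf g, gn_sum_up g, Finset.sum_range_succ]
    have h4 := Int.self_le_toNat ((B (n + 1) : ℤ) + g n - g j)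
    omega
  exact gn_cancel h1 h2 h3

theorem gn_rowx {d I : ℕ} {D : ℤ} {B g : ℕ → ℕ} {N : ℕ → ℕ → ℤ_[p][X]} (hd : 0 < d)
    (hP : PotN p d D B g) (hN : RowN p d D I B N) {n i : ℕ} (hi : n < i) (h : i < I) :
    C ((p : ℤ_[p]) ^ (B (n + 1) + (n + 1) * g I)) ∣
      Pot.minor (EX B g I N) (up n i) (idf (n + 1)) := by
  have h0 : ∀ j : Fin (n + 1), up n i j < I := by
    intro j
    have := j.2
    unfold up
    split_ifs <;> omega
  have h1 := gn_minor (B := B) (N := N) hP.mono (up n i) (idf (n + 1)) h0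
  have h2 := gn_rowb hd hP hN hi h
  have h3 : (B (n + 1) + (n + 1) * g I) + ∑ j, g (up n i j) ≤
      ((n + 1) * g I + ∑ j, g (idf (n + 1) j)) + ((B (n + 1) : ℤ) + g i - g n).toNat := by
    rw [gn_sum_idf g, gn_sum_up g, Finset.sum_range_succ]
    have h4 := Int.self_le_toNat ((B (n + 1) : ℤ) + g i - g n)
    have h5 := gn_mono hP.mono hi.le
    omega
  exact gn_cancel h1 h2 h3

/-- The hypotheses of the `LDU` lemma for the extension. -/
theorem gn_hyp {d I : ℕ} {D : ℤ} {B g : ℕ → ℕ} {N : ℕ → ℕ → ℤ_[p][X]} (hd : 0 < d)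
    (hP : PotN p d D B g) (hN : RowN p d D I B N) :
    (∀ n, B n ≤ B (n + 1)) ∧
    (∀ n j, n < j → C ((p : ℤ_[p]) ^ (B (n + 1) + (n + 1) * g I)) ∣
      Pot.minor (EX B g I N) (idf (n + 1)) (up n j)) ∧
    (∀ n i, n < i → C ((p : ℤ_[p]) ^ (B (n + 1) + (n + 1) * g I)) ∣
      Pot.minor (EX B g I N) (up n i) (idf (n + 1))) := by
  have hB : ∀ n, B n ≤ B (n + 1) := by
    intro n
    induction n with
    | zero => rw [hP.zero]; exact Nat.zero_le _
    | succ n ih =>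
      have h1 := hP.conv n
      show B (n + 1) ≤ B (n + 2)
      omega
  refine ⟨hB, fun n j hj => ?_, fun n i hi => ?_⟩
  · rcases Nat.lt_or_ge n I with h | h
    · exact gn_colx hd hP hN hj h
    · have h1 : Pot.minor (EX B g I N) (idf (n + 1)) (up n j) = 0 := by
        refine gn_row_zero _ _ (Fin.last n) ?_ fun c => ?_
        · unfold idf
          rw [Fin.val_last]
          exact h
        · have := c.2
          unfold idf up
          rw [Fin.val_last]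
          split_ifs <;> omega
      rw [h1]
      exact dvd_zero _
  · rcases Nat.lt_or_ge i I with h | h
    · exact gn_rowx hd hP hN hi h
    · have h1 : Pot.minor (EX B g I N) (up n i) (idf (n + 1)) = 0 := by
        refine gn_row_zero _ _ (Fin.last n) ?_ fun c => ?_
        · unfold up
          rw [Fin.val_last, if_neg (lt_irrefl n)]
          exact h
        · have := c.2
          unfold idf up
          rw [Fin.val_last, if_neg (lt_irrefl n)]
          omega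
      rw [h1]
      exact dvd_zero _

/-- **Weak root dominance.** -/
theorem weakN {d I : ℕ} {D : ℤ} {B g : ℕ → ℕ} {N : ℕ → ℕ → ℤ_[p][X]} (hd : 0 < d)
    (hP : PotN p d D B g) (hN : RowN p d D I B N) {n : ℕ} (a b : Fin n → ℕ)
    (ha : ∀ i, a i < I) :
    C ((p : ℤ_[p]) ^ (B n + ∑ i, g (a i))) ∣
      C ((p : ℤ_[p]) ^ ∑ i, g (b i)) * Pot.minor N a b := by
  obtain ⟨hB, hU, hL⟩ := gn_hyp hd hP hN
  have h := spLDU p (EX B g I N) (fun n => B n + n * g I) (by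
    show B 0 + 0 * g I = 0
    rw [hP.zero, zero_mul, add_zero]) (fun n => by
    have := hP.conv n
    show 2 * (B (n + 1) + (n + 1) * g I) ≤ (B n + n * g I) + (B (n + 2) + (n + 2) * g I)
    nlinarith) (gn_lead hP.mono hB hN.lead) hU hL
  have h1 := h.1 n a b
  have h2 := gn_minor (B := B) (N := N) hP.mono a b ha
  have h3 : C ((p : ℤ_[p]) ^ (n * g I + (B n + ∑ i, g (a i)))) ∣
      C ((p : ℤ_[p]) ^ (n * g I)) * (C ((p : ℤ_[p]) ^ ∑ i, g (b i)) * Pot.minor N a b) := by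
    rw [← mul_assoc, ← map_mul, ← pow_add, ← h2]
    have e : n * g I + (B n + ∑ i, g (a i)) = ∑ i, g (a i) + (B n + n * g I) := by ring
    rw [e, pow_add, map_mul]
    exact mul_dvd_mul_left _ h1
  rw [pow_add, map_mul] at h3
  exact (mul_dvd_mul_iff_left (gn_ne _)).1 h3

/-- The rows `0, …, n` and any columns, one of them `> n`. -/
theorem gn_strictb {d I : ℕ} {D : ℤ} {B g : ℕ → ℕ} {N : ℕ → ℕ → ℤ_[p][X]} (hd : 0 < d)
    (hP : PotN p d D B g) (hN : RowN p d D I B N) {n : ℕ} (hV : PotV p d D B g n)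
    (hI : n < I) (b : Fin (n + 1) → ℕ) (hb : ∃ i, n + 1 ≤ b i) :
    C ((p : ℤ_[p]) ^ (B (n + 1) + (n + 1) * g I + 1)) ∣
      Pot.minor (EX B g I N) (idf (n + 1)) b := by
  classical
  by_cases hinj : Function.Injective b
  swap
  · have h1 : Pot.minor (EX B g I N) (idf (n + 1)) b = 0 := by
      unfold Function.Injective at hinj
      push Not at hinj
      obtain ⟨i, j, hij, hne⟩ := hinj
      exact Matrix.det_zero_of_column_eq hne fun k => by
        rw [Matrix.of_apply, Matrix.of_apply, hij]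
    rw [h1]
    exact dvd_zero _
  have h0 : ∀ i : Fin (n + 1), idf (n + 1) i < I := by
    intro i
    have := i.2
    unfold idf
    omega
  obtain ⟨θ, hθ, hS, hV1, hV2⟩ := hV
  have hsum := rt_sum_inj hinj hb (c := fun l => (g l : ℤ) - KK θ ((l : ℤ) + 1))
    (γ := (g n : ℤ) - KK θ ((n : ℤ) + 1)) (fun l hl => by
      have h1 := hV1 l (by omega)
      show (g l : ℤ) - KK θ ((l : ℤ) + 1) ≤ _
      omega) (fun l hl => by
      have h1 := hV2 l (by omega)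
      show _ ≤ (g l : ℤ) - KK θ ((l : ℤ) + 1)
      omega)
  rw [Finset.sum_sub_distrib, Finset.sum_sub_distrib] at hsum
  have h2 : C ((p : ℤ_[p]) ^ ((B (n + 1) : ℤ) + 1 + ∑ j ∈ Finset.range (n + 1), (g j : ℤ) -
      ∑ j, (g (b j) : ℤ)).toNat) ∣ Pot.minor N (idf (n + 1)) b := by
    refine gn_min hd hN hθ _ (idf (n + 1)) b h0 ?_
    rw [gn_sR]
    rw [gn_SS] at hS
    linarith
  have h1 := gn_minor (B := B) (N := N) hP.mono (idf (n + 1)) b h0
  have h3 : (B (n + 1) + (n + 1) * g I + 1) + ∑ i, g (idf (n + 1) i) ≤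
      ((n + 1) * g I + ∑ i, g (b i)) + ((B (n + 1) : ℤ) + 1 +
        ∑ j ∈ Finset.range (n + 1), (g j : ℤ) - ∑ j, (g (b j) : ℤ)).toNat := by
    rw [gn_sum_idf g]
    have h4 := Int.self_le_toNat ((B (n + 1) : ℤ) + 1 +
        ∑ j ∈ Finset.range (n + 1), (g j : ℤ) - ∑ j, (g (b j) : ℤ))
    zify
    push_cast at h4
    linarith
  exact gn_cancel h1 h2 h3

/-- **Strict root dominance** at a vertex. -/
theorem strictN {d I : ℕ} {D : ℤ} {B g : ℕ → ℕ} {N : ℕ → ℕ → ℤ_[p][X]} (hd : 0 < d)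
    (hP : PotN p d D B g) (hN : RowN p d D I B N) {n : ℕ} (hV : PotV p d D B g n)
    (hI : n < I) (hv : 2 * B (n + 1) < B n + B (n + 2)) (a b : Fin (n + 1) → ℕ)
    (ha : ∀ i, a i < I) (hb : ∃ i, n + 1 ≤ b i) :
    C ((p : ℤ_[p]) ^ (B (n + 1) + 1 + ∑ i, g (a i))) ∣
      C ((p : ℤ_[p]) ^ ∑ i, g (b i)) * Pot.minor N a b := by
  obtain ⟨hB, hU, hL⟩ := gn_hyp hd hP hN
  have h := spLDU p (EX B g I N) (fun n => B n + n * g I) (by
    show B 0 + 0 * g I = 0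
    rw [hP.zero, zero_mul, add_zero]) (fun n => by
    have := hP.conv n
    show 2 * (B (n + 1) + (n + 1) * g I) ≤ (B n + n * g I) + (B (n + 2) + (n + 2) * g I)
    nlinarith) (gn_lead hP.mono hB hN.lead) hU hL
  have h1 := h.2 n (by
    show 2 * (B (n + 1) + (n + 1) * g I) < (B n + n * g I) + (B (n + 2) + (n + 2) * g I)
    nlinarith) (fun b hb => gn_strictb hd hP hN hV hI b hb) a b hb
  have h2 := gn_minor (B := B) (N := N) hP.mono a b ha
  have h3 : C ((p : ℤ_[p]) ^ ((n + 1) * g I + (B (n + 1) + 1 + ∑ i, g (a i)))) ∣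
      C ((p : ℤ_[p]) ^ ((n + 1) * g I)) *
        (C ((p : ℤ_[p]) ^ ∑ i, g (b i)) * Pot.minor N a b) := by
    rw [← mul_assoc, ← map_mul, ← pow_add, ← h2]
    have e : (n + 1) * g I + (B (n + 1) + 1 + ∑ i, g (a i)) =
        ∑ i, g (a i) + (B (n + 1) + (n + 1) * g I + 1) := by ring
    rw [e, pow_add, map_mul]
    exact mul_dvd_mul_left _ h1
  rw [pow_add, map_mul] at h3
  exact (mul_dvd_mul_iff_left (gn_ne _)).1 h3

/-! ### The statements for `LM.Par` -/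

theorem gn_RowN (P : LM.Par p) {N : ℕ → ℕ → ℤ_[p][X]} (hG : P.GrN N) (hL : P.LdN N) (I : ℕ) :
    RowN p P.d P.D I P.B N where
  entry i j k _ hk := by
    refine hG i j k fun m hm => ?_
    have h := hk m hm
    have h1 : ((P.d * Lam p m + P.D : ℕ) : ℤ) < ((p * (i + 1) : ℕ) : ℤ) - ((j + 1 : ℕ) : ℤ) := by
      push_cast
      exact h
    omega
  lead n _ := hL n

theorem gn_bound {n : ℕ} (a : Fin n → ℕ) (m : ℕ) : ∃ I, m < I ∧ ∀ i, a i < I := by
  refine ⟨m + 1 + ∑ i, a i, by omega, fun i => ?_⟩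
  have := Finset.single_le_sum (fun j _ => Nat.zero_le (a j)) (Finset.mem_univ i)
  omega

/-- All minors. -/
theorem wkN_of (P : LM.Par p) (hd : 0 < P.d)
    (hP : ∀ ε ≤ 1, PotN p P.d P.D P.B (P.gm ε)) : WkN P := by
  intro N hG hL ε hε n a b
  obtain ⟨I, _, hI⟩ := gn_bound a 0
  exact weakN hd (hP ε hε) (gn_RowN P hG hL I) a b hI

/-- All minors at the vertices. -/
theorem stN_of (P : LM.Par p) (hd : 0 < P.d)
    (hP : ∀ ε ≤ 1, PotN p P.d P.D P.B (P.gm ε))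
    (hV : ∀ n, 2 * P.B (n + 1) < P.B n + P.B (n + 2) →
      PotV p P.d P.D P.B (P.gm (n % 2)) n) : StN P := by
  intro N hG hL n a b hR hb
  obtain _ | n := n
  · obtain ⟨i, -⟩ := hb
    exact i.elim0
  obtain ⟨I, hI1, hI⟩ := gn_bound a n
  have hv : 2 * P.B (n + 1) < P.B n + P.B (n + 2) := by
    rcases hR with h | h
    · omega
    · exact h
  have e : (n + 1 + 1) % 2 = n % 2 := by omega
  rw [e]
  exact strictN hd (hP _ (by omega)) (gn_RowN P hG hL I) (hV n hv) hI1 hv a b hI hb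

/-- `RootN`. -/
theorem rootN_of (P : LM.Par p) (hW : WkN P) (hS : StN P) : P.RootN := by
  intro N hG hL
  refine ⟨fun ε hε n a b => hW N hG hL ε hε n a b, fun n a hR _ ha => ?_⟩
  have h := hS N hG hL n a a hR ha
  rw [add_comm (P.B n + 1), pow_add, map_mul] at h
  exact (mul_dvd_mul_iff_left (gn_ne _)).1 h

/-! ### Slope `1/2` -/

theorem gn_thr {d : ℕ} {θ : ℕ → ℤ} (hθ : Thr p d θ) (hd : 4 ≤ d) (m l : ℕ) :
    θ m + 4 * l ≤ θ (m + l) := by
  have h := hθ m l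
  have h1 : (l : ℤ) ≤ Lam p l := by
    exact_mod_cast Nat.le_add_right _ _
  have h2 : (4 : ℤ) * l ≤ (d : ℤ) * Lam p l := by
    have h3 : (4 : ℤ) ≤ d := by exact_mod_cast hd
    nlinarith
  linarith

/-- The potentials from the three statements. -/
theorem potN_half {d : ℕ} {D : ℤ} {B : ℕ → ℕ} (hd : 4 ≤ d) (hC : CvN B) (hL : PLh p d D B)
    (hU : PUh p d D B) {ε : ℕ} : PotN p d D B fun i => (1 * (i + 1) + ε) / 2 where
  mono i := by
    show (1 * (i + 1) + ε) / 2 ≤ (1 * (i + 1 + 1) + ε) / 2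
    omega
  zero := hC.1
  conv := hC.2
  rows n k hk := by
    obtain ⟨θ, hθ, hS, h⟩ := hL (n + 1) k (by omega) hk
    refine ⟨θ, hθ, hS, ?_⟩
    have e1 : (p : ℤ) * (((n + 1 : ℕ) : ℤ)) - D = p * ((n : ℤ) + 1) - D := by push_cast; ring
    have e2 : (p : ℤ) * (((n + 1 : ℕ) : ℤ) + k) - D = p * ((n : ℤ) + k + 1) - D := by
      push_cast
      ring
    rw [e1, e2] at h
    show _ + (1 * (n + k + 1) + ε) / 2 ≤ _ + (1 * (n + 1) + ε) / 2
    omega
  cols n k hk := by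
    obtain ⟨θ, hθ, hS, hne⟩ := hU (n + 1) (by omega)
    refine ⟨θ, hθ, hS, ?_⟩
    have hKθ := spKK p d θ Fact.out (by omega) hθ
    have h1 : KK θ ((n : ℤ) + k + 1) ≤ KK θ ((n : ℤ) + 1) + k / 2 := by
      rw [hKθ]
      have h2 := (hKθ ((n : ℤ) + 1) _).1 le_rfl
      have h3 := hne (KK θ ((n : ℤ) + 1))
      have h4 := gn_thr hθ hd (KK θ ((n : ℤ) + 1)) (k / 2)
      push_cast at h3 h4
      omega
    show _ + (1 * (n + 1) + ε) / 2 ≤ _ + (1 * (n + k + 1) + ε) / 2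
    omega

theorem potV_half {d : ℕ} {D : ℤ} {B : ℕ → ℕ} (hd : 4 ≤ d) (hV : PVh p d D B) (n : ℕ)
    (hv : 2 * B (n + 1) < B n + B (n + 2)) :
    PotV p d D B (fun i => (1 * (i + 1) + n % 2) / 2) n := by
  obtain ⟨θ, hθ, hS, hne⟩ := hV (n + 1) (by omega) hv
  have hKθ := spKK p d θ Fact.out (by omega) hθ
  refine ⟨θ, hθ, hS, fun l hl => ?_, fun l hl => ?_⟩
  · have h1 : KK θ ((n : ℤ) + 1) ≤ KK θ ((l : ℤ) + 1) + (n - l) / 2 := by
      rw [hKθ]
      have h2 := (hKθ ((l : ℤ) + 1) _).1 le_rfl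
      have h3 := (hne (KK θ ((l : ℤ) + 1))).2.1
      have h4 := gn_thr hθ hd (KK θ ((l : ℤ) + 1)) ((n - l) / 2)
      push_cast at h3 h4
      omega
    show _ + (1 * (l + 1) + n % 2) / 2 ≤ _ + (1 * (n + 1) + n % 2) / 2
    omega
  · have h1 : KK θ ((l : ℤ) + 1) ≤ KK θ ((n : ℤ) + 1) + (l - n - 1) / 2 := by
      rw [hKθ]
      have h2 := (hKθ ((n : ℤ) + 1) _).1 le_rfl
      have h3 := (hne (KK θ ((n : ℤ) + 1))).1
      have h3' := (hne (KK θ ((n : ℤ) + 1))).2.2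
      have h4 := gn_thr hθ hd (KK θ ((n : ℤ) + 1)) ((l - n - 1) / 2)
      push_cast at h3 h3' h4
      omega
    show _ + (1 * (n + 1) + n % 2) / 2 + 1 ≤ _ + (1 * (l + 1) + n % 2) / 2
    omega

end GH.Trop
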