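import Pool.Agent.GH.Trop.StmN
import Pool.Agent.GH.Trop.Pot
import Pool.Agent.GH.Trop.Dig69

/-!
# GH-TROPN, row F9: potentials for the columns, `p = 5`
-/

noncomputable section

namespace GH.Trop

open GH.CombU

theorem n_uv5_ep (q : ℕ) : ep 5 0 0 q = 0 := by
  unfold ep
  simp

theorem n_uv5_D (i : ℕ) : 4 ≤ D5 i := by
  unfold D5
  split_ifs <;> norm_num

/-- the thresholds -/
def nuv5T (n q0 : ℕ) (u : ℤ) : ℕ → ℤ :=
  thE 5 6 (n - 6 * (Lam 5 q0 : ℤ) - u) fun m => ep 5 0 0 (m / 5)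

theorem n_uv5T_eq (n q0 : ℕ) (u : ℤ) (m : ℕ) :
    nuv5T n q0 u m = n - u + 6 * ((Lam 5 m : ℤ) - Lam 5 q0) := by
  unfold nuv5T thE
  beta_reduce
  rw [n_uv5_ep]
  push_cast
  ring

theorem n_uv5T_thr (n q0 : ℕ) (u : ℤ) : Thr 5 6 (nuv5T n q0 u) :=
  spThr 5 6 _ _ (by norm_num) fun m a => spEp' 5 0 0 m a (by norm_num)

theorem n_uv5_val (q0 : ℕ) (h : q0 ≠ 0) : 4 * padicValNat 5 q0.factorial + 1 ≤ q0 := by
  haveI : Fact (Nat.Prime 5) := ⟨by norm_num⟩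
  have := sub_one_mul_padicValNat_factorial_lt_of_ne_zero (p := 5) h
  omega

/-- the condition on the first threshold -/
theorem n_uv5_pos {i n q0 : ℕ} {e u : ℤ} (hn : 1 ≤ n)
    (h : 4 * (n : ℤ) - D5 i = 30 * q0 + e) (he : -4 ≤ e) (hu : u ≤ 2) :
    0 ≤ n - 6 * (Lam 5 q0 : ℤ) - u - 6 * ep 5 0 0 0 + D5 i := by
  have hD := n_uv5_D i
  rw [n_uv5_ep]
  unfold Lam
  rcases Nat.eq_zero_or_pos q0 with h0 | h0
  · subst h0
    have h1 : padicValNat 5 (Nat.factorial 0) = 0 := by simp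
    rw [h1]
    push_cast at h ⊢
    omega
  · have h1 := n_uv5_val q0 (by omega)
    generalize padicValNat 5 q0.factorial = v at h1 ⊢
    push_cast
    omega

theorem n_uv5_tabU : ∀ e ∈ Finset.Icc (-4 : ℤ) 24, 2 ∣ e →
    PP5 e ≤ PP5 (e + -1) - max 0 (-1) ∨ PP5 e ≤ PP5 (e + 1) - max 0 1 := by
  decide +kernel

theorem n_uv5_tabV : ∀ e ∈ Finset.Icc (-4 : ℤ) 24, 2 ∣ e →
    2 * PP5 e < PP5 (e - 4) + PP5 (e + 4) →
    PP5 e ≤ PP5 (e + -2) - max 0 (-2) ∨ PP5 e ≤ PP5 (e + 2) - max 0 2 := by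
  decide +kernel

theorem n_uv5_U (hE : SpE5) (hS : SpS5) {i : ℕ} (hi : i = 2 ∨ i = 3) :
    PUh 5 6 (D5 i) (BLN i) := by
  intro n hn
  obtain ⟨q0, e, h1, h2, h3, h4⟩ := hE i n hi hn
  obtain ⟨u, hu1, hu2⟩ : ∃ u : ℤ, (u = -1 ∨ u = 1) ∧ PP5 e ≤ PP5 (e + u) - max 0 u := by
    rcases n_uv5_tabU e (Finset.mem_Icc.2 ⟨h2, h3⟩) h4 with h | h
    · exact ⟨-1, Or.inl rfl, h⟩
    · exact ⟨1, Or.inr rfl, h⟩
  refine ⟨nuv5T n q0 u, n_uv5T_thr n q0 u, ?_, fun m => ?_⟩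
  · exact hS i n q0 0 0 e u hi h1 (by omega) (by omega) (by omega) (by omega) (Or.inl rfl) hu2
      (n_uv5_pos hn h1 h2 (by omega))
  · rw [n_uv5T_eq]
    omega

theorem n_uv5_vertex (hB : SpB5) {i n q0 : ℕ} {e : ℤ} (hi : i = 2 ∨ i = 3) (hn : 1 ≤ n)
    (h : 4 * (n : ℤ) - D5 i = 30 * q0 + e) (he : -4 ≤ e) (he' : e ≤ 24)
    (hv : 2 * BLN i n < BLN i (n - 1) + BLN i (n + 1)) :
    2 * PP5 e < PP5 (e - 4) + PP5 (e + 4) := by
  have e0 := hB i n q0 e hi h (by omega) (by omega)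
  have e1 := hB i (n - 1) q0 (e - 4) hi (by rw [Nat.cast_sub hn]; push_cast; omega)
    (by omega) (by omega)
  have e2 := hB i (n + 1) q0 (e + 4) hi (by push_cast; omega) (by omega) (by omega)
  have h1 : 2 * (BLN i n : ℤ) < BLN i (n - 1) + BLN i (n + 1) := by exact_mod_cast hv
  rw [e0, e1, e2] at h1
  have h2 : ∑ q ∈ Finset.range q0, (e - 4 + 30 * ((q0 : ℤ) - q) - 10) +
      ∑ q ∈ Finset.range q0, (e + 4 + 30 * ((q0 : ℤ) - q) - 10) =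
      2 * ∑ q ∈ Finset.range q0, (e + 30 * ((q0 : ℤ) - q) - 10) := by
    rw [← Finset.sum_add_distrib, Finset.mul_sum]
    exact Finset.sum_congr rfl fun q _ => by ring
  linarith

theorem n_uv5_V (hE : SpE5) (hS : SpS5) (hB : SpB5) {i : ℕ} (hi : i = 2 ∨ i = 3) :
    PVh 5 6 (D5 i) (BLN i) := by
  intro n hn hv
  obtain ⟨q0, e, h1, h2, h3, h4⟩ := hE i n hi hn
  have h5 := n_uv5_vertex hB hi hn h1 h2 h3 hv
  obtain ⟨u, hu1, hu2⟩ : ∃ u : ℤ, (u = -2 ∨ u = 2) ∧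
      PP5 e ≤ PP5 (e + u) - max 0 u := by
    rcases n_uv5_tabV e (Finset.mem_Icc.2 ⟨h2, h3⟩) h4 h5 with h | h
    · exact ⟨-2, Or.inl rfl, h⟩
    · exact ⟨2, Or.inr rfl, h⟩
  refine ⟨nuv5T n q0 u, n_uv5T_thr n q0 u, ?_, fun m => ?_⟩
  · exact hS i n q0 0 0 e u hi h1 (by omega) (by omega) (by omega) (by omega) (Or.inl rfl) hu2
      (n_uv5_pos hn h1 h2 (by omega))
  · rw [n_uv5T_eq]
    omega

/-- **The potentials for the columns, `p = 5`.** -/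
theorem spPotUV5 (hE : SpE5) (hS : SpS5) (hB : SpB5) : SpPotUV5 :=
  fun _ hi => ⟨n_uv5_U hE hS hi, n_uv5_V hE hS hB hi⟩

end GH.Trop
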